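import Pool.Agent.X262.Cnt
import Pool.Agent.Y879.AP.Mean2
import Pool.Agent.Y879.GL.Prog2

set_option autoImplicit false

/-!
# Systems of polynomials in arithmetic progressions, uniformly in the modulus
-/

namespace Pool.Agent.X262.ProgP

open Polynomial Finset Filter
open Pool.Agent.W123.RP Pool.Agent.H373R2.T7 Pool.Agent.W123.RU Pool.Agent.W123.RU.Poly
open Pool.Agent.TH464.PW Pool.Agent.TH464.PO Pool.Agent.Y879.GL Pool.Agent.Y879.AP

variable {k : ℕ}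

/-- the polynomials `f i (q x + a)` -/
noncomputable def fq (f : Fin k → ℤ[X]) (q a : ℕ) : Fin k → ℤ[X] :=
  fun i => (f i).comp (C (q : ℤ) * X + C (a : ℤ))

lemma fq_eval (f : Fin k → ℤ[X]) (q a m : ℕ) (i : Fin k) :
    (fq f q a i).eval (m : ℤ) = (f i).eval ((q * m + a : ℕ) : ℤ) := by
  unfold fq
  rw [eval_comp]
  simp

lemma fq_Q (f : Fin k → ℤ[X]) (q a p m : ℕ) : Q (fq f q a) p m ↔ Q f p (q * m + a) := by
  unfold Q
  exact exists_congr fun i => by rw [fq_eval]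

lemma fq_Q0 (f : Fin k → ℤ[X]) (q a p m : ℕ) (hp : p.Prime) (ha : Red (Q f) q a) :
    Q (fq f q a) p m ↔ Q0 (Qt (Q f) a) q p m := by
  rw [fq_Q]
  unfold Q0 Qt
  constructor
  · intro h
    refine ⟨fun hpq => ?_, h⟩
    apply ha p hp hpq
    rw [per f p (q * m + a)] at h
    rw [per f p a]
    obtain ⟨s, hs⟩ := hpq
    rwa [hs, mul_assoc, Nat.mul_add_mod] at h
  · exact fun h => h.2

lemma fq_nuB (f : Fin k → ℤ[X]) (c : ℕ) (hper : PerB (Q f) c) (q a p : ℕ) (hp : p.Prime)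
    (ha : Red (Q f) q a) : nuB (Q (fq f q a)) p = nuB (Qn (Q f) q) p := by
  classical
  have h1 : nuB (Q (fq f q a)) p = nuB (Q0 (Qt (Q f) a) q) p := by
    unfold nuB
    exact card_iff _ _ (fun r _ => fq_Q0 f q a p r hp ha)
  have hper2 : PerB (Qt (Q f) a) c := perB_Qt _ _ hper a
  rw [h1]
  by_cases h : p ∣ q
  · rw [nuB_Q0_dvd _ _ _ h, nuB_Qn_dvd _ _ _ h]
  · rw [nuB_Q0_not _ hper2.per _ _ hp h, nuB_Qn_not _ _ _ h, nuB_Qt _ c hper]

lemma fq_Vq (f : Fin k → ℤ[X]) (c : ℕ) (hper : PerB (Q f) c) (q a y : ℕ)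
    (ha : Red (Q f) q a) : Vq (Q (fq f q a)) y = Vq (Qn (Q f) q) y := by
  unfold Vq
  apply Finset.prod_congr rfl
  intro p hp
  rw [fq_nuB f c hper q a p (mem_pz.1 hp).2 ha]

lemma sys_adm (f : Fin k → ℤ[X]) (hf : Sys f) (p : ℕ) (hp : p.Prime) : nuB (Q f) p < p := by
  classical
  obtain ⟨m, hm⟩ := hf.adm p hp
  have h1 : (range p).filter (fun r => Q f p r) ⊂ range p := by
    rw [Finset.filter_ssubset]
    refine ⟨m % p, mem_range.2 (Nat.mod_lt _ hp.pos), ?_⟩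
    intro h
    obtain ⟨i, hi⟩ := (per f p m).2 h
    exact hm i hi
  have h2 := card_lt_card h1
  rw [card_range] at h2
  unfold nuB
  convert h2

lemma fq_adm (f : Fin k → ℤ[X]) (c : ℕ) (hper : PerB (Q f) c) (hadm : ∀ p : ℕ, p.Prime → nuB (Q f) p < p)
    (q a p : ℕ) (hp : p.Prime) (ha : Red (Q f) q a) : nuB (Q (fq f q a)) p < p := by
  rw [fq_nuB f c hper q a p hp ha]
  exact adm_Qn _ hadm q p hp

lemma fq_deg (f : Fin k → ℤ[X]) (q a : ℕ) (hq : 1 ≤ q) (i : Fin k) :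
    (fq f q a i).natDegree = (f i).natDegree := by
  unfold fq
  rw [natDegree_comp, natDegree_linear (by exact_mod_cast (by omega : q ≠ 0)), mul_one]

lemma fq_prim (f : Fin k → ℤ[X]) (hf : Sys f) (c : ℕ) (hper : PerB (Q f) c) (q a : ℕ) (hq : 1 ≤ q)
    (ha : Red (Q f) q a) (i : Fin k) : (fq f q a i).IsPrimitive := by
  intro r hr
  by_contra hu
  have hne : fq f q a i ≠ 0 := by
    intro h
    have h1 := fq_deg f q a hq i
    rw [h, natDegree_zero] at h1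
    have := hf.deg i
    omega
  have hr0 : r ≠ 0 := by
    rintro rfl
    rw [C_0, zero_dvd_iff] at hr
    exact hne hr
  obtain ⟨p, hp, hpr⟩ : ∃ p : ℕ, p.Prime ∧ (p : ℤ) ∣ r := by
    obtain ⟨p, hp, hpd⟩ := Nat.exists_prime_and_dvd (n := r.natAbs) (fun h => hu (Int.isUnit_iff_natAbs_eq.2 h))
    exact ⟨p, hp, Int.natCast_dvd.2 hpd⟩
  obtain ⟨m, _, hm⟩ := nu_exists _ p (fq_adm f c hper (sys_adm f hf) q a p hp ha)
  apply hm
  refine ⟨i, ?_⟩
  obtain ⟨g, hg⟩ := hr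
  rw [hg, eval_mul, eval_C]
  exact Dvd.dvd.mul_right hpr _

lemma fq_irr (f : Fin k → ℤ[X]) (hf : Sys f) (c : ℕ) (hper : PerB (Q f) c) (q a : ℕ) (hq : 1 ≤ q)
    (ha : Red (Q f) q a) (i : Fin k) : Irreducible (fq f q a i) := by
  have hprim : (f i).IsPrimitive := (hf.irr i).isPrimitive (by have := hf.deg i; omega)
  have h1 : Irreducible ((f i).map (Int.castRingHom ℚ)) :=
    (IsPrimitive.Int.irreducible_iff_irreducible_map_cast hprim).1 (hf.irr i)
  have hq0 : (q : ℚ) ≠ 0 := by exact_mod_cast (by omega : q ≠ 0)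
  have : Invertible (q : ℚ) := invertibleOfNonzero hq0
  have h2 := (MulEquiv.irreducible_iff (Polynomial.algEquivCMulXAddC (q : ℚ) (a : ℚ)).toRingEquiv.toMulEquiv
    (x := (f i).map (Int.castRingHom ℚ))).2 h1
  have h3 : Irreducible (((f i).map (Int.castRingHom ℚ)).comp (C (q : ℚ) * X + C (a : ℚ))) := h2
  apply (IsPrimitive.Int.irreducible_iff_irreducible_map_cast (fq_prim f hf c hper q a hq ha i)).2
  unfold fq
  rw [Polynomial.map_comp]
  simpa using h3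

lemma comp_lin_inj (q a : ℕ) (hq : 1 ≤ q) (f g : ℤ[X])
    (h : f.comp (C (q : ℤ) * X + C (a : ℤ)) = g.comp (C (q : ℤ) * X + C (a : ℤ))) : f = g := by
  rw [← sub_eq_zero] at h ⊢
  rw [← sub_comp] at h
  by_contra hne
  have h1 : (C (q : ℤ) * X + C (a : ℤ) : ℤ[X]).natDegree = 1 :=
    natDegree_linear (by exact_mod_cast (by omega : q ≠ 0))
  have h2 := comp_eq_zero_iff.1 h
  rcases h2 with h2 | ⟨_, h2⟩
  · exact hne h2
  · rw [h2, natDegree_C] at h1
    omega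

lemma fq_noTr (f : Fin k → ℤ[X]) (hf : Sys f) (htr : NoTr f) (q a : ℕ) (hq : 1 ≤ q) (i j : Fin k)
    (t : ℕ) (ht : 1 ≤ t) : ¬ Associated (fq f q a i) ((fq f q a j).comp (X + C (t : ℤ))) := by
  intro h
  have e : (fq f q a j).comp (X + C (t : ℤ)) =
      ((f j).comp (X + C ((q * t : ℕ) : ℤ))).comp (C (q : ℤ) * X + C (a : ℤ)) := by
    unfold fq
    rw [comp_assoc, comp_assoc]
    congr 1
    simp only [add_comp, mul_comp, C_comp, X_comp]
    push_cast
    rw [C_mul]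
    ring
  rw [e] at h
  rcases assoc_cases h with h1 | h1
  · exact htr i j (q * t) (Nat.mul_pos hq ht) (comp_lin_inj q a hq _ _ h1)
  · rw [← neg_comp] at h1
    have h2 := comp_lin_inj q a hq _ _ h1
    have h3 := congrArg leadingCoeff h2
    rw [leadingCoeff_neg, lc_shift] at h3
    have := hf.lead i
    have := hf.lead j
    omega

/-- a bound for the coefficients -/
lemma fq_coeff (f : Fin k → ℤ[X]) : ∃ (D : ℕ) (K : ℤ), 1 ≤ D ∧ 1 ≤ K ∧ (∀ i, (f i).natDegree ≤ D) ∧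
    ∀ q a : ℕ, 1 ≤ q → ∀ i n, |(fq f q a i).coeff n| ≤ K * ((a : ℤ) + 1) ^ D * (q : ℤ) ^ D := by
  obtain ⟨D, hD⟩ : ∃ D : ℕ, D = 1 + ∑ i, (f i).natDegree := ⟨_, rfl⟩
  have hDi : ∀ i, (f i).natDegree ≤ D := by
    intro i
    have := Finset.single_le_sum (f := fun i => (f i).natDegree) (fun _ _ => Nat.zero_le _) (mem_univ i)
    rw [hD]
    omega
  obtain ⟨H, hH⟩ : ∃ H : ℤ, H = 1 + ∑ i, ∑ n ∈ range (D + 1), |(f i).coeff n| := ⟨_, rfl⟩
  have hH1 : 1 ≤ H := by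
    rw [hH]
    have : 0 ≤ ∑ i, ∑ n ∈ range (D + 1), |(f i).coeff n| :=
      Finset.sum_nonneg fun i _ => Finset.sum_nonneg fun n _ => abs_nonneg _
    omega
  have hHi : ∀ i n, |(f i).coeff n| ≤ H := by
    intro i n
    by_cases hn : n ∈ range (D + 1)
    · have h1 := Finset.single_le_sum (f := fun n => |(f i).coeff n|) (fun _ _ => abs_nonneg _) hn
      have h2 := Finset.single_le_sum (f := fun i => ∑ n ∈ range (D + 1), |(f i).coeff n|)
        (fun _ _ => Finset.sum_nonneg fun n _ => abs_nonneg _) (mem_univ i)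
      beta_reduce at h1 h2
      rw [hH]
      omega
    · rw [mem_range] at hn
      have := hDi i
      rw [coeff_eq_zero_of_natDegree_lt (by omega), abs_zero]
      omega
  refine ⟨D, (D + 1) * (H * 2 ^ D), by omega, ?_, hDi, ?_⟩
  · have h2 : (1 : ℤ) ≤ (2 : ℤ) ^ D := one_le_pow₀ (by norm_num)
    have h3 : (1 : ℤ) ≤ (D : ℤ) + 1 := by omega
    exact one_le_mul_of_one_le_of_one_le h3 (one_le_mul_of_one_le_of_one_le hH1 h2)
  · intro q a hq i n
    have hq1 : (1 : ℤ) ≤ q := by exact_mod_cast hq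
    have ha1 : (1 : ℤ) ≤ (a : ℤ) + 1 := by omega
    have e : fq f q a i = ((f i).comp (X + C (a : ℤ))).comp (C (q : ℤ) * X) := by
      unfold fq
      rw [comp_assoc]
      congr 1
      simp
    rw [e, comp_C_mul_X_coeff]
    have h1 : |((f i).comp (X + C (a : ℤ))).coeff n| ≤ (D + 1) * (H * (((a : ℤ) + 1) ^ D * 2 ^ D)) := by
      rcases Nat.eq_zero_or_pos a with rfl | ha
      · simp only [Nat.cast_zero, C_0, add_zero, comp_X, zero_add, one_pow, one_mul]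
        refine (hHi i n).trans ?_
        have h2 : (1 : ℤ) ≤ (2 : ℤ) ^ D := one_le_pow₀ (by norm_num)
        have h3 : (1 : ℤ) ≤ (D : ℤ) + 1 := by omega
        calc H = 1 * (H * 1) := by ring
          _ ≤ (D + 1) * (H * 2 ^ D) := by gcongr
      · refine (coeff_shift (f i) D (hDi i) H (hHi i) a ha n).trans ?_
        have h3 : (a : ℤ) ^ D ≤ ((a : ℤ) + 1) ^ D := pow_le_pow_left₀ (by omega) (by omega) D
        gcongr
    by_cases hn : n ≤ D
    · rw [abs_mul, abs_of_nonneg (a := (q : ℤ) ^ n) (by positivity)]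
      have h4 : (q : ℤ) ^ n ≤ (q : ℤ) ^ D := pow_le_pow_right₀ hq1 hn
      calc |((f i).comp (X + C (a : ℤ))).coeff n| * (q : ℤ) ^ n ≤
          ((D + 1) * (H * (((a : ℤ) + 1) ^ D * 2 ^ D))) * (q : ℤ) ^ D :=
            mul_le_mul h1 h4 (by positivity) (by positivity)
        _ = _ := by ring
    · have h4 : ((f i).comp (X + C (a : ℤ))).coeff n = 0 := by
        apply coeff_eq_zero_of_natDegree_lt
        rw [natDegree_comp, natDegree_X_add_C, mul_one]
        have := hDi i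
        omega
      rw [h4, zero_mul, abs_zero]
      positivity

/-- the system in the progression -/
lemma fq_us (f : Fin k → ℤ[X]) (hf : Sys f) (htr : NoTr f) : ∃ D : ℕ, 1 ≤ D ∧
    ∀ A : ℝ, 0 < A → ∃ E : ℝ, 0 < E ∧ ∀ᶠ X : ℕ in atTop, ∀ q a : ℕ, 1 ≤ q → (q : ℝ) ≤ (X : ℝ) ^ A →
      (a : ℝ) ≤ (X : ℝ) ^ A → Red (Q f) q a → ∀ U : ℝ, US k D ((X : ℝ) ^ E) U (fq f q a) := by
  obtain ⟨D, K, hD, hK, hdeg, hco⟩ := fq_coeff f
  obtain ⟨c, hc, hper⟩ := exists_c f hf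
  refine ⟨D, hD, fun A hA => ⟨2 * A * D + 2, by positivity, ?_⟩⟩
  obtain ⟨K', hK'⟩ : ∃ K' : ℕ, (K' : ℝ) = (K : ℝ) * 2 ^ D := by
    refine ⟨K.toNat * 2 ^ D, ?_⟩
    push_cast
    congr 1
    have : ((K.toNat : ℤ) : ℝ) = (K : ℝ) := by rw [Int.toNat_of_nonneg (by omega)]
    exact_mod_cast this
  filter_upwards [eventually_ge_atTop (max K' 1)] with X hX
  have hX1 : (1 : ℝ) ≤ X := by exact_mod_cast (le_max_right _ _).trans hX
  have hXK : (K : ℝ) * 2 ^ D ≤ X := by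
    rw [← hK']
    exact_mod_cast (le_max_left _ _).trans hX
  have hX0 : (0 : ℝ) < X := by linarith
  intro q a hq hqX haX ha U
  refine { irr := fun i => fq_irr f hf c hper q a hq ha i, deg := ?_, degD := ?_, hgt := ?_, adm := ?_,
           tr := ?_ }
  · intro i
    rw [fq_deg f q a hq i]
    have := hf.deg i
    omega
  · intro i
    rw [fq_deg f q a hq i]
    exact hdeg i
  · intro i n
    have h1 := hco q a hq i n
    have h2 : |(((fq f q a i).coeff n : ℤ) : ℝ)| ≤ (K : ℝ) * ((a : ℝ) + 1) ^ D * (q : ℝ) ^ D := by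
      exact_mod_cast h1
    refine h2.trans ?_
    have hK0 : (0 : ℝ) ≤ K := by exact_mod_cast (by omega : (0 : ℤ) ≤ K)
    have hXA : 1 ≤ (X : ℝ) ^ A := Real.one_le_rpow hX1 hA.le
    have h3 : (a : ℝ) + 1 ≤ 2 * (X : ℝ) ^ A := by linarith
    calc (K : ℝ) * ((a : ℝ) + 1) ^ D * (q : ℝ) ^ D ≤ (K : ℝ) * (2 * (X : ℝ) ^ A) ^ D * ((X : ℝ) ^ A) ^ D := by
          gcongr
      _ = ((K : ℝ) * 2 ^ D) * (((X : ℝ) ^ A) ^ D * ((X : ℝ) ^ A) ^ D) := by
          rw [mul_pow]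
          ring
      _ ≤ X * (((X : ℝ) ^ A) ^ D * ((X : ℝ) ^ A) ^ D) := by
          apply mul_le_mul_of_nonneg_right hXK (by positivity)
      _ = (X : ℝ) ^ (2 * A * D + 1) := by
          rw [← Real.rpow_natCast ((X : ℝ) ^ A), ← Real.rpow_mul hX0.le, ← Real.rpow_add hX0]
          nth_rewrite 1 [← Real.rpow_one (X : ℝ)]
          rw [← Real.rpow_add hX0]
          congr 1
          ring
      _ ≤ (X : ℝ) ^ (2 * A * D + 2) := Real.rpow_le_rpow_of_exponent_le hX1 (by linarith)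
  · intro p hp
    obtain ⟨m, _, hm⟩ := nu_exists _ p (fq_adm f c hper (sys_adm f hf) q a p hp ha)
    exact ⟨m, fun i h => hm ⟨i, h⟩⟩
  · intro i j t ht _
    exact fq_noTr f hf htr q a hq i j t ht

/-- the proportion of the admissible classes is not too small -/
lemma RD_low (c : ℕ) (A : ℝ) (hA : 0 < A) : ∃ v : ℝ, 0 < v ∧ ∀ᶠ X : ℕ in atTop,
    ∀ (Q : ℕ → ℕ → Prop) (q : ℕ), PerB Q c → (∀ p : ℕ, p.Prime → nuB Q p < p) → 1 ≤ q →
      (q : ℝ) ≤ (X : ℝ) ^ A → v / Real.log (Real.log X) ^ c ≤ RD Q q := by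
  obtain ⟨v, hv, hVlow⟩ := V_lower_unif c
  refine ⟨v / (2 * 2 ^ c), by positivity, ?_⟩
  obtain ⟨K, hK⟩ : ∃ K : ℝ, K = 2 * A * c := ⟨_, rfl⟩
  have hK0 : 0 ≤ K := by rw [hK]; positivity
  have hlog : Tendsto (fun X : ℕ => Real.log (X : ℝ)) atTop atTop :=
    Real.tendsto_log_atTop.comp tendsto_natCast_atTop_atTop
  filter_upwards [hlog.eventually_ge_atTop (K + 4), eventually_ge_atTop 1] with X h1 h2
  intro Q q hQ hadm hq hqX
  have hX0 : (0 : ℝ) < X := by exact_mod_cast h2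
  have hlX : 0 < Real.log X := by linarith
  obtain ⟨z, hz⟩ : ∃ z : ℕ, z = ⌈K * Real.log X⌉₊ + 3 := ⟨_, rfl⟩
  have hz1 : K * Real.log X ≤ z := by
    rw [hz]
    push_cast
    have := Nat.le_ceil (K * Real.log X)
    linarith
  have hz3 : 3 ≤ z := by omega
  have hz3r : (3 : ℝ) ≤ z := by exact_mod_cast hz3
  have hz2 : (z : ℝ) ≤ Real.log X ^ 2 := by
    rw [hz]
    push_cast
    have := (Nat.ceil_lt_add_one (by positivity : 0 ≤ K * Real.log X)).le
    nlinarith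
  have hlz1 : 1 ≤ Real.log z := by
    have h3 : Real.log (Real.exp 1) ≤ Real.log z := Real.log_le_log (Real.exp_pos 1) (by
      have := Real.exp_one_lt_d9
      linarith)
    rwa [Real.log_exp] at h3
  have hlz2 : Real.log z ≤ 2 * Real.log (Real.log X) := by
    have h3 := Real.log_le_log (by linarith) hz2
    rwa [Real.log_pow] at h3
  have hll : 0 < Real.log (Real.log X) := by linarith
  have e1 := hVlow Q hQ hadm z (by omega)
  have e2 : Vq Q z ≤ Vq (Qd Q q) z := by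
    rw [← Vd_mul_Vn Q q z]
    have h3 := Vq_nonneg (Qd Q q) z
    have h4 : Vq (Qn Q q) z ≤ 1 := by
      unfold Vq
      apply Finset.prod_le_one
      · intro p hp
        exact one_sub_nonneg _ p (mem_pz.1 hp).2
      · intro p _
        have : 0 ≤ (nuB (Qn Q q) p : ℝ) / p := by positivity
        linarith
    nlinarith
  have e3 : 1 / 2 ≤ ∏ p ∈ q.primeFactors.filter (fun p => z < p), (1 - (nuB Q p : ℝ) / p) := by
    have hSp : ∀ p ∈ q.primeFactors.filter (fun p => z < p), p.Prime ∧ z < p ∧ p ∣ q := by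
      intro p hp
      rw [mem_filter, Nat.mem_primeFactors] at hp
      exact ⟨hp.1.1, hp.2, hp.1.2.1⟩
    have a1 : 1 - ∑ p ∈ q.primeFactors.filter (fun p => z < p), (nuB Q p : ℝ) / p ≤
        ∏ p ∈ q.primeFactors.filter (fun p => z < p), (1 - (nuB Q p : ℝ) / p) := by
      apply prod_one_sub_ge
      · intro p _
        positivity
      · intro p hp
        have h4 := hadm p (hSp p hp).1
        have h5 : (0 : ℝ) < p := by exact_mod_cast (hSp p hp).1.pos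
        rw [div_le_one h5]
        exact_mod_cast h4.le
    have a2 : ∑ p ∈ q.primeFactors.filter (fun p => z < p), (nuB Q p : ℝ) / p ≤
        (q.primeFactors.filter (fun p => z < p)).card * (c / z) := by
      rw [← nsmul_eq_mul]
      apply Finset.sum_le_card_nsmul
      intro p hp
      apply div_le_div₀ (Nat.cast_nonneg _) _ (by linarith) _
      · exact_mod_cast hQ.few p (hSp p hp).1
      · exact_mod_cast (hSp p hp).2.1.le
    have a3 := card_primes_le (q.primeFactors.filter (fun p => z < p)) z q (by omega) (by omega)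
      ((X : ℝ) ^ A) hqX hSp
    rw [Real.log_rpow hX0] at a3
    have a4 : ((q.primeFactors.filter (fun p => z < p)).card : ℝ) ≤ A * Real.log X := by
      have : ((q.primeFactors.filter (fun p => z < p)).card : ℝ) * 1 ≤
          (q.primeFactors.filter (fun p => z < p)).card * Real.log z :=
        mul_le_mul_of_nonneg_left hlz1 (Nat.cast_nonneg _)
      linarith
    have a5 : ((q.primeFactors.filter (fun p => z < p)).card : ℝ) * (c / z) ≤ 1 / 2 := by
      calc ((q.primeFactors.filter (fun p => z < p)).card : ℝ) * (c / z) ≤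
          (A * Real.log X) * (c / z) := mul_le_mul_of_nonneg_right a4 (by positivity)
        _ = (A * c * Real.log X) / z := by ring
        _ ≤ 1 / 2 := by
            rw [div_le_iff₀ (by linarith)]
            rw [hK] at hz1
            linarith
    linarith
  rw [RD_eq Q q z (by omega)]
  have e4 : v / Real.log z ^ c * (1 / 2) ≤ Vq (Qd Q q) z *
      ∏ p ∈ q.primeFactors.filter (fun p => z < p), (1 - (nuB Q p : ℝ) / p) :=
    mul_le_mul (e1.trans e2) e3 (by norm_num) (Vq_nonneg _ _)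
  refine le_trans ?_ e4
  rw [div_div, div_mul_eq_mul_div, mul_one_div, div_div]
  apply div_le_div_of_nonneg_left hv.le (by positivity)
  calc 2 * Real.log z ^ c ≤ 2 * (2 * Real.log (Real.log X)) ^ c := by
        apply mul_le_mul_of_nonneg_left _ (by norm_num)
        exact pow_le_pow_left₀ (by linarith) hlz2 c
    _ = 2 * 2 ^ c * Real.log (Real.log X) ^ c := by rw [mul_pow]; ring

lemma RD_le (Q : ℕ → ℕ → Prop) (hadm : ∀ p : ℕ, p.Prime → nuB Q p < p) (q y : ℕ) (hq : 1 ≤ q) :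
    RD Q q ≤ Vq (Qd Q q) y := by
  rw [RD_eq Q q y (by omega)]
  have h1 : ∏ p ∈ q.primeFactors.filter (fun p => y < p), (1 - (nuB Q p : ℝ) / p) ≤ 1 := by
    apply Finset.prod_le_one
    · intro p hp
      rw [mem_filter, Nat.mem_primeFactors] at hp
      have h4 := hadm p hp.1.1
      have h5 : (0 : ℝ) < p := by exact_mod_cast hp.1.1.pos
      rw [sub_nonneg, div_le_one h5]
      exact_mod_cast h4.le
    · intro p _
      have : 0 ≤ (nuB Q p : ℝ) / (p : ℝ) := by positivity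
      linarith
  calc Vq (Qd Q q) y * _ ≤ Vq (Qd Q q) y * 1 := mul_le_mul_of_nonneg_left h1 (Vq_nonneg _ _)
    _ = _ := mul_one _

/-- the density in the classes is at most of the order `1 / log X` -/
lemma Vn_up (f : Fin k → ℤ[X]) (hf : Sys f) (hk : 1 ≤ k) (r : ℕ) (hr : 2 ≤ r) (A : ℝ) (hA : 0 < A)
    (B : ℝ) : ∃ M : ℝ, 0 < M ∧ ∀ᶠ X : ℕ in atTop, ∀ q : ℕ, 1 ≤ q → (q : ℝ) ≤ (X : ℝ) ^ A →
      (2 ≤ k ∨ 1 ≤ B * RD (Q f) q) →
      Vq (Qn (Q f) q) ⌊(X : ℝ) ^ (1 / (r : ℝ))⌋₊ ≤ M / Real.log X := by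
  obtain ⟨c, hc, hper⟩ := exists_c f hf
  have hadm := sys_adm f hf
  obtain ⟨v, Cv, hv, hCv, hVb⟩ := V_bounds f hf
  obtain ⟨v1, hv1, hRD⟩ := RD_low c A hA
  have hrr : (2 : ℝ) ≤ r := by exact_mod_cast hr
  obtain ⟨M, hM⟩ : ∃ M : ℝ, M = Cv * (2 * r) ^ 2 * (|B| + 1 / v1) := ⟨_, rfl⟩
  refine ⟨M, by rw [hM]; positivity, ?_⟩
  have hlog : Tendsto (fun X : ℕ => Real.log (X : ℝ)) atTop atTop :=
    Real.tendsto_log_atTop.comp tendsto_natCast_atTop_atTop
  have hll : ∀ᶠ X : ℕ in atTop, Real.log (Real.log X) ^ c ≤ Real.log X := by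
    have h := (Real.isLittleO_pow_log_id_atTop (n := c)).comp_tendsto hlog
    have h1 := h.def one_pos
    filter_upwards [h1, hlog.eventually_ge_atTop 3] with X h2 h3
    simp only [Function.comp, Real.norm_eq_abs, id, one_mul] at h2
    rw [abs_of_nonneg (by linarith : 0 ≤ Real.log (X : ℝ))] at h2
    exact (le_abs_self _).trans h2
  filter_upwards [hRD, level_ok r hr, hll, hlog.eventually_ge_atTop 4] with X h1 g h3 h4
  obtain ⟨g1, g2, g3, g4, g5⟩ := g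
  intro q hq hqX hcase
  obtain ⟨y, hy⟩ : ∃ y, y = ⌊(X : ℝ) ^ (1 / (r : ℝ))⌋₊ := ⟨_, rfl⟩
  rw [← hy] at g1 g2 g3 g4 ⊢
  have hlX : 0 < Real.log X := by linarith
  have hly : 0 < Real.log y := by linarith
  have hlyX : Real.log X ≤ 2 * r * Real.log y := by
    rw [div_le_iff₀ (by positivity)] at g2
    linarith
  have hRD0 := h1 (Q f) q hper hadm hq hqX
  have hllp : 0 < Real.log (Real.log X) := Real.log_pos (by linarith)
  have hRDpos : 0 < RD (Q f) q := lt_of_lt_of_le (by positivity) hRD0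
  have hVn : Vq (Qn (Q f) q) y * RD (Q f) q ≤ Vq (Q f) y := by
    rw [← Vd_mul_Vn (Q f) q y, mul_comm (Vq (Qd (Q f) q) y)]
    exact mul_le_mul_of_nonneg_left (RD_le (Q f) hadm q y hq) (Vq_nonneg _ _)
  have hV1 := (hVb y g1).2
  rw [Fintype.card_fin] at hV1
  rcases hcase with hk2 | hB
  · -- two polynomials
    have e1 : Vq (Q f) y ≤ Cv / Real.log y ^ 2 := by
      refine hV1.trans ?_
      apply div_le_div_of_nonneg_left hCv.le (by positivity)
      exact pow_le_pow_right₀ g4 hk2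
    have e2 : Vq (Qn (Q f) q) y * (v1 / Real.log X) ≤ Cv / Real.log y ^ 2 := by
      refine le_trans (mul_le_mul_of_nonneg_left ?_ (Vq_nonneg _ _)) (hVn.trans e1)
      refine le_trans ?_ hRD0
      exact div_le_div_of_nonneg_left hv1.le (by positivity) h3
    have e3 : Cv / Real.log y ^ 2 ≤ Cv * (2 * r) ^ 2 / Real.log X ^ 2 := by
      rw [div_le_div_iff₀ (by positivity) (by positivity)]
      calc Cv * Real.log X ^ 2 ≤ Cv * (2 * r * Real.log y) ^ 2 := by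
            apply mul_le_mul_of_nonneg_left _ hCv.le
            exact pow_le_pow_left₀ hlX.le hlyX 2
        _ = _ := by ring
    have e4 : Vq (Qn (Q f) q) y * (v1 / Real.log X) ≤ Cv * (2 * r) ^ 2 / Real.log X ^ 2 := e2.trans e3
    have e5 : Vq (Qn (Q f) q) y ≤ Cv * (2 * r) ^ 2 * (1 / v1) / Real.log X := by
      rw [mul_div_assoc', div_le_iff₀ hlX] at e4
      rw [le_div_iff₀ hlX, mul_one_div, le_div_iff₀ hv1]
      calc Vq (Qn (Q f) q) y * Real.log X * v1 = Vq (Qn (Q f) q) y * v1 * Real.log X := by ring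
        _ ≤ Cv * (2 * r) ^ 2 / Real.log X ^ 2 * Real.log X * Real.log X :=
            mul_le_mul_of_nonneg_right e4 hlX.le
        _ = Cv * (2 * r) ^ 2 := by field_simp
    refine e5.trans ?_
    apply div_le_div_of_nonneg_right _ hlX.le
    rw [hM]
    apply mul_le_mul_of_nonneg_left _ (by positivity)
    linarith [abs_nonneg B]
  · have hB0 : 0 < B := by
      by_contra hn
      have : B * RD (Q f) q ≤ 0 := mul_nonpos_of_nonpos_of_nonneg (not_lt.1 hn) hRDpos.le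
      linarith
    have e1 : Vq (Q f) y ≤ Cv / Real.log y := by
      refine hV1.trans ?_
      apply div_le_div_of_nonneg_left hCv.le hly
      calc Real.log y = Real.log y ^ 1 := (pow_one _).symm
        _ ≤ Real.log y ^ k := pow_le_pow_right₀ g4 hk
    have e2 : Vq (Qn (Q f) q) y ≤ B * Vq (Q f) y := by
      calc Vq (Qn (Q f) q) y = Vq (Qn (Q f) q) y * 1 := (mul_one _).symm
        _ ≤ Vq (Qn (Q f) q) y * (B * RD (Q f) q) := mul_le_mul_of_nonneg_left hB (Vq_nonneg _ _)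
        _ = B * (Vq (Qn (Q f) q) y * RD (Q f) q) := by ring
        _ ≤ _ := mul_le_mul_of_nonneg_left hVn hB0.le
    refine e2.trans ((mul_le_mul_of_nonneg_left e1 hB0.le).trans ?_)
    rw [mul_div_assoc', div_le_div_iff₀ hly hlX]
    have e3 : (1 : ℝ) ≤ 2 * r := by linarith
    have e4 : B ≤ |B| := le_abs_self B
    calc B * Cv * Real.log X ≤ B * Cv * (2 * r * Real.log y) :=
          mul_le_mul_of_nonneg_left hlyX (by positivity)
      _ ≤ M * Real.log y := by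
          rw [hM]
          have e5 : B * (2 * r) ≤ (2 * r) ^ 2 * (|B| + 1 / v1) := by
            have : 0 < 1 / v1 := by positivity
            calc B * (2 * r) ≤ (|B| + 1 / v1) * ((2 * r) * (2 * r)) := by
                  apply mul_le_mul (by linarith) (by nlinarith) (by positivity) (by positivity)
              _ = _ := by ring
          calc B * Cv * (2 * r * Real.log y) = Cv * (B * (2 * r)) * Real.log y := by ring
            _ ≤ Cv * ((2 * r) ^ 2 * (|B| + 1 / v1)) * Real.log y := by gcongr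
            _ = _ := by ring

open Classical in
/-- **The gap laws in progressions**, uniformly in the progressions. -/
theorem gap_prog (f : Fin k → ℤ[X]) (hf : Sys f) (htr : NoTr f) (hk : 1 ≤ k) (A θ : ℝ) (hA : 0 < A)
    (hθ : 0 < θ) (l0 : ℕ) (x0 ε : ℝ) (hε : 0 < ε) :
    ∃ r0 : ℕ, 2 ≤ r0 ∧ ∀ r : ℕ, r0 ≤ r → ∀ B : ℝ, ∀ᶠ X : ℕ in atTop, ∀ q a : ℕ, 1 ≤ q →
      (q : ℝ) ≤ (X : ℝ) ^ A → (a : ℝ) ≤ (X : ℝ) ^ A → Red (Q f) q a →
      (2 ≤ k ∨ 1 ≤ B * RD (Q f) q) → ∀ Z Y : ℕ, (X : ℝ) ^ θ ≤ Y →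
      ∀ l T : ℕ, (l ≤ l0 ∨ T * Vq (Qn (Q f) q) ⌊(X : ℝ) ^ (1 / (r : ℝ))⌋₊ ≤ x0) →
        |(Pk (Sf (Q (fq f q a)) ⌊(X : ℝ) ^ (1 / (r : ℝ))⌋₊) l T Z Y : ℝ) -
          Y * Vq (Qn (Q f) q) ⌊(X : ℝ) ^ (1 / (r : ℝ))⌋₊ *
            Ck l (T * Vq (Qn (Q f) q) ⌊(X : ℝ) ^ (1 / (r : ℝ))⌋₊)| ≤
          ε * (Y * Vq (Qn (Q f) q) ⌊(X : ℝ) ^ (1 / (r : ℝ))⌋₊) := by
  obtain ⟨c, hc, hper⟩ := exists_c f hf
  obtain ⟨D, hD, hus⟩ := fq_us f hf htr
  obtain ⟨E, hE, hus2⟩ := hus A hA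
  obtain ⟨r0, h0⟩ := gap_polys k D E 1 θ hE one_pos hθ l0 x0 ε hε
  refine ⟨max r0 2, le_max_right _ _, ?_⟩
  intro r hr B
  have hr2 : 2 ≤ r := (le_max_right _ _).trans hr
  obtain ⟨M, hM, hV⟩ := Vn_up f hf hk r hr2 A hA B
  filter_upwards [h0 r ((le_max_left _ _).trans hr) M, hus2, hV] with X h1 h2 h3
  intro q a hq hqX haX ha hB Z Y hY l T hl
  have h4 := h1 (fq f q a) (h2 q a hq hqX haX ha _) (by
    rw [fq_Vq f c hper q a _ ha]
    exact h3 q hq hqX hB) Z Y hY l T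
  rw [fq_Vq f c hper q a _ ha] at h4
  exact h4 hl

open Classical in
/-- **Regular points in progressions**, uniformly in the progressions. -/
theorem her_prog (f : Fin k → ℤ[X]) (hf : Sys f) (htr : NoTr f) (hk : 1 ≤ k) (A θ : ℝ) (hA : 0 < A)
    (hθ : 0 < θ) :
    ∃ r0 : ℕ, 2 ≤ r0 ∧ ∀ r : ℕ, r0 ≤ r → ∀ B ε : ℝ, 0 < ε → ∃ cc : ℝ, 0 < cc ∧
      ∀ δ : ℝ, 0 < δ → ∃ B1 : ℕ, ∀ᶠ X : ℕ in atTop, ∀ q a : ℕ, 1 ≤ q →
      (q : ℝ) ≤ (X : ℝ) ^ A → (a : ℝ) ≤ (X : ℝ) ^ A → Red (Q f) q a →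
      (2 ≤ k ∨ 1 ≤ B * RD (Q f) q) → ∀ u Y : ℕ, (X : ℝ) ^ θ ≤ Y → Y ≤ X → Y ≤ u →
      ∀ S : Set ℕ, (∀ m ∈ S, Sf (Q (fq f q a)) ⌊(X : ℝ) ^ (1 / (r : ℝ))⌋₊ m) →
        (Pool.Agent.TH977.PW.N (Irr S (1 / Vq (Qn (Q f) q) ⌊(X : ℝ) ^ (1 / (r : ℝ))⌋₊) cc δ B1 Y)
          u (u + Y) : ℝ) ≤ ε * (Y * Vq (Qn (Q f) q) ⌊(X : ℝ) ^ (1 / (r : ℝ))⌋₊) := by
  obtain ⟨c, hc, hper⟩ := exists_c f hf
  obtain ⟨D, hD, hus⟩ := fq_us f hf htr
  obtain ⟨E, hE, hus2⟩ := hus A hA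
  obtain ⟨r0, hr0, h0⟩ := hered_polys k D 0 E 1 θ hE one_pos hθ
  refine ⟨r0, hr0, ?_⟩
  intro r hr B ε hε
  have hr2 : 2 ≤ r := hr0.trans hr
  obtain ⟨M, hM, hV⟩ := Vn_up f hf hk r hr2 A hA B
  obtain ⟨cc, hcc, h1⟩ := h0 r hr M hM ε hε
  refine ⟨cc, hcc, fun δ hδ => ?_⟩
  obtain ⟨B1, h2⟩ := h1 δ hδ
  refine ⟨B1, ?_⟩
  filter_upwards [h2, hus2, hV] with X h3 h4 h5
  intro q a hq hqX haX ha hB u Y hY hYX hYu S hS
  have h6 := h3 (fq f q a) (h4 q a hq hqX haX ha 0) ∅ (by simp)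
    (fun i j t ht _ _ => fq_noTr f hf htr q a hq i j t ht) (by
    rw [fq_Vq f c hper q a _ ha]
    exact h5 q hq hqX hB) u Y hY hYX hYu S hS
  rw [fq_Vq f c hper q a _ ha] at h6
  exact h6

end Pool.Agent.X262.ProgP
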