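import Mathlib

set_option autoImplicit false

/-!
Balls in finitely generated groups: the ratio of consecutive balls tends to one for groups with
doubling growth, and virtually abelian groups have doubling growth.
-/

namespace Pool.Agent.X262.Ball

open Filter Topology

variable {G : Type} [Group G]

/-- The ball of radius `n`: the elements that are products of at most `n` elements of
`X ∪ X⁻¹`. -/
def ball (X : Set G) (n : ℕ) : Set G :=
  {g | ∃ l : List G, l.length ≤ n ∧ (∀ x ∈ l, x ∈ X ∨ x⁻¹ ∈ X) ∧ l.prod = g}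

variable {X : Set G}

theorem one_mem_ball (n : ℕ) : (1 : G) ∈ ball X n := ⟨[], by simp, by simp, by simp⟩

theorem ball_mono {m n : ℕ} (h : m ≤ n) : ball X m ⊆ ball X n := by
  rintro g ⟨l, hl, hx, hg⟩
  exact ⟨l, hl.trans h, hx, hg⟩

theorem mul_mem_ball {m n : ℕ} {g h : G} (hg : g ∈ ball X m) (hh : h ∈ ball X n) :
    g * h ∈ ball X (m + n) := by
  obtain ⟨l, hl, hx, rfl⟩ := hg
  obtain ⟨l', hl', hx', rfl⟩ := hh
  refine ⟨l ++ l', by simp; omega, ?_, by simp⟩
  intro x hx2
  rcases List.mem_append.mp hx2 with h | h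
  · exact hx x h
  · exact hx' x h

theorem inv_mem_ball {n : ℕ} {g : G} (hg : g ∈ ball X n) : g⁻¹ ∈ ball X n := by
  obtain ⟨l, hl, hx, rfl⟩ := hg
  refine ⟨(l.map (·⁻¹)).reverse, by simpa using hl, ?_, by rw [List.prod_inv_reverse]⟩
  intro x hx2
  rw [List.mem_reverse, List.mem_map] at hx2
  obtain ⟨y, hy, rfl⟩ := hx2
  rw [inv_inv]
  exact (hx y hy).symm

theorem pow_mem_ball {n : ℕ} {g : G} (hg : g ∈ ball X n) (j : ℕ) : g ^ j ∈ ball X (n * j) := by
  induction j with
  | zero => simpa using one_mem_ball (X := X) 0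
  | succ j ih => rw [pow_succ]; exact mul_mem_ball ih hg

theorem gen_mem_ball {x : G} (h : x ∈ X ∨ x⁻¹ ∈ X) : x ∈ ball X 1 :=
  ⟨[x], by simp, by simpa using h, by simp⟩

theorem ball_finite (hX : X.Finite) (n : ℕ) : (ball X n).Finite := by
  induction n with
  | zero =>
    refine (Set.finite_singleton (1 : G)).subset ?_
    rintro g ⟨l, hl, -, rfl⟩
    have : l = [] := by simpa using hl
    simp [this]
  | succ n ih =>
    have h1 : (Set.insert 1 (X ∪ X⁻¹)).Finite := (hX.union hX.inv).insert 1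
    refine (h1.image2 (fun a b => a * b) ih).subset ?_
    rintro g ⟨l, hl, hx, rfl⟩
    rcases l with _ | ⟨y, l⟩
    · exact ⟨1, Or.inl rfl, 1, one_mem_ball n, by simp⟩
    · refine ⟨y, Or.inr ?_, l.prod, ⟨l, by simpa using hl, fun x h => hx x (List.mem_cons_of_mem _ h),
        rfl⟩, by simp⟩
      rcases hx y (by simp) with h | h
      · exact Or.inl h
      · exact Or.inr (Set.mem_inv.mpr h)

theorem exists_mem_ball (hgen : Subgroup.closure X = ⊤) (g : G) : ∃ n, g ∈ ball X n := by
  have hg : g ∈ Subgroup.closure X := by rw [hgen]; trivial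
  induction hg using Subgroup.closure_induction with
  | mem x hx => exact ⟨1, gen_mem_ball (Or.inl hx)⟩
  | one => exact ⟨0, one_mem_ball 0⟩
  | mul x y _ _ hx hy =>
    obtain ⟨m, hm⟩ := hx
    obtain ⟨n, hn⟩ := hy
    exact ⟨m + n, mul_mem_ball hm hn⟩
  | inv x _ hx =>
    obtain ⟨m, hm⟩ := hx
    exact ⟨m, inv_mem_ball hm⟩

theorem exists_ball_of_finite (hgen : Subgroup.closure X = ⊤) (s : Set G) (hs : s.Finite) :
    ∃ n, s ⊆ ball X n := by
  choose f hf using fun g : G => exists_mem_ball hgen g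
  refine ⟨∑ g ∈ hs.toFinset, f g, fun g hg => ball_mono ?_ (hf g)⟩
  exact Finset.single_le_sum (f := f) (fun _ _ => Nat.zero_le _) (hs.mem_toFinset.mpr hg)

theorem split_ball {n j : ℕ} (hj : j ≤ n) {x : G} (hx : x ∈ ball X n) :
    ∃ y ∈ ball X j, y⁻¹ * x ∈ ball X (n - j) := by
  obtain ⟨l, hl, hx, rfl⟩ := hx
  refine ⟨(l.take j).prod, ⟨l.take j, by simp, fun x h => hx x (List.mem_of_mem_take h), rfl⟩,
    ⟨l.drop j, by simp; omega, fun x h => hx x (List.mem_of_mem_drop h), ?_⟩⟩
  rw [← List.prod_take_mul_prod_drop l j, inv_mul_cancel_left]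

theorem annulus (hX : X.Finite) {n k : ℕ} (h : 5 * k ≤ n) :
    (ball X n \ ball X (n - k)).ncard * (ball X k).ncard ≤
      (ball X (n - 2 * k) \ ball X (n - 5 * k)).ncard * (ball X (4 * k)).ncard := by
  classical
  have hy : ∀ x : G, ∃ y : G, x ∈ ball X n → y ∈ ball X (n - 3 * k) ∧ y⁻¹ * x ∈ ball X (3 * k) := by
    intro x
    by_cases hx : x ∈ ball X n
    · obtain ⟨y, hy1, hy2⟩ := split_ball (X := X) (j := n - 3 * k) (by omega) hx
      refine ⟨y, fun _ => ⟨hy1, ?_⟩⟩
      have : n - (n - 3 * k) = 3 * k := by omega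
      rwa [this] at hy2
    · exact ⟨1, fun h => absurd h hx⟩
  choose y hy using hy
  rw [← Set.ncard_prod, ← Set.ncard_prod]
  refine Set.ncard_le_ncard_of_injOn (fun p : G × G => (y p.1 * p.2, (y p.1 * p.2)⁻¹ * p.1)) ?_ ?_ ?_
  · rintro ⟨x, b⟩ ⟨⟨hx1, hx2⟩, hb⟩
    simp only at hx1 hx2 hb
    obtain ⟨h1, h2⟩ := hy x hx1
    have h3 : (y x * b)⁻¹ * x ∈ ball X (4 * k) := by
      have h4 := mul_mem_ball (inv_mem_ball hb) h2
      have e : b⁻¹ * ((y x)⁻¹ * x) = (y x * b)⁻¹ * x := by group
      rw [e] at h4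
      exact ball_mono (by omega) h4
    refine ⟨⟨?_, ?_⟩, h3⟩
    · exact ball_mono (by omega) (mul_mem_ball h1 hb)
    · intro hz
      apply hx2
      have h5 := mul_mem_ball hz h3
      rw [mul_inv_cancel_left] at h5
      exact ball_mono (by omega) h5
  · rintro ⟨x, b⟩ _ ⟨x', b'⟩ _ hxx
    simp only [Prod.mk.injEq] at hxx
    obtain ⟨h1, h2⟩ := hxx
    rw [h1] at h2
    have h3 : x = x' := mul_left_cancel h2
    subst h3
    exact Prod.ext rfl (mul_left_cancel h1)
  · exact ((ball_finite hX _).sdiff).prod (ball_finite hX _)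

/-- the size of the ball, as a real number -/
noncomputable def beta (X : Set G) (n : ℕ) : ℝ := ((ball X n).ncard : ℝ)

theorem beta_pos (hX : X.Finite) (n : ℕ) : 0 < beta X n := by
  unfold beta
  have : 0 < (ball X n).ncard := (Set.ncard_pos (ball_finite hX n)).mpr ⟨1, one_mem_ball n⟩
  exact_mod_cast this

theorem beta_mono (hX : X.Finite) {m n : ℕ} (h : m ≤ n) : beta X m ≤ beta X n := by
  unfold beta
  exact_mod_cast Set.ncard_le_ncard (ball_mono h) (ball_finite hX n)

theorem beta_diff (hX : X.Finite) {m n : ℕ} (h : m ≤ n) :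
    ((ball X n \ ball X m).ncard : ℝ) = beta X n - beta X m := by
  have := Set.ncard_sdiff_add_ncard_of_subset (ball_mono (X := X) h) (ball_finite hX n)
  unfold beta
  rw [← this]
  push_cast
  ring

theorem beta_annulus (hX : X.Finite) {D : ℝ} (hD0 : 0 < D)
    (hD : ∀ k, beta X (4 * k) ≤ D * beta X k) {n k : ℕ} (h : 5 * k ≤ n) :
    beta X n - beta X (n - k) ≤ D * (beta X (n - k) - beta X (n - 5 * k)) := by
  have h1 := annulus hX h
  have h2 : (beta X n - beta X (n - k)) * beta X k ≤
      (beta X (n - 2 * k) - beta X (n - 5 * k)) * beta X (4 * k) := by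
    rw [← beta_diff hX (by omega), ← beta_diff hX (by omega)]
    unfold beta
    exact_mod_cast h1
  have h3 : beta X (n - 2 * k) - beta X (n - 5 * k) ≤ beta X (n - k) - beta X (n - 5 * k) := by
    have := beta_mono hX (show n - 2 * k ≤ n - k by omega)
    linarith
  have h4 : 0 ≤ beta X (n - 2 * k) - beta X (n - 5 * k) := by
    have := beta_mono hX (show n - 5 * k ≤ n - 2 * k by omega)
    linarith
  have hk := beta_pos hX k
  have h5 : (beta X n - beta X (n - k)) * beta X k ≤
      (D * (beta X (n - k) - beta X (n - 5 * k))) * beta X k := by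
    calc _ ≤ (beta X (n - 2 * k) - beta X (n - 5 * k)) * beta X (4 * k) := h2
      _ ≤ (beta X (n - 2 * k) - beta X (n - 5 * k)) * (D * beta X k) :=
          mul_le_mul_of_nonneg_left (hD k) h4
      _ ≤ (beta X (n - k) - beta X (n - 5 * k)) * (D * beta X k) :=
          mul_le_mul_of_nonneg_right h3 (by positivity)
      _ = _ := by ring
  exact le_of_mul_le_mul_right h5 hk

theorem beta_iter (hX : X.Finite) {D : ℝ} (hD0 : 0 < D)
    (hD : ∀ k, beta X (4 * k) ≤ D * beta X k) (n j : ℕ) (h : 5 ^ j ≤ n) :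
    beta X n - beta X (n - 1) ≤ (D / (1 + D)) ^ j * (beta X n - beta X (n - 5 ^ j)) := by
  induction j with
  | zero => simp
  | succ j ih =>
    have h1 : 5 ^ j ≤ n := le_trans (Nat.pow_le_pow_right (by norm_num) (by omega)) h
    refine (ih h1).trans ?_
    have h2 := beta_annulus hX hD0 hD (n := n) (k := 5 ^ j) (by rw [pow_succ] at h; omega)
    have h3 : beta X n - beta X (n - 5 ^ j) ≤
        D / (1 + D) * (beta X n - beta X (n - 5 ^ (j + 1))) := by
      rw [div_mul_eq_mul_div, le_div_iff₀ (by positivity)]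
      have e : 5 * 5 ^ j = 5 ^ (j + 1) := by rw [pow_succ]; ring
      rw [e] at h2
      linarith
    calc (D / (1 + D)) ^ j * (beta X n - beta X (n - 5 ^ j))
        ≤ (D / (1 + D)) ^ j * (D / (1 + D) * (beta X n - beta X (n - 5 ^ (j + 1)))) :=
          mul_le_mul_of_nonneg_left h3 (by positivity)
      _ = _ := by rw [pow_succ]; ring

theorem ratio_one (hX : X.Finite) {D : ℝ} (hD0 : 0 < D)
    (hD : ∀ k, beta X (4 * k) ≤ D * beta X k) :
    Tendsto (fun n => beta X (n + 1) / beta X n) atTop (𝓝 1) := by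
  have h1 : Tendsto (fun n => (beta X (n + 1) - beta X n) / beta X (n + 1)) atTop (𝓝 0) := by
    have hlog : Tendsto (fun n : ℕ => Nat.log 5 (n + 1)) atTop atTop := by
      apply tendsto_atTop.mpr
      intro b
      filter_upwards [eventually_ge_atTop (5 ^ b)] with n hn
      exact Nat.le_log_of_pow_le (by norm_num) (by omega)
    have hpow : Tendsto (fun n : ℕ => (D / (1 + D)) ^ (Nat.log 5 (n + 1))) atTop (𝓝 0) :=
      (tendsto_pow_atTop_nhds_zero_of_lt_one (by positivity)
        (by rw [div_lt_one (by positivity)]; linarith)).comp hlog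
    refine squeeze_zero ?_ ?_ hpow
    · intro n
      have := beta_mono hX (show n ≤ n + 1 by omega)
      have hp := beta_pos hX (n + 1)
      apply div_nonneg <;> linarith
    · intro n
      have hp := beta_pos hX (n + 1)
      rw [div_le_iff₀ hp]
      have h2 := beta_iter hX hD0 hD (n + 1) (Nat.log 5 (n + 1))
        (Nat.pow_log_le_self 5 (by omega))
      rw [Nat.add_sub_cancel] at h2
      refine h2.trans ?_
      apply mul_le_mul_of_nonneg_left _ (by positivity)
      have := beta_pos hX (n + 1 - 5 ^ Nat.log 5 (n + 1))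
      linarith
  have h2 : Tendsto (fun n => 1 - (beta X (n + 1) - beta X n) / beta X (n + 1)) atTop (𝓝 (1 - 0)) :=
    tendsto_const_nhds.sub h1
  have h3 := h2.inv₀ (by norm_num)
  simp only [sub_zero, inv_one] at h3
  refine h3.congr ?_
  intro n
  have hp := beta_pos hX (n + 1)
  have hq := beta_pos hX n
  have : 1 - (beta X (n + 1) - beta X n) / beta X (n + 1) = beta X n / beta X (n + 1) := by
    field_simp
    ring
  rw [this, inv_div]

theorem ratio_shift (hX : X.Finite)
    (h : Tendsto (fun n => beta X (n + 1) / beta X n) atTop (𝓝 1)) (M : ℕ) :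
    Tendsto (fun n => beta X (n + M) / beta X n) atTop (𝓝 1) := by
  induction M with
  | zero =>
    refine tendsto_const_nhds.congr ?_
    intro n
    have := beta_pos hX n
    rw [add_zero, div_self this.ne']
  | succ M ih =>
    have h1 := (h.comp (tendsto_add_atTop_nat M)).mul ih
    rw [one_mul] at h1
    refine h1.congr ?_
    intro n
    have hp := beta_pos hX (n + M)
    have hq := beta_pos hX n
    simp only [Function.comp_apply]
    rw [div_mul_div_cancel₀ hp.ne']
    rfl

/-- Virtually abelian groups have doubling growth. -/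
theorem doubling (hX : X.Finite) (hgen : Subgroup.closure X = ⊤) (A : Subgroup G)
    [A.FiniteIndex] (hA : ∀ a ∈ A, ∀ b ∈ A, a * b = b * a) :
    ∃ D : ℝ, 0 < D ∧ ∀ k, beta X (4 * k) ≤ D * beta X k := by
  classical
  let instA : CommGroup A :=
    { (inferInstance : Group A) with mul_comm := fun a b => Subtype.ext (hA a a.2 b b.2) }
  have hfinQ : Finite (G ⧸ A) := inferInstance
  have hmem : ∀ g : G, (QuotientGroup.mk g : G ⧸ A).out⁻¹ * g ∈ A := by
    intro g
    rw [← QuotientGroup.eq]
    exact Quotient.out_eq' _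
  let κ : G → A := fun g => ⟨(QuotientGroup.mk g : G ⧸ A).out⁻¹ * g, hmem g⟩
  have hκ : ∀ g : G, g = (QuotientGroup.mk g : G ⧸ A).out * (κ g : G) := by
    intro g; simp [κ]
  -- the finite set of Schreier generators
  have hYfin : (Set.image2 (fun (x : G) (q : G ⧸ A) => κ (x * q.out)) (X ∪ X⁻¹) Set.univ).Finite :=
    (hX.union hX.inv).image2 _ Set.finite_univ
  set Y : Finset A := hYfin.toFinset with hY
  have hYmem : ∀ x : G, (x ∈ X ∨ x⁻¹ ∈ X) → ∀ q : G ⧸ A, κ (x * q.out) ∈ Y := by
    intro x hx q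
    rw [hY, Set.Finite.mem_toFinset]
    exact ⟨x, hx, q, trivial, rfl⟩
  obtain ⟨c0, hc0⟩ := exists_ball_of_finite hgen ((fun a : A => (a : G)) '' (Y : Set A))
    (Y.finite_toSet.image _)
  set c := c0 + 1 with hc
  have hYc : ∀ y ∈ Y, (y : G) ∈ ball X c := fun y hy => ball_mono (by omega) (hc0 ⟨y, hy, rfl⟩)
  let P : ℕ → Set A := fun n => {a | ∃ e : A → ℕ, ∑ y ∈ Y, e y ≤ n ∧ a = ∏ y ∈ Y, y ^ e y}
  have hPball : ∀ n, ∀ a ∈ P n, (a : G) ∈ ball X (c * n) := by
    rintro n a ⟨e, he, rfl⟩
    have key : ∀ s : Finset A, s ⊆ Y → ((∏ y ∈ s, y ^ e y : A) : G) ∈ ball X (c * ∑ y ∈ s, e y) := by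
      intro s
      induction s using Finset.induction_on with
      | empty => intro _; simpa using one_mem_ball (X := X) 0
      | insert y s hy ih =>
        intro hs
        rw [Finset.prod_insert hy, Finset.sum_insert hy, mul_add, Subgroup.coe_mul]
        refine mul_mem_ball ?_ (ih (fun z hz => hs (Finset.mem_insert_of_mem hz)))
        rw [Subgroup.coe_pow]
        exact pow_mem_ball (hYc y (hs (Finset.mem_insert_self y s))) _
    exact ball_mono (Nat.mul_le_mul_left _ he) (key Y (Finset.Subset.refl _))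
  have hPfin : ∀ n, (P n).Finite := by
    intro n
    refine Set.Finite.of_finite_image ((ball_finite hX (c * n)).subset ?_)
      (f := fun a : A => (a : G)) (fun a _ b _ h => Subtype.ext h)
    rintro _ ⟨a, ha, rfl⟩
    exact hPball n a ha
  have hPle : ∀ k, (P (k / c)).ncard ≤ (ball X k).ncard := by
    intro k
    refine Set.ncard_le_ncard_of_injOn (fun a : A => (a : G)) ?_
      (fun a _ b _ h => Subtype.ext h) (ball_finite hX k)
    intro a ha
    exact ball_mono (Nat.mul_div_le k c) (hPball _ a ha)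
  -- covering of the ball
  have hPmul : ∀ n, ∀ a ∈ P n, ∀ y ∈ Y, y * a ∈ P (n + 1) := by
    rintro n a ⟨e, he, rfl⟩ y hy
    refine ⟨fun z => e z + if z = y then 1 else 0, ?_, ?_⟩
    · rw [Finset.sum_add_distrib, Finset.sum_ite_eq' Y y, if_pos hy]
      omega
    · simp only [pow_add]
      rw [Finset.prod_mul_distrib, mul_comm]
      congr 1
      rw [Finset.prod_eq_single y]
      · simp
      · intro z _ hz; simp [hz]
      · intro h; exact absurd hy h
  have hcover : ∀ n, (ball X n).ncard ≤ Nat.card (G ⧸ A) * (P n).ncard := by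
    intro n
    have hsub : ball X n ⊆
        (fun p : (G ⧸ A) × A => p.1.out * ((p.2 * κ 1 : A) : G)) '' (Set.univ ×ˢ P n) := by
      rintro g ⟨l, hl, hx, rfl⟩
      have key : ∀ l : List G, (∀ x ∈ l, x ∈ X ∨ x⁻¹ ∈ X) →
          ∃ q : G ⧸ A, ∃ a ∈ P l.length, l.prod = q.out * ((a * κ 1 : A) : G) := by
        intro l
        induction l with
        | nil =>
          intro _
          refine ⟨QuotientGroup.mk 1, 1, ⟨fun _ => 0, by simp, by simp⟩, ?_⟩
          rw [one_mul]
          simpa using hκ 1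
        | cons x l ih =>
          intro hx
          obtain ⟨q, a, ha, hl⟩ := ih (fun z hz => hx z (List.mem_cons_of_mem _ hz))
          refine ⟨QuotientGroup.mk (x * q.out), κ (x * q.out) * a,
            hPmul _ a ha _ (hYmem x (hx x (by simp)) q), ?_⟩
          rw [List.prod_cons, hl, ← mul_assoc]
          nth_rw 1 [hκ (x * q.out)]
          simp only [Subgroup.coe_mul, mul_assoc]
      obtain ⟨q, a, ⟨e, he, rfl⟩, h⟩ := key l hx
      exact ⟨(q, _), ⟨trivial, e, he.trans hl, rfl⟩, h.symm⟩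
    calc (ball X n).ncard ≤ ((fun p : (G ⧸ A) × A => p.1.out * ((p.2 * κ 1 : A) : G)) ''
          (Set.univ ×ˢ P n)).ncard :=
          Set.ncard_le_ncard hsub ((Set.finite_univ.prod (hPfin n)).image _)
      _ ≤ ((Set.univ : Set (G ⧸ A)) ×ˢ P n).ncard := Set.ncard_image_le (Set.finite_univ.prod (hPfin n))
      _ = Nat.card (G ⧸ A) * (P n).ncard := by rw [Set.ncard_prod, Set.ncard_univ]
  -- doubling in the abelian group
  have hPdiv : ∀ n m : ℕ, 0 < m → (P n).ncard ≤ (P (n / m)).ncard * m ^ Y.card := by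
    intro n m hm
    have : NeZero m := ⟨hm.ne'⟩
    have hsub : P n ⊆ (fun p : A × (Y → Fin m) => p.1 ^ m * ∏ y : Y, (y : A) ^ (p.2 y : ℕ)) ''
        (P (n / m) ×ˢ Set.univ) := by
      rintro a ⟨e, he, rfl⟩
      refine ⟨(∏ y ∈ Y, y ^ (e y / m), fun y => ⟨e y % m, Nat.mod_lt _ hm⟩), ⟨⟨fun y => e y / m,
        ?_, rfl⟩, trivial⟩, ?_⟩
      · rw [Nat.le_div_iff_mul_le hm, Finset.sum_mul]
        exact (Finset.sum_le_sum (fun y _ => Nat.div_mul_le_self (e y) m)).trans he
      · simp only
        rw [← Finset.prod_pow, Finset.prod_coe_sort Y (fun y : A => y ^ (e y % m)),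
          ← Finset.prod_mul_distrib]
        apply Finset.prod_congr rfl
        intro y _
        rw [← pow_mul, ← pow_add, Nat.div_add_mod' (e y) m]
    calc (P n).ncard ≤ ((fun p : A × (Y → Fin m) => p.1 ^ m * ∏ y : Y, (y : A) ^ (p.2 y : ℕ)) ''
        (P (n / m) ×ˢ Set.univ)).ncard :=
          Set.ncard_le_ncard hsub (((hPfin _).prod Set.finite_univ).image _)
      _ ≤ (P (n / m) ×ˢ (Set.univ : Set (Y → Fin m))).ncard :=
          Set.ncard_image_le ((hPfin _).prod Set.finite_univ)
      _ = (P (n / m)).ncard * m ^ Y.card := by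
          rw [Set.ncard_prod, Set.ncard_univ, Nat.card_fun]
          simp
  refine ⟨Nat.card (G ⧸ A) * (4 * c) ^ Y.card, ?_, ?_⟩
  · have : 0 < Nat.card (G ⧸ A) := Nat.card_pos
    have hc0 : 0 < c := by omega
    positivity
  · intro k
    have h1 : (ball X (4 * k)).ncard ≤ Nat.card (G ⧸ A) * ((ball X k).ncard * (4 * c) ^ Y.card) := by
      refine (hcover _).trans (Nat.mul_le_mul_left _ ?_)
      refine (hPdiv (4 * k) (4 * c) (by omega)).trans ?_
      rw [Nat.mul_div_mul_left k c (by norm_num)]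
      exact Nat.mul_le_mul_right _ (hPle k)
    unfold beta
    calc ((ball X (4 * k)).ncard : ℝ)
        ≤ ((Nat.card (G ⧸ A) * ((ball X k).ncard * (4 * c) ^ Y.card) : ℕ) : ℝ) := by exact_mod_cast h1
      _ = _ := by push_cast; ring

/-- In a finitely generated virtually abelian group the ratio of consecutive balls tends to
one. -/
theorem ratio_virt_abelian (hX : X.Finite) (hgen : Subgroup.closure X = ⊤) (A : Subgroup G)
    [A.FiniteIndex] (hA : ∀ a ∈ A, ∀ b ∈ A, a * b = b * a) (M : ℕ) :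
    Tendsto (fun n => beta X (n + M) / beta X n) atTop (𝓝 1) := by
  obtain ⟨D, hD0, hD⟩ := doubling hX hgen A hA
  exact ratio_shift hX (ratio_one hX hD0 hD) M

end Pool.Agent.X262.Ball
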