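import Mathlib
import Pool.Agent.X262.Ball

set_option autoImplicit false

/-!
Densities in balls of virtually abelian groups and the twisted commutativity equation.
-/

namespace Pool.Agent.X262.TDC

open Filter Topology Pool.Agent.X262.Ball

variable {G : Type} [Group G] {X : Set G}

/-- proportion of the pairs in the square of the ball that lie in `T` -/
noncomputable def dens (X : Set G) (T : Set (G × G)) (n : ℕ) : ℝ :=
  ((T ∩ (ball X n ×ˢ ball X n)).ncard : ℝ) / (beta X n) ^ 2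

theorem prod_finite (hX : X.Finite) (n : ℕ) : (ball X n ×ˢ ball X n).Finite :=
  (ball_finite hX n).prod (ball_finite hX n)

theorem dens_mono (hX : X.Finite) {S T : Set (G × G)} (h : S ⊆ T) (n : ℕ) :
    dens X S n ≤ dens X T n := by
  unfold dens
  have hb := beta_pos hX n
  gcongr
  exact (prod_finite hX n).subset Set.inter_subset_right

theorem dens_nonneg (T : Set (G × G)) (n : ℕ) : 0 ≤ dens X T n := by
  unfold dens; positivity

theorem dens_empty (n : ℕ) : dens X (∅ : Set (G × G)) n = 0 := by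
  unfold dens; simp

theorem dens_union_le (hX : X.Finite) (S T : Set (G × G)) (n : ℕ) :
    dens X (S ∪ T) n ≤ dens X S n + dens X T n := by
  unfold dens
  have hb := beta_pos hX n
  rw [← add_div]
  gcongr
  rw [Set.union_inter_distrib_right]
  exact_mod_cast Set.ncard_union_le _ _

theorem dens_biUnion_le (hX : X.Finite) {ι : Type} (s : Finset ι) (T : ι → Set (G × G)) (n : ℕ) :
    dens X (⋃ i ∈ s, T i) n ≤ ∑ i ∈ s, dens X (T i) n := by
  classical
  induction s using Finset.induction_on with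
  | empty => simp [dens_empty]
  | insert i s hi ih =>
    rw [Finset.set_biUnion_insert, Finset.sum_insert hi]
    exact (dens_union_le hX _ _ n).trans (by linarith)

/-- A set with `K` disjoint translates has upper density at most `1/K`. -/
theorem dens_translates (hX : X.Finite) (hgen : Subgroup.closure X = ⊤)
    (hratio : ∀ M : ℕ, Tendsto (fun n => beta X (n + M) / beta X n) atTop (𝓝 1))
    (T : Set (G × G)) (K : ℕ) (hK : 0 < K) (t : Fin K → G × G)
    (ht : ∀ i j, i ≠ j → ∀ p ∈ T, ∀ p' ∈ T, t i * p ≠ t j * p') (ε : ℝ) (hε : 0 < ε) :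
    ∀ᶠ n in atTop, dens X T n ≤ 1 / K + ε := by
  obtain ⟨M1, hM1⟩ := exists_ball_of_finite hgen (Set.range fun i => (t i).1) (Set.finite_range _)
  obtain ⟨M2, hM2⟩ := exists_ball_of_finite hgen (Set.range fun i => (t i).2) (Set.finite_range _)
  set M := M1 + M2 with hM
  have h1 : ∀ i, (t i).1 ∈ ball X M := fun i => ball_mono (by omega) (hM1 ⟨i, rfl⟩)
  have h2 : ∀ i, (t i).2 ∈ ball X M := fun i => ball_mono (by omega) (hM2 ⟨i, rfl⟩)
  have hcount : ∀ n, K * (T ∩ (ball X n ×ˢ ball X n)).ncard ≤ (ball X (n + M) ×ˢ ball X (n + M)).ncard := by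
    intro n
    have e : K * (T ∩ (ball X n ×ˢ ball X n)).ncard =
        ((Set.univ : Set (Fin K)) ×ˢ (T ∩ (ball X n ×ˢ ball X n))).ncard := by
      rw [Set.ncard_prod, Set.ncard_univ, Nat.card_fin]
    rw [e]
    refine Set.ncard_le_ncard_of_injOn (fun p : Fin K × (G × G) => t p.1 * p.2) ?_ ?_
      (prod_finite hX _)
    · rintro ⟨i, p⟩ ⟨-, -, hp1, hp2⟩
      constructor
      · exact ball_mono (by omega) (mul_mem_ball (h1 i) hp1)
      · exact ball_mono (by omega) (mul_mem_ball (h2 i) hp2)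
    · rintro ⟨i, p⟩ ⟨-, hp, -⟩ ⟨j, p'⟩ ⟨-, hp', -⟩ h
      simp only at h hp hp'
      by_cases hij : i = j
      · subst hij
        exact Prod.ext rfl (mul_left_cancel h)
      · exact absurd h (ht i j hij p hp p' hp')
  have hlim : Tendsto (fun n => 1 / (K : ℝ) * (beta X (n + M) / beta X n) ^ 2) atTop
      (𝓝 (1 / (K : ℝ) * 1 ^ 2)) := ((hratio M).pow 2).const_mul _
  rw [one_pow, mul_one] at hlim
  have hev := hlim.eventually (gt_mem_nhds (show 1 / (K : ℝ) < 1 / K + ε by linarith))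
  filter_upwards [hev] with n hn
  refine le_trans ?_ hn.le
  unfold dens
  have hb := beta_pos hX n
  have hK' : (0 : ℝ) < K := by exact_mod_cast hK
  have hc : (K : ℝ) * ((T ∩ (ball X n ×ˢ ball X n)).ncard : ℝ) ≤ (beta X (n + M)) ^ 2 := by
    have := hcount n
    rw [Set.ncard_prod] at this
    unfold beta
    rw [sq]
    exact_mod_cast this
  rw [div_pow, one_div_mul_eq_div, div_div, div_le_div_iff₀ (by positivity) (by positivity)]
  nlinarith [mul_le_mul_of_nonneg_right hc (show (0 : ℝ) ≤ beta X n ^ 2 by positivity)]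

/-- Equidistribution of balls on cosets. -/
theorem equi (hX : X.Finite) (hgen : Subgroup.closure X = ⊤)
    (hratio : ∀ M : ℕ, Tendsto (fun n => beta X (n + M) / beta X n) atTop (𝓝 1))
    (N : Subgroup G) [N.FiniteIndex] (q : G ⧸ N) :
    Tendsto (fun n => ((ball X n ∩ {g | (QuotientGroup.mk g : G ⧸ N) = q}).ncard : ℝ) / beta X n)
      atTop (𝓝 (1 / (Nat.card (G ⧸ N) : ℝ))) := by
  classical
  have hfinQ : Finite (G ⧸ N) := inferInstance
  let _ : Fintype (G ⧸ N) := Fintype.ofFinite _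
  let b : ℕ → G ⧸ N → ℝ := fun n q => ((ball X n ∩ {g | (QuotientGroup.mk g : G ⧸ N) = q}).ncard : ℝ)
  obtain ⟨M, hM⟩ := exists_ball_of_finite hgen
    (Set.image2 (fun q q' : G ⧸ N => q'.out * q.out⁻¹) Set.univ Set.univ)
    (Set.Finite.image2 _ Set.finite_univ Set.finite_univ)
  have hsum : ∀ n, ∑ q, b n q = beta X n := by
    intro n
    have h1 : (ball_finite hX n).toFinset.card = ∑ q : G ⧸ N,
        ((ball_finite hX n).toFinset.filter (fun g => (QuotientGroup.mk g : G ⧸ N) = q)).card :=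
      Finset.card_eq_sum_card_fiberwise (fun _ _ => Finset.mem_univ _)
    have h2 : ∀ q, b n q = (((ball_finite hX n).toFinset.filter
        (fun g => (QuotientGroup.mk g : G ⧸ N) = q)).card : ℝ) := by
      intro q
      simp only [b]
      rw [← Set.ncard_coe_finset]
      congr 2
      ext g
      simp
    unfold beta
    rw [Set.ncard_eq_toFinset_card _ (ball_finite hX n), h1]
    push_cast
    exact Finset.sum_congr rfl (fun q _ => h2 q)
  have hbound : ∀ n q q', b n q ≤ b n q' + (beta X (n + M) - beta X n) := by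
    intro n q q'
    have hfin1 : ∀ m q, (ball X m ∩ {g | (QuotientGroup.mk g : G ⧸ N) = q}).Finite :=
      fun m q => (ball_finite hX m).subset Set.inter_subset_left
    have h1 : (ball X n ∩ {g | (QuotientGroup.mk g : G ⧸ N) = q}).ncard ≤
        (ball X (n + M) ∩ {g | (QuotientGroup.mk g : G ⧸ N) = q'}).ncard := by
      refine Set.ncard_le_ncard_of_injOn (fun g => q'.out * q.out⁻¹ * g) ?_
        (fun _ _ _ _ h => mul_left_cancel h) (hfin1 _ _)
      rintro g ⟨hg, hgq⟩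
      refine ⟨?_, ?_⟩
      · have := mul_mem_ball (hM ⟨q, trivial, q', trivial, rfl⟩) hg
        exact ball_mono (by omega) this
      · simp only [Set.mem_ofPred_eq] at hgq ⊢
        have h3 : (QuotientGroup.mk q.out : G ⧸ N) = QuotientGroup.mk g := by
          rw [hgq]; exact Quotient.out_eq' q
        have h4 : (QuotientGroup.mk q'.out : G ⧸ N) = q' := Quotient.out_eq' q'
        rw [← h4]
        refine QuotientGroup.eq.mpr ?_
        have h5 := QuotientGroup.eq.mp h3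
        have h6 := N.inv_mem h5
        have e : (q'.out * q.out⁻¹ * g)⁻¹ * q'.out = (q.out⁻¹ * g)⁻¹ := by group
        rw [QuotientGroup.out_eq']
        rw [e]; exact h6
    have h2 : (ball X (n + M) ∩ {g | (QuotientGroup.mk g : G ⧸ N) = q'}).ncard ≤
        (ball X n ∩ {g | (QuotientGroup.mk g : G ⧸ N) = q'}).ncard +
          (ball X (n + M) \ ball X n).ncard := by
      refine (Set.ncard_le_ncard ?_ ((hfin1 _ _).union ((ball_finite hX _).sdiff))).trans
        (Set.ncard_union_le _ _)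
      rintro g ⟨hg, hgq⟩
      by_cases h : g ∈ ball X n
      · exact Or.inl ⟨h, hgq⟩
      · exact Or.inr ⟨hg, h⟩
    rw [← beta_diff hX (by omega)]
    simp only [b]
    exact_mod_cast h1.trans h2
  have hc : (0 : ℝ) < Nat.card (G ⧸ N) := by exact_mod_cast Nat.card_pos
  have hcard : (Nat.card (G ⧸ N) : ℝ) = ∑ _q : G ⧸ N, (1 : ℝ) := by
    simp
  have hup : ∀ n, b n q / beta X n ≤
      1 / (Nat.card (G ⧸ N) : ℝ) + (beta X (n + M) / beta X n - 1) := by
    intro n
    have hb := beta_pos hX n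
    have h1 : (Nat.card (G ⧸ N) : ℝ) * b n q ≤ beta X n + (Nat.card (G ⧸ N) : ℝ) *
        (beta X (n + M) - beta X n) := by
      calc (Nat.card (G ⧸ N) : ℝ) * b n q = ∑ _q' : G ⧸ N, b n q := by
            rw [hcard, Finset.sum_mul]; simp
        _ ≤ ∑ q' : G ⧸ N, (b n q' + (beta X (n + M) - beta X n)) :=
            Finset.sum_le_sum (fun q' _ => hbound n q q')
        _ = _ := by
            rw [Finset.sum_add_distrib, hsum, hcard, Finset.sum_mul]; simp
    rw [div_le_iff₀ hb]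
    have e : (1 / (Nat.card (G ⧸ N) : ℝ) + (beta X (n + M) / beta X n - 1)) * beta X n =
        (beta X n + (Nat.card (G ⧸ N) : ℝ) * (beta X (n + M) - beta X n)) / Nat.card (G ⧸ N) := by
      field_simp
    rw [e, le_div_iff₀ hc]
    linarith
  have hlow : ∀ n, 1 / (Nat.card (G ⧸ N) : ℝ) - (beta X (n + M) / beta X n - 1) ≤
      b n q / beta X n := by
    intro n
    have hb := beta_pos hX n
    have h1 : beta X n ≤ (Nat.card (G ⧸ N) : ℝ) * (b n q + (beta X (n + M) - beta X n)) := by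
      calc beta X n = ∑ q', b n q' := (hsum n).symm
        _ ≤ ∑ _q' : G ⧸ N, (b n q + (beta X (n + M) - beta X n)) :=
            Finset.sum_le_sum (fun q' _ => hbound n q' q)
        _ = _ := by
            rw [hcard, Finset.sum_mul]; simp
    rw [le_div_iff₀ hb]
    have e : (1 / (Nat.card (G ⧸ N) : ℝ) - (beta X (n + M) / beta X n - 1)) * beta X n =
        (beta X n - (Nat.card (G ⧸ N) : ℝ) * (beta X (n + M) - beta X n)) / Nat.card (G ⧸ N) := by
      field_simp
    rw [e, div_le_iff₀ hc]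
    linarith
  have hz : Tendsto (fun n => beta X (n + M) / beta X n - 1) atTop (𝓝 0) := by
    simpa using (hratio M).sub_const 1
  have hu := hz.const_add (1 / (Nat.card (G ⧸ N) : ℝ))
  have hl := hz.const_sub (1 / (Nat.card (G ⧸ N) : ℝ))
  rw [add_zero] at hu
  rw [sub_zero] at hl
  exact tendsto_of_tendsto_of_tendsto_of_le_of_le hl hu hlow hup

/-- The density of the preimage of a set of pairs of cosets. -/
theorem dens_preimage (hX : X.Finite) (hgen : Subgroup.closure X = ⊤)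
    (hratio : ∀ M : ℕ, Tendsto (fun n => beta X (n + M) / beta X n) atTop (𝓝 1))
    (N : Subgroup G) [N.FiniteIndex] (U : Set ((G ⧸ N) × (G ⧸ N))) :
    Tendsto (dens X {p | ((QuotientGroup.mk p.1 : G ⧸ N), (QuotientGroup.mk p.2 : G ⧸ N)) ∈ U})
      atTop (𝓝 ((U.ncard : ℝ) / (Nat.card (G ⧸ N) : ℝ) ^ 2)) := by
  classical
  have hfinQ : Finite (G ⧸ N) := inferInstance
  let _ : Fintype (G ⧸ N) := Fintype.ofFinite _
  let b : ℕ → G ⧸ N → ℝ := fun n q => ((ball X n ∩ {g | (QuotientGroup.mk g : G ⧸ N) = q}).ncard : ℝ)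
  have hUf : U.Finite := Set.toFinite U
  have hlim : Tendsto (fun n => ∑ u ∈ hUf.toFinset, (b n u.1 / beta X n) * (b n u.2 / beta X n)) atTop
      (𝓝 (∑ _u ∈ hUf.toFinset, (1 / (Nat.card (G ⧸ N) : ℝ)) * (1 / (Nat.card (G ⧸ N) : ℝ)))) := by
    apply tendsto_finsetSum
    intro u _
    exact (equi hX hgen hratio N u.1).mul (equi hX hgen hratio N u.2)
  have e : (∑ _u ∈ hUf.toFinset, (1 / (Nat.card (G ⧸ N) : ℝ)) * (1 / (Nat.card (G ⧸ N) : ℝ))) =
      (U.ncard : ℝ) / (Nat.card (G ⧸ N) : ℝ) ^ 2 := by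
    rw [Finset.sum_const, Set.ncard_eq_toFinset_card _ hUf, nsmul_eq_mul]
    ring
  rw [e] at hlim
  refine hlim.congr ?_
  intro n
  unfold dens
  have hb := beta_pos hX n
  have hcount : (({p : G × G | ((QuotientGroup.mk p.1 : G ⧸ N), (QuotientGroup.mk p.2 : G ⧸ N)) ∈ U} ∩
      (ball X n ×ˢ ball X n)).ncard : ℝ) = ∑ u ∈ hUf.toFinset, b n u.1 * b n u.2 := by
    set B := (ball_finite hX n).toFinset with hB
    have h1 : (((B ×ˢ B).filter (fun p => ((QuotientGroup.mk p.1 : G ⧸ N),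
        (QuotientGroup.mk p.2 : G ⧸ N)) ∈ U))).card = ∑ u ∈ hUf.toFinset,
        (((B ×ˢ B).filter (fun p => ((QuotientGroup.mk p.1 : G ⧸ N),
        (QuotientGroup.mk p.2 : G ⧸ N)) ∈ U)).filter (fun p => ((QuotientGroup.mk p.1 : G ⧸ N),
        (QuotientGroup.mk p.2 : G ⧸ N)) = u)).card := by
      apply Finset.card_eq_sum_card_fiberwise
      intro p hp
      exact hUf.mem_toFinset.mpr (Finset.mem_filter.mp hp).2
    have h2 : ({p : G × G | ((QuotientGroup.mk p.1 : G ⧸ N), (QuotientGroup.mk p.2 : G ⧸ N)) ∈ U} ∩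
      (ball X n ×ˢ ball X n)).ncard = (((B ×ˢ B).filter (fun p => ((QuotientGroup.mk p.1 : G ⧸ N),
        (QuotientGroup.mk p.2 : G ⧸ N)) ∈ U))).card := by
      rw [← Set.ncard_coe_finset]
      congr 1
      ext p
      simp only [Set.mem_inter_iff, Set.mem_ofPred_eq, Set.mem_prod, Finset.coe_filter,
        Finset.mem_product, hB, Set.Finite.mem_toFinset]
      tauto
    rw [h2, h1]
    push_cast
    apply Finset.sum_congr rfl
    intro u hu
    rw [Set.Finite.mem_toFinset] at hu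
    have h3 : (((B ×ˢ B).filter (fun p => ((QuotientGroup.mk p.1 : G ⧸ N),
        (QuotientGroup.mk p.2 : G ⧸ N)) ∈ U)).filter (fun p => ((QuotientGroup.mk p.1 : G ⧸ N),
        (QuotientGroup.mk p.2 : G ⧸ N)) = u)) = (B.filter (fun g => (QuotientGroup.mk g : G ⧸ N) = u.1)) ×ˢ
        (B.filter (fun g => (QuotientGroup.mk g : G ⧸ N) = u.2)) := by
      ext p
      obtain ⟨u1, u2⟩ := u
      simp only [Finset.mem_filter, Finset.mem_product, Prod.mk.injEq]
      constructor
      · rintro ⟨⟨⟨h1, h2⟩, -⟩, h3, h4⟩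
        exact ⟨⟨h1, h3⟩, h2, h4⟩
      · rintro ⟨⟨h1, h3⟩, h2, h4⟩
        refine ⟨⟨⟨h1, h2⟩, ?_⟩, h3, h4⟩
        rw [h3, h4]; exact hu
    have h4 : ∀ q, b n q = ((B.filter (fun g => (QuotientGroup.mk g : G ⧸ N) = q)).card : ℝ) := by
      intro q
      simp only [b]
      rw [← Set.ncard_coe_finset]
      congr 2
      ext g
      simp [hB]
    rw [h3, Finset.card_product, h4, h4]
    push_cast
    ring
  rw [hcount, Finset.sum_div]
  apply Finset.sum_congr rfl
  intro u _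
  field_simp

section Algebra

variable (φ : G →* G)

/-- the commutator-like element whose vanishing is the twisted commutativity equation -/
def ev (p : G × G) : G := p.1 * p.2 * (p.2 * φ p.1)⁻¹

/-- the correction term -/
def lam (p : G × G) (u v : G) : G := u * (p.1 * v * p.1⁻¹) * (p.2 * φ u⁻¹ * p.2⁻¹) * v⁻¹

variable {φ} {A : Subgroup G} [A.Normal] (hA : ∀ a ∈ A, ∀ b ∈ A, a * b = b * a)
  (hφ : ∀ a ∈ A, φ a ∈ A)

include hφ in
theorem lam_mem (p : G × G) {u v : G} (hu : u ∈ A) (hv : v ∈ A) : lam φ p u v ∈ A := by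
  unfold lam
  have hn : A.Normal := inferInstance
  exact A.mul_mem (A.mul_mem (A.mul_mem hu (hn.conj_mem v hv _))
    (hn.conj_mem _ (hφ _ (A.inv_mem hu)) _)) (A.inv_mem hv)

include hA hφ in
theorem ev_mul (p : G × G) {u v : G} (hu : u ∈ A) (hv : v ∈ A) (hp : ev φ p ∈ A) :
    ev φ (u * p.1, v * p.2) = lam φ p u v * ev φ p := by
  have hn : A.Normal := inferInstance
  have h1 : p.2 * φ u⁻¹ * p.2⁻¹ ∈ A := hn.conj_mem _ (hφ _ (A.inv_mem hu)) _
  have e1 : ev φ (u * p.1, v * p.2) =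
      u * (p.1 * v * p.1⁻¹) * (ev φ p * (p.2 * φ u⁻¹ * p.2⁻¹)) * v⁻¹ := by
    unfold ev
    simp only [map_mul, map_inv]
    group
  rw [e1, hA _ hp _ h1]
  have e2 : u * (p.1 * v * p.1⁻¹) * (p.2 * φ u⁻¹ * p.2⁻¹ * ev φ p) * v⁻¹ =
      u * (p.1 * v * p.1⁻¹) * (p.2 * φ u⁻¹ * p.2⁻¹) * (ev φ p * v⁻¹) := by group
  rw [e2, hA _ hp _ (A.inv_mem hv)]
  unfold lam
  group

include hφ in
theorem ev_mem_iff (p : G × G) {u v : G} (hu : u ∈ A) (hv : v ∈ A)
    (hp : ev φ (u * p.1, v * p.2) ∈ A) : ev φ p ∈ A := by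
  have hn : A.Normal := inferInstance
  have h1 : p.2 * φ u⁻¹ * p.2⁻¹ ∈ A := hn.conj_mem _ (hφ _ (A.inv_mem hu)) _
  have h2 : u * (p.1 * v * p.1⁻¹) ∈ A := A.mul_mem hu (hn.conj_mem _ hv _)
  have e1 : ev φ p = (u * (p.1 * v * p.1⁻¹))⁻¹ * ev φ (u * p.1, v * p.2) * v *
      (p.2 * φ u⁻¹ * p.2⁻¹)⁻¹ := by
    unfold ev
    simp only [map_mul, map_inv]
    group
  rw [e1]
  exact A.mul_mem (A.mul_mem (A.mul_mem (A.inv_mem h2) hp) hv) (A.inv_mem h1)

include hA in
theorem conj_eq {x a v : G} (ha : a ∈ A) (hv : v ∈ A) : (a * x) * v * (a * x)⁻¹ = x * v * x⁻¹ := by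
  have hn : A.Normal := inferInstance
  have h1 : x * v * x⁻¹ ∈ A := hn.conj_mem _ hv _
  have e : (a * x) * v * (a * x)⁻¹ = a * (x * v * x⁻¹) * a⁻¹ := by group
  rw [e, hA _ ha _ h1]
  group

include hA hφ in
theorem lam_eq (p : G × G) {a b u v : G} (ha : a ∈ A) (hb : b ∈ A) (hu : u ∈ A) (hv : v ∈ A) :
    lam φ (a * p.1, b * p.2) u v = lam φ p u v := by
  unfold lam
  simp only
  rw [conj_eq hA ha hv, conj_eq hA hb (hφ _ (A.inv_mem hu))]

include hA hφ in
theorem lam_mul (p : G × G) {u v u' v' : G} (hu : u ∈ A) (hv : v ∈ A) (hu' : u' ∈ A)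
    (hv' : v' ∈ A) : lam φ p (u * u') (v * v') = lam φ p u v * lam φ p u' v' := by
  have hn : A.Normal := inferInstance
  -- work in the commutative group `A`
  let _ : CommGroup A :=
    { (inferInstance : Group A) with mul_comm := fun a b => Subtype.ext (hA a a.2 b b.2) }
  let c1 : A → A := fun v => ⟨p.1 * v * p.1⁻¹, hn.conj_mem _ v.2 _⟩
  let c2 : A → A := fun u => ⟨p.2 * φ (u : G)⁻¹ * p.2⁻¹, hn.conj_mem _ (hφ _ (A.inv_mem u.2)) _⟩
  have h1 : ∀ v w : A, c1 (v * w) = c1 v * c1 w := by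
    intro v w
    apply Subtype.ext
    simp only [c1, Subgroup.coe_mul]
    group
  have h2 : ∀ v w : A, c2 (v * w) = c2 v * c2 w := by
    intro v w
    rw [mul_comm v w]
    apply Subtype.ext
    simp only [c2, Subgroup.coe_mul, mul_inv_rev, map_mul]
    group
  let L : A → A → A := fun u v => u * c1 v * c2 u * v⁻¹
  have hL : ∀ (u v : A), ((L u v : A) : G) = lam φ p u v := fun u v => rfl
  have h3 : L (⟨u, hu⟩ * ⟨u', hu'⟩) (⟨v, hv⟩ * ⟨v', hv'⟩) = L ⟨u, hu⟩ ⟨v, hv⟩ * L ⟨u', hu'⟩ ⟨v', hv'⟩ := by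
    simp only [L]
    rw [h1, h2, mul_inv]
    ac_rfl
  have h4 := congrArg (fun a : A => (a : G)) h3
  exact h4

include hA hφ in
theorem lam_pow (p : G × G) {u v : G} (hu : u ∈ A) (hv : v ∈ A) (i : ℕ) :
    lam φ p (u ^ i) (v ^ i) = lam φ p u v ^ i := by
  induction i with
  | zero => simp [lam]
  | succ i ih =>
    rw [pow_succ, pow_succ, pow_succ, lam_mul hA hφ p (A.pow_mem hu i) (A.pow_mem hv i) hu hv, ih]

/-- the solutions modulo `N` in a given pair of cosets -/
def sol (φ : G →* G) (N A : Subgroup G) (q : (G ⧸ A) × (G ⧸ A)) : Set (G × G) :=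
  {p | ev φ p ∈ N ∧ (QuotientGroup.mk p.1 : G ⧸ A) = q.1 ∧ (QuotientGroup.mk p.2 : G ⧸ A) = q.2}

/-- the equation holds identically on the pair of cosets -/
def Ident (φ : G →* G) (A : Subgroup G) (q : (G ⧸ A) × (G ⧸ A)) : Prop :=
  ∀ x y : G, (QuotientGroup.mk x : G ⧸ A) = q.1 → (QuotientGroup.mk y : G ⧸ A) = q.2 →
    x * y = y * φ x

theorem ev_eq_one {x y : G} : ev φ (x, y) = 1 ↔ x * y = y * φ x := by
  unfold ev
  exact mul_inv_eq_one

theorem exists_left {x y : G} (h : (QuotientGroup.mk x : G ⧸ A) = QuotientGroup.mk y) :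
    ∃ a ∈ A, y = a * x := by
  have hn : A.Normal := inferInstance
  have h1 := QuotientGroup.eq.mp h
  refine ⟨y * x⁻¹, ?_, by group⟩
  have := hn.conj_mem _ h1 x
  have e : x * (x⁻¹ * y) * x⁻¹ = y * x⁻¹ := by group
  rwa [e] at this

include hA hφ in
/-- In a pair of cosets where the equation does not hold identically, the solutions have many
disjoint translates. -/
theorem translates (htf : ∀ a ∈ A, ∀ i : ℕ, 0 < i → a ^ i = 1 → a = 1) (K : ℕ)
    (q : (G ⧸ A) × (G ⧸ A)) (hq : ¬ Ident φ A q) :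
    ∃ Bad : Finset G, (∀ b ∈ Bad, b ∈ A ∧ b ≠ 1) ∧ ∀ N : Subgroup G, N.Normal → N ≤ A →
      (∀ b ∈ Bad, b ∉ N) → sol φ N A q = ∅ ∨ ∃ t : Fin K → G × G, ∀ i j, i ≠ j →
        ∀ p ∈ sol φ N A q, ∀ p' ∈ sol φ N A q, t i * p ≠ t j * p' := by
  classical
  unfold Ident at hq
  push Not at hq
  obtain ⟨x1, y1, hx1, hy1, hne⟩ := hq
  have hpair : ∀ (N : Subgroup G) (p : G × G), p ∈ sol φ N A q → ∃ a ∈ A, ∃ b ∈ A,
      p = (a * x1, b * y1) := by
    rintro N ⟨x, y⟩ ⟨-, hx, hy⟩
    obtain ⟨a, ha, h1⟩ := exists_left (hx1.trans hx.symm)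
    obtain ⟨b, hb, h2⟩ := exists_left (hy1.trans hy.symm)
    exact ⟨a, ha, b, hb, Prod.ext h1 h2⟩
  by_cases hα : ev φ (x1, y1) ∈ A
  · by_cases hβ : ∀ u ∈ A, ∀ v ∈ A, lam φ (x1, y1) u v = 1
    · refine ⟨{ev φ (x1, y1)}, ?_, ?_⟩
      · intro b hb
        rw [Finset.mem_singleton] at hb
        subst hb
        exact ⟨hα, fun h => hne (ev_eq_one.mp h)⟩
      · intro N hN hNA hbad
        left
        ext p
        simp only [Set.mem_empty_iff_false, iff_false]
        intro hp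
        obtain ⟨a, ha, b, hb, rfl⟩ := hpair N p hp
        have h1 := ev_mul hA hφ (x1, y1) ha hb hα
        have h2 := hp.1
        rw [h1, hβ a ha b hb, one_mul] at h2
        exact hbad _ (Finset.mem_singleton_self _) h2
    · push Not at hβ
      obtain ⟨u1, hu1, v1, hv1, hl⟩ := hβ
      set ℓ := lam φ (x1, y1) u1 v1 with hℓ
      have hℓA : ℓ ∈ A := lam_mem hφ _ hu1 hv1
      refine ⟨(Finset.range K).image (fun i => ℓ ^ (i + 1)), ?_, ?_⟩
      · intro b hb
        rw [Finset.mem_image] at hb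
        obtain ⟨i, -, rfl⟩ := hb
        exact ⟨A.pow_mem hℓA _, fun h => hl (htf ℓ hℓA (i + 1) (by omega) h)⟩
      · intro N hN hNA hbad
        right
        refine ⟨fun i => (u1 ^ (i : ℕ), v1 ^ (i : ℕ)), ?_⟩
        have hev : ∀ (i : ℕ) (p : G × G), p ∈ sol φ N A q →
            ev φ ((u1 ^ i, v1 ^ i) * p) = ℓ ^ i * ev φ p := by
          intro i p hp
          have h1 := ev_mul hA hφ p (A.pow_mem hu1 i) (A.pow_mem hv1 i) (hNA hp.1)
          have h2 : lam φ p (u1 ^ i) (v1 ^ i) = ℓ ^ i := by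
            obtain ⟨a, ha, b, hb, rfl⟩ := hpair N p hp
            have h3 := lam_eq hA hφ (x1, y1) ha hb (A.pow_mem hu1 i) (A.pow_mem hv1 i)
            simp only at h3
            rw [h3, lam_pow hA hφ _ hu1 hv1]
          rw [h2] at h1
          exact h1
        have hlt : ∀ i j : Fin K, i < j → ∀ p ∈ sol φ N A q, ∀ p' ∈ sol φ N A q,
            ((u1 ^ (i : ℕ), v1 ^ (i : ℕ)) : G × G) * p ≠ (u1 ^ (j : ℕ), v1 ^ (j : ℕ)) * p' := by
          intro i j hij p hp p' hp' h
          have h1 := congrArg (ev φ) h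
          rw [hev _ _ hp, hev _ _ hp'] at h1
          have h2 : ℓ ^ ((j : ℕ) - (i : ℕ)) = ev φ p * (ev φ p')⁻¹ := by
            have h3 : ℓ ^ (j : ℕ) = ℓ ^ (i : ℕ) * ℓ ^ ((j : ℕ) - (i : ℕ)) := by
              rw [← pow_add]; congr 1
              have : (i : ℕ) < j := hij
              omega
            rw [h3, mul_assoc] at h1
            have h4 := mul_left_cancel h1
            rw [h4]; group
          have hijlt : (i : ℕ) < j := hij
          have h5 : ℓ ^ ((j : ℕ) - (i : ℕ)) ∈ N := by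
            rw [h2]; exact N.mul_mem hp.1 (N.inv_mem hp'.1)
          refine hbad _ ?_ h5
          rw [Finset.mem_image]
          refine ⟨(j : ℕ) - i - 1, ?_, ?_⟩
          · rw [Finset.mem_range]
            have := j.2
            omega
          · congr 1
            omega
        intro i j hij p hp p' hp'
        rcases lt_or_gt_of_ne hij with h | h
        · exact hlt i j h p hp p' hp'
        · exact fun he => hlt j i h p' hp' p hp he.symm
  · refine ⟨∅, by simp, ?_⟩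
    intro N hN hNA _
    left
    ext p
    simp only [Set.mem_empty_iff_false, iff_false]
    intro hp
    obtain ⟨a, ha, b, hb, rfl⟩ := hpair N p hp
    exact hα (ev_mem_iff hφ (x1, y1) ha hb (hNA hp.1))

/-- the candidate value -/
noncomputable def val (φ : G →* G) (A : Subgroup G) : ℝ :=
  (({q | Ident φ A q} : Set ((G ⧸ A) × (G ⧸ A))).ncard : ℝ) / (Nat.card (G ⧸ A) : ℝ) ^ 2

include hA hφ in
theorem upper (hX : X.Finite) (hgen : Subgroup.closure X = ⊤) [A.FiniteIndex]
    (htf : ∀ a ∈ A, ∀ i : ℕ, 0 < i → a ^ i = 1 → a = 1) (δ : ℝ) (hδ : 0 < δ) :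
    ∃ Bad : Finset G, (∀ b ∈ Bad, b ∈ A ∧ b ≠ 1) ∧ ∀ N : Subgroup G, N.Normal → N ≤ A →
      (∀ b ∈ Bad, b ∉ N) → ∀ᶠ n in atTop, dens X {p | ev φ p ∈ N} n ≤ val φ A + δ := by
  classical
  have hratio := ratio_virt_abelian hX hgen A hA
  have hfinQ : Finite (G ⧸ A) := inferInstance
  let _ : Fintype (G ⧸ A) := Fintype.ofFinite _
  set c : ℝ := (Fintype.card ((G ⧸ A) × (G ⧸ A)) : ℝ) with hc
  have hc0 : 0 < c := by
    rw [hc]
    have : 0 < Fintype.card ((G ⧸ A) × (G ⧸ A)) := Fintype.card_pos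
    exact_mod_cast this
  -- choose K with c / K ≤ δ / 4
  obtain ⟨K, hK⟩ := exists_nat_gt (4 * c / δ)
  have hK0 : 0 < K := by
    have : (0 : ℝ) < K := lt_trans (by positivity) hK
    exact_mod_cast this
  have hKc : c * (1 / K) ≤ δ / 4 := by
    have hK' : (0 : ℝ) < K := by exact_mod_cast hK0
    rw [mul_one_div, div_le_iff₀ hK']
    rw [div_lt_iff₀ hδ] at hK
    linarith
  have hbadex : ∀ q : (G ⧸ A) × (G ⧸ A), ∃ Bad : Finset G, (∀ b ∈ Bad, b ∈ A ∧ b ≠ 1) ∧
      (¬ Ident φ A q → ∀ N : Subgroup G, N.Normal → N ≤ A →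
      (∀ b ∈ Bad, b ∉ N) → sol φ N A q = ∅ ∨ ∃ t : Fin K → G × G, ∀ i j, i ≠ j →
        ∀ p ∈ sol φ N A q, ∀ p' ∈ sol φ N A q, t i * p ≠ t j * p') := by
    intro q
    by_cases hq : Ident φ A q
    · exact ⟨∅, by simp, fun h => absurd hq h⟩
    · obtain ⟨B, h1, h2⟩ := translates hA hφ htf K q hq
      exact ⟨B, h1, fun _ => h2⟩
  choose Bad hBad1 hBad2 using hbadex
  refine ⟨Finset.univ.biUnion Bad, ?_, ?_⟩
  · intro b hb
    rw [Finset.mem_biUnion] at hb
    obtain ⟨q, -, hq⟩ := hb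
    exact hBad1 q b hq
  intro N hN hNA hbad
  have hid := dens_preimage hX hgen hratio A {q | Ident φ A q}
  have hid' : ∀ᶠ n in atTop, dens X {p | ((QuotientGroup.mk p.1 : G ⧸ A), (QuotientGroup.mk p.2 : G ⧸ A)) ∈
      {q | Ident φ A q}} n ≤ val φ A + δ / 4 := by
    filter_upwards [hid.eventually (gt_mem_nhds (show val φ A < val φ A + δ / 4 by linarith))]
      with n hn using hn.le
  have hni : ∀ q : (G ⧸ A) × (G ⧸ A), ¬ Ident φ A q → ∀ᶠ n in atTop,
      dens X (sol φ N A q) n ≤ 1 / K + δ / (4 * c) := by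
    intro q hq
    rcases hBad2 q hq N hN hNA (fun b hb => hbad b (Finset.mem_biUnion.mpr ⟨q, Finset.mem_univ _, hb⟩))
      with h | ⟨t, ht⟩
    · rw [h]
      filter_upwards with n
      rw [dens_empty]; positivity
    · exact dens_translates hX hgen hratio _ K hK0 t ht _ (by positivity)
  have hni' : ∀ᶠ n in atTop, ∀ q ∈ Finset.univ.filter (fun q => ¬ Ident φ A q),
      dens X (sol φ N A q) n ≤ 1 / K + δ / (4 * c) := by
    rw [Filter.eventually_all_finset]
    intro q hq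
    exact hni q (Finset.mem_filter.mp hq).2
  filter_upwards [hid', hni'] with n h1 h2
  have hsub : {p | ev φ p ∈ N} ⊆
      {p | ((QuotientGroup.mk p.1 : G ⧸ A), (QuotientGroup.mk p.2 : G ⧸ A)) ∈ {q | Ident φ A q}} ∪
      ⋃ q ∈ Finset.univ.filter (fun q => ¬ Ident φ A q), sol φ N A q := by
    intro p hp
    by_cases hq : Ident φ A ((QuotientGroup.mk p.1 : G ⧸ A), (QuotientGroup.mk p.2 : G ⧸ A))
    · exact Or.inl hq
    · right
      rw [Set.mem_iUnion₂]
      exact ⟨_, Finset.mem_filter.mpr ⟨Finset.mem_univ _, hq⟩, hp, rfl, rfl⟩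
  refine (dens_mono hX hsub n).trans ((dens_union_le hX _ _ n).trans ?_)
  have h3 := dens_biUnion_le hX (Finset.univ.filter (fun q => ¬ Ident φ A q)) (sol φ N A) n
  have h4 : ∑ q ∈ Finset.univ.filter (fun q => ¬ Ident φ A q), dens X (sol φ N A q) n ≤
      c * (1 / K + δ / (4 * c)) := by
    refine (Finset.sum_le_card_nsmul _ _ _ h2).trans ?_
    rw [nsmul_eq_mul]
    apply mul_le_mul_of_nonneg_right _ (by positivity)
    rw [hc]
    exact_mod_cast Finset.card_le_univ _
  have h5 : c * (δ / (4 * c)) = δ / 4 := by field_simp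
  have h6 : c * (1 / K + δ / (4 * c)) ≤ δ / 4 + δ / 4 := by
    rw [mul_add, h5]; linarith
  have h7 : dens X {p | ((QuotientGroup.mk p.1 : G ⧸ A), (QuotientGroup.mk p.2 : G ⧸ A)) ∈
      {q | Ident φ A q}} n ≤ val φ A + δ / 4 := h1
  linarith

theorem lower (hX : X.Finite) (hgen : Subgroup.closure X = ⊤) [A.FiniteIndex]
    (hA : ∀ a ∈ A, ∀ b ∈ A, a * b = b * a) (N : Subgroup G) (δ : ℝ) (hδ : 0 < δ) :
    ∀ᶠ n in atTop, val φ A - δ ≤ dens X {p | ev φ p ∈ N} n := by
  have hratio := ratio_virt_abelian hX hgen A hA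
  have hid := dens_preimage hX hgen hratio A {q | Ident φ A q}
  filter_upwards [hid.eventually (lt_mem_nhds (show val φ A - δ < val φ A by linarith))] with n hn
  refine hn.le.trans (dens_mono hX ?_ n)
  intro p hp
  have h1 : ev φ p = 1 := ev_eq_one.mpr (hp p.1 p.2 rfl rfl)
  change ev φ p ∈ N
  rw [h1]; exact N.one_mem

end Algebra

end Pool.Agent.X262.TDC
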