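import Mathlib
import Pool.Agent.X262.TDC

set_option autoImplicit false

/-!
The degree of twisted commutativity of a virtually abelian group is the infimum over its finite
quotients, and the limit defining it exists.
-/

namespace Pool.Agent.X262.TDC

open Filter Topology Pool.Agent.X262.Ball

section Powers

variable {G : Type} [Group G]

/-- The subgroup of `m`-th powers of an abelian subgroup. -/
def powSub (A : Subgroup G) (hA : ∀ a ∈ A, ∀ b ∈ A, a * b = b * a) (m : ℕ) : Subgroup G where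
  carrier := {g | ∃ a ∈ A, a ^ m = g}
  one_mem' := ⟨1, A.one_mem, by simp⟩
  mul_mem' := by
    rintro _ _ ⟨a, ha, rfl⟩ ⟨b, hb, rfl⟩
    exact ⟨a * b, A.mul_mem ha hb, (show Commute a b from hA a ha b hb).mul_pow m⟩
  inv_mem' := by
    rintro _ ⟨a, ha, rfl⟩
    exact ⟨a⁻¹, A.inv_mem ha, by simp⟩

theorem powSub_le (A : Subgroup G) (hA : ∀ a ∈ A, ∀ b ∈ A, a * b = b * a) (m : ℕ) :
    powSub A hA m ≤ A := by
  rintro _ ⟨a, ha, rfl⟩
  exact A.pow_mem ha m

theorem powSub_normal (A : Subgroup G) [hn : A.Normal] (hA : ∀ a ∈ A, ∀ b ∈ A, a * b = b * a)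
    (m : ℕ) : (powSub A hA m).Normal := by
  constructor
  rintro _ ⟨a, ha, rfl⟩ g
  exact ⟨g * a * g⁻¹, hn.conj_mem a ha g, by rw [conj_pow]⟩

theorem powSub_index [Group.FG G] (A : Subgroup G) [A.FiniteIndex]
    (hA : ∀ a ∈ A, ∀ b ∈ A, a * b = b * a) {m : ℕ} (hm : m ≠ 0) : (powSub A hA m).FiniteIndex := by
  let _ : CommGroup A :=
    { (inferInstance : Group A) with mul_comm := fun a b => Subtype.ext (hA a a.2 b b.2) }
  have hfg : Group.FG A := inferInstance
  have h1 := Subgroup.finiteIndex_range_powMonoidHom_of_fg A hm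
  have h2 : ((powMonoidHom (α := A) m).range.map A.subtype) = powSub A hA m := by
    ext g
    rw [Subgroup.mem_map]
    constructor
    · rintro ⟨_, ⟨a, rfl⟩, rfl⟩
      exact ⟨a, a.2, rfl⟩
    · rintro ⟨a, ha, rfl⟩
      exact ⟨⟨a, ha⟩ ^ m, ⟨⟨a, ha⟩, rfl⟩, rfl⟩
  rw [← h2]
  constructor
  rw [Subgroup.index_map_subtype]
  exact mul_ne_zero h1.index_ne_zero (Subgroup.FiniteIndex.index_ne_zero)

/-- In a finitely generated torsion-free abelian group every finite set without the identity is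
avoided by the `m`-th powers for some `m`. -/
theorem avoid [Group.FG G] (A : Subgroup G) [A.FiniteIndex]
    (hA : ∀ a ∈ A, ∀ b ∈ A, a * b = b * a)
    (htf : ∀ a ∈ A, ∀ i : ℕ, 0 < i → a ^ i = 1 → a = 1) (Bad : Finset G)
    (hBad : ∀ b ∈ Bad, b ∈ A ∧ b ≠ 1) : ∃ m : ℕ, m ≠ 0 ∧ ∀ b ∈ Bad, b ∉ powSub A hA m := by
  classical
  let _ : CommGroup A :=
    { (inferInstance : Group A) with mul_comm := fun a b => Subtype.ext (hA a a.2 b b.2) }
  have hfg : Group.FG A := inferInstance
  have hfg' : AddGroup.FG (Additive A) := inferInstance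
  have hfin : Module.Finite ℤ (Additive A) := Module.Finite.iff_addGroup_fg.mpr hfg'
  have htf' : Module.IsTorsionFree ℤ (Additive A) := by
    rw [Module.isTorsionFree_int_iff_isAddTorsionFree]
    constructor
    intro n hn a b hab
    have h1 : ((Additive.toMul a) ^ n : A) = (Additive.toMul b) ^ n := hab
    have h2 : ((Additive.toMul a) * (Additive.toMul b)⁻¹ : A) ^ n = 1 := by
      rw [mul_pow, inv_pow, h1, mul_inv_cancel]
    have h3 := htf _ ((Additive.toMul a) * (Additive.toMul b)⁻¹ : A).2 n (Nat.pos_of_ne_zero hn)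
      (congrArg (fun a : A => (a : G)) h2)
    have h4 : ((Additive.toMul a) * (Additive.toMul b)⁻¹ : A) = 1 := Subtype.ext h3
    have h5 : Additive.toMul a = Additive.toMul b :=
      (mul_inv_eq_one (a := (Additive.toMul a : A)) (b := (Additive.toMul b : A))).mp h4
    exact Additive.toMul.injective h5
  have hfree : Module.Free ℤ (Additive A) := inferInstance
  let bas := Module.Free.chooseBasis ℤ (Additive A)
  have hex : ∀ b : G, ∃ c : ℕ, b ∈ A → b ≠ 1 → 0 < c ∧ ∀ m, c < m → b ∉ powSub A hA m := by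
    intro b
    by_cases hb : b ∈ A ∧ b ≠ 1
    · obtain ⟨hbA, hb1⟩ := hb
      have h1 : (Additive.ofMul (⟨b, hbA⟩ : A)) ≠ 0 := by
        intro h
        apply hb1
        have : (⟨b, hbA⟩ : A) = 1 := h
        exact congrArg (fun a : A => (a : G)) this
      have h2 : ∃ i, bas.repr (Additive.ofMul (⟨b, hbA⟩ : A)) i ≠ 0 := by
        by_contra hcon
        push Not at hcon
        apply h1
        apply bas.repr.injective
        rw [map_zero]
        ext i
        simpa using hcon i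
      obtain ⟨i, hi⟩ := h2
      refine ⟨(bas.repr (Additive.ofMul (⟨b, hbA⟩ : A)) i).natAbs, fun _ _ => ⟨by omega, ?_⟩⟩
      rintro m hm ⟨a, ha, hab⟩
      have h3 : Additive.ofMul (⟨b, hbA⟩ : A) = m • Additive.ofMul (⟨a, ha⟩ : A) := by
        have : (⟨b, hbA⟩ : A) = (⟨a, ha⟩ : A) ^ m := Subtype.ext hab.symm
        rw [this]; rfl
      rw [h3, map_nsmul] at hi hm
      simp only [Finsupp.smul_apply, nsmul_eq_mul] at hi hm
      rw [Int.natAbs_mul, Int.natAbs_natCast] at hm
      have h4 : (bas.repr (Additive.ofMul (⟨a, ha⟩ : A)) i).natAbs ≠ 0 := by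
        intro h
        rw [Int.natAbs_eq_zero] at h
        rw [h] at hi
        simp at hi
      have h5 : m * 1 ≤ m * (bas.repr (Additive.ofMul (⟨a, ha⟩ : A)) i).natAbs :=
        Nat.mul_le_mul_left _ (Nat.pos_of_ne_zero h4)
      omega
    · exact ⟨0, fun h1 h2 => absurd ⟨h1, h2⟩ hb⟩
  choose c hc using hex
  refine ⟨∑ b ∈ Bad, c b + 1, by omega, ?_⟩
  intro b hb
  obtain ⟨h1, h2⟩ := hBad b hb
  refine (hc b h1 h2).2 _ ?_
  have : c b ≤ ∑ b ∈ Bad, c b := Finset.single_le_sum (f := c) (fun _ _ => Nat.zero_le _) hb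
  omega

/-- The fully invariant torsion-free abelian subgroup. -/
theorem exists_sub [Group.FG G] (B : Subgroup G) [B.FiniteIndex]
    (hB : ∀ a ∈ B, ∀ b ∈ B, a * b = b * a) (φ : G →* G) :
    ∃ A : Subgroup G, A.Normal ∧ A.FiniteIndex ∧ (∀ a ∈ A, ∀ b ∈ A, a * b = b * a) ∧
      (∀ a ∈ A, ∀ i : ℕ, 0 < i → a ^ i = 1 → a = 1) ∧ ∀ a ∈ A, φ a ∈ A := by
  classical
  set C := B.normalCore with hC
  have hCn : C.Normal := inferInstance
  have hCf : C.FiniteIndex := inferInstance
  have hCc : ∀ a ∈ C, ∀ b ∈ C, a * b = b * a := fun a ha b hb =>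
    hB a (B.normalCore_le ha) b (B.normalCore_le hb)
  let _ : CommGroup C :=
    { (inferInstance : Group C) with mul_comm := fun a b => Subtype.ext (hCc a a.2 b b.2) }
  have hfg : Group.FG C := inferInstance
  have hfg' : AddGroup.FG (Additive C) := inferInstance
  have hfin : Module.Finite ℤ (Additive C) := Module.Finite.iff_addGroup_fg.mpr hfg'
  -- exponent of the torsion
  obtain ⟨e, he0, he⟩ : ∃ e : ℕ, e ≠ 0 ∧ ∀ a : C, ∀ i : ℕ, 0 < i → a ^ i = 1 → a ^ e = 1 := by
    have hTf : Module.Finite ℤ (Submodule.torsion ℤ (Additive C)) := inferInstance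
    have hT : Finite (Submodule.torsion ℤ (Additive C)) :=
      Module.finite_of_fg_torsion _ (Submodule.torsion_isTorsion)
    refine ⟨Nat.card (Submodule.torsion ℤ (Additive C)), Nat.card_pos.ne', ?_⟩
    intro a i hi hai
    have h1 : Additive.ofMul a ∈ Submodule.torsion ℤ (Additive C) := by
      rw [Submodule.mem_torsion_iff]
      refine ⟨⟨(i : ℤ), ?_⟩, ?_⟩
      · rw [mem_nonZeroDivisors_iff_ne_zero]; exact_mod_cast hi.ne'
      · change (i : ℤ) • Additive.ofMul a = 0
        rw [natCast_zsmul, ← ofMul_pow, hai]; rfl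
    have h2 : Nat.card (Submodule.torsion ℤ (Additive C)) •
        (⟨Additive.ofMul a, h1⟩ : Submodule.torsion ℤ (Additive C)) = 0 := card_nsmul_eq_zero'
    have h3 := congrArg (fun t : Submodule.torsion ℤ (Additive C) => (t : Additive C)) h2
    exact h3
  set m := C.index * e with hm
  have hm0 : m ≠ 0 := mul_ne_zero hCf.index_ne_zero he0
  have hle : Subgroup.closure (Set.range fun g : G => g ^ m) ≤ powSub C hCc e := by
    rw [Subgroup.closure_le]
    rintro _ ⟨g, rfl⟩
    refine ⟨g ^ C.index, C.pow_index_mem g, ?_⟩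
    rw [← pow_mul]
  have hge : powSub C hCc m ≤ Subgroup.closure (Set.range fun g : G => g ^ m) := by
    rintro _ ⟨a, _, rfl⟩
    exact Subgroup.subset_closure ⟨a, rfl⟩
  refine ⟨Subgroup.closure (Set.range fun g : G => g ^ m), ?_, ?_, ?_, ?_, ?_⟩
  · constructor
    intro x hx g
    induction hx using Subgroup.closure_induction with
    | mem x hx =>
      obtain ⟨y, rfl⟩ := hx
      apply Subgroup.subset_closure
      exact ⟨g * y * g⁻¹, by simp only [conj_pow]⟩
    | one => simp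
    | mul x y _ _ hx hy =>
      have : g * (x * y) * g⁻¹ = (g * x * g⁻¹) * (g * y * g⁻¹) := by group
      rw [this]; exact Subgroup.mul_mem _ hx hy
    | inv x _ hx =>
      have : g * x⁻¹ * g⁻¹ = (g * x * g⁻¹)⁻¹ := by group
      rw [this]; exact Subgroup.inv_mem _ hx
  · have := powSub_index C hCc hm0
    exact Subgroup.finiteIndex_of_le hge
  · intro a ha b hb
    exact hCc a (powSub_le _ _ _ (hle ha)) b (powSub_le _ _ _ (hle hb))
  · intro a ha i hi hai
    obtain ⟨c, hc, rfl⟩ := hle ha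
    rw [← pow_mul] at hai
    have h1 : (⟨c, hc⟩ : C) ^ (e * i) = 1 := Subtype.ext hai
    have h2 := he ⟨c, hc⟩ (e * i) (Nat.mul_pos (Nat.pos_of_ne_zero he0) hi) h1
    exact congrArg (fun t : C => (t : G)) h2
  · intro a ha
    induction ha using Subgroup.closure_induction with
    | mem x hx =>
      obtain ⟨y, rfl⟩ := hx
      apply Subgroup.subset_closure
      exact ⟨φ y, by simp only [map_pow]⟩
    | one => simp
    | mul x y _ _ hx hy => rw [map_mul]; exact Subgroup.mul_mem _ hx hy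
    | inv x _ hx => rw [map_inv]; exact Subgroup.inv_mem _ hx

end Powers

section Main

variable {G : Type} [Group G] {X : Set G}

/-- The degree of twisted commutativity of a finite group. -/
noncomputable def tdcFin {F : Type} [Group F] (ψ : F →* F) : ℝ :=
  (({p | p.1 * p.2 = p.2 * ψ p.1} : Set (F × F)).ncard : ℝ) / (Nat.card F : ℝ) ^ 2

theorem tdcFin_lim (hX : X.Finite) (hgen : Subgroup.closure X = ⊤)
    (hratio : ∀ M : ℕ, Tendsto (fun n => beta X (n + M) / beta X n) atTop (𝓝 1))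
    (φ : G →* G) (N : Subgroup G) [N.Normal] [N.FiniteIndex] (hN : N ≤ N.comap φ) :
    Tendsto (dens X {p | ev φ p ∈ N}) atTop (𝓝 (tdcFin (QuotientGroup.map N N φ hN))) := by
  have h := dens_preimage hX hgen hratio N
    {p | p.1 * p.2 = p.2 * (QuotientGroup.map N N φ hN) p.1}
  have e : {p : G × G | ((QuotientGroup.mk p.1 : G ⧸ N), (QuotientGroup.mk p.2 : G ⧸ N)) ∈
      {p : (G ⧸ N) × (G ⧸ N) | p.1 * p.2 = p.2 * (QuotientGroup.map N N φ hN) p.1}} =
      {p | ev φ p ∈ N} := by
    ext p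
    have h1 : ((QuotientGroup.mk (p.1 * p.2) : G ⧸ N) = QuotientGroup.mk (p.2 * φ p.1)) ↔
        ev φ p ∈ N := by
      rw [eq_comm, ← mul_inv_eq_one, ← QuotientGroup.mk_inv, ← QuotientGroup.mk_mul,
        QuotientGroup.eq_one_iff]
      constructor
      · intro h
        have := N.inv_mem h
        have e2 : (p.2 * φ p.1 * (p.1 * p.2)⁻¹)⁻¹ = ev φ p := by unfold ev; group
        rwa [e2] at this
      · intro h
        have := N.inv_mem h
        have e2 : (ev φ p)⁻¹ = p.2 * φ p.1 * (p.1 * p.2)⁻¹ := by unfold ev; group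
        rwa [e2] at this
    exact h1
  rw [e] at h
  exact h

/-- The density of solutions converges to the infimum over the finite quotients. -/
theorem main (hX : X.Finite) (hgen : Subgroup.closure X = ⊤) (B : Subgroup G) [B.FiniteIndex]
    (hB : ∀ a ∈ B, ∀ b ∈ B, a * b = b * a) (φ : G →* G) :
    ∃ v : ℝ, Tendsto (dens X {p | p.1 * p.2 = p.2 * φ p.1}) atTop (𝓝 v) ∧
      (∀ (N : Subgroup G) [N.Normal] [N.FiniteIndex] (hN : N ≤ N.comap φ),
        v ≤ tdcFin (QuotientGroup.map N N φ hN)) ∧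
      ∀ δ : ℝ, 0 < δ → ∃ (N : Subgroup G) (_ : N.Normal) (_ : N.FiniteIndex)
        (hN : N ≤ N.comap φ), tdcFin (QuotientGroup.map N N φ hN) ≤ v + δ := by
  have hFG : Group.FG G := Group.fg_iff.mpr ⟨X, hgen, hX⟩
  obtain ⟨A, hAn, hAf, hA, htf, hφ⟩ := exists_sub B hB φ
  have hratio := ratio_virt_abelian hX hgen A hA
  have hT0 : {p : G × G | p.1 * p.2 = p.2 * φ p.1} = {p | ev φ p ∈ (⊥ : Subgroup G)} := by
    ext p
    rw [Set.mem_ofPred_eq, Set.mem_ofPred_eq, Subgroup.mem_bot]
    exact ev_eq_one.symm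
  have hlim : Tendsto (dens X {p | p.1 * p.2 = p.2 * φ p.1}) atTop (𝓝 (val φ A)) := by
    rw [hT0]
    rw [Metric.tendsto_atTop]
    intro δ hδ
    obtain ⟨Bad, hB1, hB2⟩ := upper hA hφ hX hgen htf (δ / 2) (by positivity)
    have h1 := hB2 ⊥ inferInstance bot_le (fun b hb h => (hB1 b hb).2 (Subgroup.mem_bot.mp h))
    have h2 := lower (φ := φ) hX hgen hA ⊥ (δ / 2) (by positivity)
    obtain ⟨n0, hn0⟩ := (h1.and h2).exists_forall_of_atTop
    refine ⟨n0, fun n hn => ?_⟩
    obtain ⟨h3, h4⟩ := hn0 n hn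
    rw [Real.dist_eq, abs_lt]
    constructor <;> linarith
  refine ⟨val φ A, hlim, ?_, ?_⟩
  · intro N _ _ hN
    have h1 := tdcFin_lim hX hgen hratio φ N hN
    refine le_of_tendsto_of_tendsto' hlim h1 (fun n => dens_mono hX ?_ n)
    rw [hT0]
    intro p hp
    have : ev φ p = 1 := Subgroup.mem_bot.mp hp
    change ev φ p ∈ N
    rw [this]; exact N.one_mem
  · intro δ hδ
    obtain ⟨Bad, hB1, hB2⟩ := upper hA hφ hX hgen htf δ hδ
    obtain ⟨m, hm, hav⟩ := avoid A hA htf Bad hB1
    have hn := powSub_normal A hA m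
    have hf := powSub_index A hA hm
    have hle : powSub A hA m ≤ (powSub A hA m).comap φ := by
      rintro _ ⟨a, ha, rfl⟩
      exact ⟨φ a, hφ a ha, by simp⟩
    refine ⟨powSub A hA m, hn, hf, hle, ?_⟩
    exact le_of_tendsto (tdcFin_lim hX hgen hratio φ _ hle)
      (hB2 _ hn (powSub_le A hA m) hav)

end Main

end Pool.Agent.X262.TDC
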