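import Mathlib

set_option autoImplicit false

/-!
Conjugacy separability depth of the wreath products `R ≀ ℤ^k`: basic definitions and the
separation argument.
-/

namespace Pool.Agent.X262.Lamp

/-- The restricted wreath product `R ≀ Z` of two abelian groups, written as pairs `(f, a)` with a
finitely supported function `f : Z → R` and `a : Z`. For `Z = ℤ^k` the function `f` is the Laurent
polynomial `∑ f(e) X^e`. -/
@[ext] structure W (R Z : Type) [AddCommGroup R] [AddCommGroup Z] where
  /-- the lamp configuration -/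
  fn : Z →₀ R
  /-- the position -/
  pos : Z

section Basic

variable {R Z : Type} [AddCommGroup R] [AddCommGroup Z]

/-- Translation of a finitely supported function by `a` (multiplication by the monomial `X^a`). -/
noncomputable def shift (a : Z) (f : Z →₀ R) : Z →₀ R := Finsupp.mapDomain (fun x => a + x) f

theorem shift_add_fn (a : Z) (f g : Z →₀ R) : shift a (f + g) = shift a f + shift a g :=
  Finsupp.mapDomain_add

@[simp] theorem shift_zero_fn (a : Z) : shift a (0 : Z →₀ R) = 0 := Finsupp.mapDomain_zero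

theorem shift_shift (a b : Z) (f : Z →₀ R) : shift a (shift b f) = shift (a + b) f := by
  unfold shift
  rw [← Finsupp.mapDomain_comp]
  congr 1
  funext x
  simp [add_assoc]

@[simp] theorem shift_zero (f : Z →₀ R) : shift 0 f = f := by
  unfold shift
  have : (fun x : Z => 0 + x) = id := by funext x; simp
  rw [this, Finsupp.mapDomain_id]

theorem shift_neg_fn (a : Z) (f : Z →₀ R) : shift a (-f) = -shift a f := by
  have h := shift_add_fn a f (-f)
  rw [add_neg_cancel, shift_zero_fn] at h
  exact (neg_eq_of_add_eq_zero_right h.symm).symm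

theorem shift_sub_fn (a : Z) (f g : Z →₀ R) : shift a (f - g) = shift a f - shift a g := by
  rw [sub_eq_add_neg, shift_add_fn, shift_neg_fn, sub_eq_add_neg]

theorem shift_apply (a : Z) (f : Z →₀ R) (x : Z) : shift a f x = f (x - a) := by
  unfold shift
  have h := Finsupp.mapDomain_apply (f := fun x : Z => a + x) (add_right_injective a) f (x - a)
  simpa using h

noncomputable instance : Mul (W R Z) := ⟨fun x y => ⟨x.fn + shift x.pos y.fn, x.pos + y.pos⟩⟩
noncomputable instance : One (W R Z) := ⟨⟨0, 0⟩⟩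
noncomputable instance : Inv (W R Z) := ⟨fun x => ⟨-shift (-x.pos) x.fn, -x.pos⟩⟩

@[simp] theorem mul_fn (x y : W R Z) : (x * y).fn = x.fn + shift x.pos y.fn := rfl
@[simp] theorem mul_pos (x y : W R Z) : (x * y).pos = x.pos + y.pos := rfl
@[simp] theorem one_fn : (1 : W R Z).fn = 0 := rfl
@[simp] theorem one_pos : (1 : W R Z).pos = 0 := rfl
@[simp] theorem inv_fn (x : W R Z) : (x⁻¹).fn = -shift (-x.pos) x.fn := rfl
@[simp] theorem inv_pos (x : W R Z) : (x⁻¹).pos = -x.pos := rfl

/-- The group structure: `(f, a) (g, b) = (f + X^a g, a + b)`. -/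
noncomputable instance : Group (W R Z) :=
  Group.ofLeftAxioms
    (by
      intro x y z
      ext1
      · simp [shift_add_fn, shift_shift, add_assoc]
      · simp [add_assoc])
    (by intro x; ext1 <;> simp)
    (by
      intro x
      ext1
      · simp
      · simp)

end Basic

section Depth

variable {G : Type} [Group G]

/-- `g` is a product of at most `n` elements of `S ∪ S⁻¹`, that is, its word length is at most
`n`. -/
def InBall (S : Set G) (n : ℕ) (g : G) : Prop :=
  ∃ l : List G, l.length ≤ n ∧ (∀ x ∈ l, x ∈ S ∨ x⁻¹ ∈ S) ∧ l.prod = g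

/-- `D(x,y)`: the least index of a normal subgroup `N` of finite index such that the images of `x`
and `y` in `G/N` are not conjugate (`⊤` if there is none). -/
noncomputable def depth (x y : G) : ℕ∞ :=
  ⨅ (N : Subgroup G) (_ : N.Normal) (_ : N.FiniteIndex)
    (_ : ¬ IsConj (QuotientGroup.mk' N x) (QuotientGroup.mk' N y)), (N.index : ℕ∞)

/-- The conjugacy depth function `Conj_G(n)` for the generating set `S`. -/
noncomputable def conjDepth (S : Set G) (n : ℕ) : ℕ∞ :=
  ⨆ (x : G) (y : G) (_ : InBall S n x) (_ : InBall S n y) (_ : ¬ IsConj x y), depth x y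

theorem depth_le {H : Type} [Group H] [Finite H] (π : G →* H) (x y : G)
    (h : ¬ IsConj (π x) (π y)) : depth x y ≤ (Nat.card H : ℕ∞) := by
  have hfin : π.ker.FiniteIndex := inferInstance
  have hc : ¬ IsConj (QuotientGroup.mk' π.ker x) (QuotientGroup.mk' π.ker y) := by
    intro hc
    exact h (MonoidHom.map_isConj (QuotientGroup.kerLift π) hc)
  have h1 : depth x y ≤ (π.ker.index : ℕ∞) :=
    iInf_le_of_le π.ker (iInf_le_of_le inferInstance (iInf_le_of_le hfin (iInf_le_of_le hc le_rfl)))
  refine h1.trans ?_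
  rw [Subgroup.index_ker]
  exact_mod_cast Nat.card_le_card_of_injective (Subtype.val : π.range → H) Subtype.val_injective

end Depth

section Maps

variable {R Z R' Z' : Type} [AddCommGroup R] [AddCommGroup Z] [AddCommGroup R'] [AddCommGroup Z']

/-- push forward of functions -/
noncomputable def push (φ : Z →+ Z') (ψ : R →+ R') (f : Z →₀ R) : Z' →₀ R' :=
  Finsupp.mapRange ψ ψ.map_zero (Finsupp.mapDomain φ f)

theorem push_add (φ : Z →+ Z') (ψ : R →+ R') (f g : Z →₀ R) :
    push φ ψ (f + g) = push φ ψ f + push φ ψ g := by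
  unfold push
  rw [Finsupp.mapDomain_add, Finsupp.mapRange_add (fun x y => ψ.map_add x y)]

theorem mapDomain_shift (φ : Z →+ Z') (a : Z) (f : Z →₀ R) :
    Finsupp.mapDomain φ (shift a f) = shift (φ a) (Finsupp.mapDomain φ f) := by
  unfold shift
  rw [← Finsupp.mapDomain_comp, ← Finsupp.mapDomain_comp]
  congr 1
  funext x
  simp

theorem push_shift (φ : Z →+ Z') (ψ : R →+ R') (a : Z) (f : Z →₀ R) :
    push φ ψ (shift a f) = shift (φ a) (push φ ψ f) := by
  unfold push
  rw [mapDomain_shift]
  ext x
  simp [shift_apply]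

/-- The homomorphism of wreath products. -/
noncomputable def mapW (φ : Z →+ Z') (ψ : R →+ R') : W R Z →* W R' Z' where
  toFun x := ⟨push φ ψ x.fn, φ x.pos⟩
  map_one' := by ext1 <;> simp [push]
  map_mul' x y := by
    ext1
    · simp [push_add, push_shift]
    · simp

theorem finite_W [Finite R'] [Finite Z'] : Finite (W R' Z') ∧
    Nat.card (W R' Z') = Nat.card R' ^ Nat.card Z' * Nat.card Z' := by
  classical
  let e : W R' Z' ≃ (Z' → R') × Z' :=
    { toFun := fun x => (x.fn, x.pos)
      invFun := fun q => ⟨Finsupp.equivFunOnFinite.symm q.1, q.2⟩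
      left_inv := by intro x; ext1 <;> simp
      right_inv := by intro q; simp }
  refine ⟨Finite.of_equiv _ e.symm, ?_⟩
  rw [Nat.card_congr e, Nat.card_prod, Nat.card_fun]

/-- Conjugation in the wreath product. -/
theorem conj_iff (f g : Z →₀ R) (a b : Z) :
    IsConj (⟨f, a⟩ : W R Z) ⟨g, b⟩ ↔ a = b ∧ ∃ (c : Z) (h : Z →₀ R), g = shift c f + (h - shift a h) := by
  rw [isConj_iff]
  constructor
  · rintro ⟨⟨h, c⟩, hc⟩
    have h1 := congrArg W.fn hc
    have h2 := congrArg W.pos hc
    simp at h1 h2
    refine ⟨h2, c, h, ?_⟩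
    rw [← h1, shift_neg_fn, shift_shift]
    have : c + a + -c = a := by abel
    rw [this]
    abel
  · rintro ⟨rfl, c, h, rfl⟩
    refine ⟨⟨h, c⟩, ?_⟩
    ext1
    · simp only [mul_fn, inv_fn, mul_pos, shift_neg_fn, shift_shift]
      have : c + a + -c = a := by abel
      rw [this]
      abel
    · simp

/-- The kernel lemma: a function with zero push forward to `Z/⟨a⟩` is of the form `h - X^a h`. -/
theorem kernel_lemma (a : Z) (f : Z →₀ R)
    (hf : Finsupp.mapDomain (QuotientAddGroup.mk' (AddSubgroup.zmultiples a)) f = 0) :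
    ∃ h : Z →₀ R, f = h - shift a h := by
  classical
  have htel : ∀ (j : ℤ) (x : Z) (u : R), ∃ h : Z →₀ R,
      Finsupp.single x u - Finsupp.single (x + j • a) u = h - shift a h := by
    intro j
    induction j using Int.induction_on with
    | zero => intro x u; exact ⟨0, by simp⟩
    | succ j ih =>
      intro x u
      obtain ⟨h, hh⟩ := ih x u
      refine ⟨h + Finsupp.single (x + (j : ℤ) • a) u, ?_⟩
      rw [shift_add_fn]
      have h1 : shift a (Finsupp.single (x + (j : ℤ) • a) u) =
          Finsupp.single (x + ((j : ℤ) + 1) • a) u := by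
        unfold shift
        rw [Finsupp.mapDomain_single]
        congr 1
        rw [add_smul, one_smul]; abel
      rw [h1]
      have : h + Finsupp.single (x + (j : ℤ) • a) u - (shift a h +
          Finsupp.single (x + ((j : ℤ) + 1) • a) u) = (h - shift a h) +
          (Finsupp.single (x + (j : ℤ) • a) u - Finsupp.single (x + ((j : ℤ) + 1) • a) u) := by abel
      rw [this, ← hh]; abel
    | pred j ih =>
      intro x u
      obtain ⟨h, hh⟩ := ih x u
      refine ⟨h - Finsupp.single (x + (-(j : ℤ) - 1) • a) u, ?_⟩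
      rw [shift_sub_fn]
      have h1 : shift a (Finsupp.single (x + (-(j : ℤ) - 1) • a) u) =
          Finsupp.single (x + (-(j : ℤ)) • a) u := by
        unfold shift
        rw [Finsupp.mapDomain_single]
        congr 1
        rw [sub_smul, one_smul]; abel
      rw [h1]
      have : h - Finsupp.single (x + (-(j : ℤ) - 1) • a) u - (shift a h -
          Finsupp.single (x + (-(j : ℤ)) • a) u) = (h - shift a h) +
          (Finsupp.single (x + (-(j : ℤ)) • a) u - Finsupp.single (x + (-(j : ℤ) - 1) • a) u) := by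
        abel
      rw [this, ← hh]; abel
  set mk := QuotientAddGroup.mk' (AddSubgroup.zmultiples a) with hmk
  let s : Z ⧸ AddSubgroup.zmultiples a → Z := Quotient.out
  have hs : ∀ x : Z, ∃ j : ℤ, s (mk x) = x + j • a := by
    intro x
    have h1 : mk (s (mk x)) = mk x := QuotientAddGroup.out_eq' _
    have h2 : -x + s (mk x) ∈ AddSubgroup.zmultiples a := by
      rw [← QuotientAddGroup.eq]
      exact h1.symm
    obtain ⟨j, hj⟩ := AddSubgroup.mem_zmultiples_iff.mp h2
    exact ⟨j, by rw [hj]; abel⟩
  have key : ∀ f : Z →₀ R, ∃ h : Z →₀ R,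
      f - Finsupp.mapDomain (fun x => s (mk x)) f = h - shift a h := by
    intro f
    induction f using Finsupp.induction_linear with
    | zero => exact ⟨0, by simp⟩
    | add f g hf hg =>
      obtain ⟨h1, e1⟩ := hf
      obtain ⟨h2, e2⟩ := hg
      refine ⟨h1 + h2, ?_⟩
      rw [shift_add_fn, Finsupp.mapDomain_add]
      have : f + g - (Finsupp.mapDomain (fun x => s (mk x)) f +
        Finsupp.mapDomain (fun x => s (mk x)) g) = (f - Finsupp.mapDomain (fun x => s (mk x)) f) +
          (g - Finsupp.mapDomain (fun x => s (mk x)) g) := by abel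
      rw [this, e1, e2]; abel
    | single x u =>
      obtain ⟨j, hj⟩ := hs x
      obtain ⟨h, hh⟩ := htel j x u
      refine ⟨h, ?_⟩
      rw [Finsupp.mapDomain_single, hj, hh]
  obtain ⟨h, hh⟩ := key f
  refine ⟨h, ?_⟩
  rw [← hh]
  have : Finsupp.mapDomain (fun x => s (mk x)) f = Finsupp.mapDomain s (Finsupp.mapDomain mk f) := by
    rw [← Finsupp.mapDomain_comp]; rfl
  rw [this, hf]
  simp

end Maps

section Lattice

variable {k : ℕ}

/-- `x` lies in the box of radius `r`. -/
def Box (r : ℕ) (x : Fin k → ℤ) : Prop := ∀ l, |x l| ≤ r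

theorem box_add {r s : ℕ} {x y : Fin k → ℤ} (hx : Box r x) (hy : Box s y) : Box (r + s) (x + y) := by
  intro l
  have := abs_add_le (x l) (y l)
  have h1 := hx l
  have h2 := hy l
  simp only [Pi.add_apply]
  push_cast
  linarith

theorem box_neg {r : ℕ} {x : Fin k → ℤ} (hx : Box r x) : Box r (-x) := by
  intro l
  simpa using hx l

theorem box_sub {r s : ℕ} {x y : Fin k → ℤ} (hx : Box r x) (hy : Box s y) : Box (r + s) (x - y) := by
  rw [sub_eq_add_neg]; exact box_add hx (box_neg hy)

theorem box_mono {r s : ℕ} (h : r ≤ s) {x : Fin k → ℤ} (hx : Box r x) : Box s x := by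
  intro l
  have := hx l
  have h' : (r : ℤ) ≤ s := by exact_mod_cast h
  linarith

/-- The number of classes of a subgroup is bounded with the help of a map that separates them. -/
theorem card_quot_le {Z T : Type} [AddCommGroup Z] [Finite T] (Λ : AddSubgroup Z) (τ : Z → T)
    (h : ∀ x y, τ x = τ y → x - y ∈ Λ) : Finite (Z ⧸ Λ) ∧ Nat.card (Z ⧸ Λ) ≤ Nat.card T := by
  let σ : Z ⧸ Λ → T := fun q => τ q.out
  have hσ : Function.Injective σ := by
    intro p q hpq
    have h1 := h _ _ hpq
    rw [← QuotientAddGroup.out_eq' p, ← QuotientAddGroup.out_eq' q]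
    refine (QuotientAddGroup.eq.mpr ?_).symm
    have : -q.out + p.out = p.out - q.out := by abel
    rw [this]; exact h1
  exact ⟨Finite.of_injective σ hσ, Nat.card_le_card_of_injective σ hσ⟩

/-- There is a lattice of small index that contains `a` and, in a large box, only multiples of
`a`. -/
theorem exists_lattice (r : ℕ) (a : Fin k → ℤ) (ha : Box r a) :
    ∃ Λ : AddSubgroup (Fin k → ℤ), a ∈ Λ ∧
      (∀ v ∈ Λ, Box (6 * r) v → v ∈ AddSubgroup.zmultiples a) ∧
      Finite ((Fin k → ℤ) ⧸ Λ) ∧ Nat.card ((Fin k → ℤ) ⧸ Λ) ≤ (12 * r + 1) ^ k := by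
  classical
  have hcard : Nat.card (Fin k → ZMod (12 * r + 1)) = (12 * r + 1) ^ k := by
    rw [Nat.card_fun]; simp
  by_cases ha0 : a = 0
  · subst ha0
    let Λ : AddSubgroup (Fin k → ℤ) :=
      { carrier := {v | ∀ l, ((12 * r + 1 : ℕ) : ℤ) ∣ v l}
        zero_mem' := by intro l; simp
        add_mem' := by intro x y hx hy l; exact dvd_add (hx l) (hy l)
        neg_mem' := by intro x hx l; exact (dvd_neg.mpr (hx l)) }
    refine ⟨Λ, Λ.zero_mem, ?_, ?_⟩
    · intro v hv hb
      have : v = 0 := by
        funext l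
        have h1 : ((12 * r + 1 : ℕ) : ℤ) ∣ v l := hv l
        have h2 := hb l
        apply Int.eq_zero_of_abs_lt_dvd h1
        push_cast at h2 ⊢
        linarith
      rw [this]; exact AddSubgroup.zero_mem _
    · rw [← hcard]
      apply card_quot_le Λ (fun v l => ((v l : ℤ) : ZMod (12 * r + 1)))
      intro x y hxy l
      have := congrFun hxy l
      rw [← sub_eq_zero, ← Int.cast_sub, ZMod.intCast_zmod_eq_zero_iff_dvd] at this
      exact this
  · have hne : (Finset.univ : Finset (Fin k)).Nonempty := by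
      by_contra hcon
      rw [Finset.not_nonempty_iff_eq_empty] at hcon
      apply ha0
      funext l
      have := Finset.mem_univ l
      rw [hcon] at this
      simp at this
    obtain ⟨i, -, hi⟩ := Finset.exists_max_image Finset.univ (fun l => |a l|) hne
    have hi' : ∀ l, |a l| ≤ |a i| := fun l => hi l (Finset.mem_univ l)
    have hai : a i ≠ 0 := by
      intro h
      apply ha0
      funext l
      have := hi' l
      rw [h, abs_zero] at this
      exact abs_nonpos_iff.mp this
    let Λ : AddSubgroup (Fin k → ℤ) :=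
      { carrier := {v | ∃ j : ℤ, v i = j * a i ∧ ∀ l, ((12 * r + 1 : ℕ) : ℤ) ∣ v l - j * a l}
        zero_mem' := ⟨0, by simp, by simp⟩
        add_mem' := by
          rintro x y ⟨j, hj, hj'⟩ ⟨j2, hj2, hj2'⟩
          refine ⟨j + j2, by simp [hj, hj2, add_mul], fun l => ?_⟩
          have := dvd_add (hj' l) (hj2' l)
          have e : (x + y) l - (j + j2) * a l = x l - j * a l + (y l - j2 * a l) := by
            simp only [Pi.add_apply]; ring
          rw [e]; exact this
        neg_mem' := by
          rintro x ⟨j, hj, hj'⟩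
          refine ⟨-j, by simp [hj], fun l => ?_⟩
          have := dvd_neg.mpr (hj' l)
          have e : (-x) l - (-j) * a l = -(x l - j * a l) := by
            simp only [Pi.neg_apply]; ring
          rw [e]; exact this }
    refine ⟨Λ, ⟨1, by simp, by simp⟩, ?_, ?_⟩
    · rintro v ⟨j, hj, hj'⟩ hb
      rw [AddSubgroup.mem_zmultiples_iff]
      refine ⟨j, ?_⟩
      funext l
      simp only [Pi.smul_apply, smul_eq_mul]
      have h1 : |j * a l| ≤ 6 * r := by
        have h2 := hb i
        rw [hj, abs_mul] at h2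
        rw [abs_mul]
        have h3 := mul_le_mul_of_nonneg_left (hi' l) (abs_nonneg j)
        push_cast at h2
        linarith
      have h4 := hb l
      have h5 : v l - j * a l = 0 := by
        apply Int.eq_zero_of_abs_lt_dvd (hj' l)
        have h6 := abs_sub (v l) (j * a l)
        push_cast at h4 ⊢
        linarith
      linarith
    · rw [← hcard]
      apply card_quot_le Λ (fun v l => ((v l - (v i / a i) * a l : ℤ) : ZMod (12 * r + 1)))
      intro x y hxy
      have hM : ∀ l, ((12 * r + 1 : ℕ) : ℤ) ∣ (x l - (x i / a i) * a l) - (y l - (y i / a i) * a l) := by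
        intro l
        have := congrFun hxy l
        rw [← sub_eq_zero, ← Int.cast_sub, ZMod.intCast_zmod_eq_zero_iff_dvd] at this
        exact this
      have hmod : ∀ z : ℤ, z - z / a i * a i = z % a i := by
        intro z
        have := Int.emod_add_mul_ediv z (a i)
        linarith
      have h1 := hM i
      rw [hmod, hmod] at h1
      have hr : |a i| ≤ r := ha i
      have hx1 := Int.emod_nonneg (x i) hai
      have hx2 := Int.emod_lt_abs (x i) hai
      have hy1 := Int.emod_nonneg (y i) hai
      have hy2 := Int.emod_lt_abs (y i) hai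
      have h2 : x i % a i - y i % a i = 0 := by
        apply Int.eq_zero_of_abs_lt_dvd h1
        rw [abs_lt]
        push_cast
        constructor <;> linarith
      refine ⟨x i / a i - y i / a i, ?_, ?_⟩
      · simp only [Pi.sub_apply]
        have e1 := hmod (x i)
        have e2 := hmod (y i)
        linarith
      · intro l
        have := hM l
        have e : (x - y) l - (x i / a i - y i / a i) * a l =
            (x l - (x i / a i) * a l) - (y l - (y i / a i) * a l) := by
          simp only [Pi.sub_apply]; ring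
        rw [e]; exact this

end Lattice

section Sep

variable {R : Type} [AddCommGroup R] {k : ℕ}

/-- total size of the coefficients -/
def size (ν : R → ℕ) {Z : Type} (f : Z →₀ R) : ℕ := f.sum (fun _ u => ν u)

theorem val_le {ν : R → ℕ} (h0 : ν 0 = 0) (ha : ∀ u v, ν (u + v) ≤ ν u + ν v) {Z Z' : Type}
    (φ : Z → Z') (f : Z →₀ R) (w : Z') : ν (Finsupp.mapDomain φ f w) ≤ size ν f := by
  classical
  have hsum : ∀ (s : Finset Z) (g : Z → R), ν (∑ x ∈ s, g x) ≤ ∑ x ∈ s, ν (g x) := by
    intro s g
    induction s using Finset.induction_on with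
    | empty => simp [h0]
    | insert x s hx ih =>
      rw [Finset.sum_insert hx, Finset.sum_insert hx]
      exact (ha _ _).trans (by omega)
  unfold size Finsupp.mapDomain Finsupp.sum
  rw [Finsupp.finsetSum_apply]
  refine (hsum _ _).trans (Finset.sum_le_sum ?_)
  intro x _
  rw [Finsupp.single_apply]
  split_ifs
  · exact le_rfl
  · rw [h0]; exact Nat.zero_le _

theorem size_add {ν : R → ℕ} (h0 : ν 0 = 0) (ha : ∀ u v, ν (u + v) ≤ ν u + ν v) {Z : Type}
    (f g : Z →₀ R) : size ν (f + g) ≤ size ν f + size ν g := by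
  classical
  unfold size
  rw [Finsupp.sum_of_support_subset (f + g) Finsupp.support_add _ (fun _ _ => h0),
    Finsupp.sum_of_support_subset f (Finset.subset_union_left (s₂ := g.support)) _ (fun _ _ => h0),
    Finsupp.sum_of_support_subset g (Finset.subset_union_right (s₁ := f.support)) _ (fun _ _ => h0),
    ← Finset.sum_add_distrib]
  exact Finset.sum_le_sum (fun x _ => ha _ _)

theorem size_neg {ν : R → ℕ} (hn : ∀ u, ν (-u) = ν u) {Z : Type}
    (f : Z →₀ R) : size ν (-f) = size ν f := by
  unfold size Finsupp.sum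
  rw [Finsupp.support_neg]
  apply Finset.sum_congr rfl
  intro x _
  simp [hn]

theorem size_shift {ν : R → ℕ} {Z : Type} [AddCommGroup Z] (a : Z)
    (f : Z →₀ R) : size ν (shift a f) = size ν f := by
  unfold size shift
  exact Finsupp.sum_mapDomain_index_inj (add_right_injective a)

/-- the elements of bounded size -/
def Bd (ν : R → ℕ) (K : ℕ) (x : W R (Fin k → ℤ)) : Prop :=
  (∀ v ∈ x.fn.support, Box K v) ∧ Box K x.pos ∧ size ν x.fn ≤ K

theorem support_shift {Z : Type} [AddCommGroup Z] {a v : Z} {f : Z →₀ R}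
    (h : v ∈ (shift a f).support) : v - a ∈ f.support := by
  rw [Finsupp.mem_support_iff, shift_apply] at h
  rwa [Finsupp.mem_support_iff]

theorem bd_mul {ν : R → ℕ} (h0 : ν 0 = 0) (ha : ∀ u v, ν (u + v) ≤ ν u + ν v) {K L : ℕ}
    {x y : W R (Fin k → ℤ)} (hx : Bd ν K x) (hy : Bd ν L y) : Bd ν (K + L) (x * y) := by
  classical
  refine ⟨?_, box_add hx.2.1 hy.2.1, ?_⟩
  · intro v hv
    rw [mul_fn] at hv
    rcases Finset.mem_union.mp (Finsupp.support_add hv) with h | h
    · exact box_mono (Nat.le_add_right _ _) (hx.1 v h)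
    · have h1 := hy.1 _ (support_shift h)
      have h2 := box_add hx.2.1 h1
      rwa [add_sub_cancel] at h2
  · rw [mul_fn]
    refine (size_add h0 ha _ _).trans ?_
    rw [size_shift]
    exact add_le_add hx.2.2 hy.2.2

theorem bd_inv {ν : R → ℕ} (hn : ∀ u, ν (-u) = ν u) {K : ℕ}
    {x : W R (Fin k → ℤ)} (hx : Bd ν K x) : Bd ν (2 * K) x⁻¹ := by
  refine ⟨?_, ?_, ?_⟩
  · intro v hv
    rw [inv_fn, Finsupp.support_neg] at hv
    have h1 := hx.1 _ (support_shift hv)
    have h2 := box_sub h1 hx.2.1
    rw [sub_neg_eq_add, add_sub_cancel_right, ← two_mul] at h2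
    exact h2
  · rw [inv_pos]
    exact box_mono (by omega) (box_neg hx.2.1)
  · rw [inv_fn, size_neg hn, size_shift]
    have := hx.2.2
    omega

theorem bd_mono {ν : R → ℕ} {K L : ℕ} (h : K ≤ L)
    {x : W R (Fin k → ℤ)} (hx : Bd ν K x) : Bd ν L x :=
  ⟨fun v hv => box_mono h (hx.1 v hv), box_mono h hx.2.1, hx.2.2.trans h⟩

theorem exists_bd (ν : R → ℕ) (x : W R (Fin k → ℤ)) : ∃ K, Bd ν K x := by
  classical
  have hbox : ∀ v : Fin k → ℤ, ∃ K, Box K v := by
    intro v
    refine ⟨∑ l, (v l).natAbs, fun l => ?_⟩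
    have : (v l).natAbs ≤ ∑ l, (v l).natAbs :=
      Finset.single_le_sum (f := fun l => (v l).natAbs) (fun _ _ => Nat.zero_le _) (Finset.mem_univ l)
    have h2 : |v l| = ((v l).natAbs : ℤ) := by simp
    rw [h2]; exact_mod_cast this
  choose κ hκ using hbox
  refine ⟨(∑ v ∈ x.fn.support, κ v) + κ x.pos + size ν x.fn, ?_, ?_, ?_⟩
  · intro v hv
    refine box_mono ?_ (hκ v)
    have : κ v ≤ ∑ v ∈ x.fn.support, κ v :=
      Finset.single_le_sum (f := κ) (fun _ _ => Nat.zero_le _) hv
    omega
  · exact box_mono (by omega) (hκ x.pos)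
  · omega

theorem bd_ball (ν : R → ℕ) (h0 : ν 0 = 0) (ha : ∀ u v, ν (u + v) ≤ ν u + ν v)
    (hn : ∀ u, ν (-u) = ν u) (S : Set (W R (Fin k → ℤ))) (hS : S.Finite) :
    ∃ K : ℕ, 0 < K ∧ ∀ (n : ℕ) (x : W R (Fin k → ℤ)), InBall S n x → Bd ν (K * n) x := by
  obtain ⟨K, hK⟩ : ∃ K, ∀ s ∈ S, Bd ν K s := by
    choose κ hκ using (fun x : W R (Fin k → ℤ) => exists_bd ν x)
    refine ⟨∑ s ∈ hS.toFinset, κ s, fun s hs => bd_mono ?_ (hκ s)⟩
    exact Finset.single_le_sum (f := κ) (fun _ _ => Nat.zero_le _) (hS.mem_toFinset.mpr hs)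
  refine ⟨2 * K + 1, by omega, ?_⟩
  have hgen : ∀ x : W R (Fin k → ℤ), (x ∈ S ∨ x⁻¹ ∈ S) → Bd ν (2 * K + 1) x := by
    rintro x (h | h)
    · exact bd_mono (by omega) (hK x h)
    · have := bd_inv hn (hK _ h)
      rw [inv_inv] at this
      exact bd_mono (by omega) this
  have hlist : ∀ l : List (W R (Fin k → ℤ)), (∀ x ∈ l, x ∈ S ∨ x⁻¹ ∈ S) →
      Bd ν ((2 * K + 1) * l.length) l.prod := by
    intro l
    induction l with
    | nil =>
      intro _
      refine ⟨by simp, ?_, ?_⟩
      · intro l; simp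
      · simp [size]
    | cons y l ih =>
      intro h
      rw [List.prod_cons, List.length_cons]
      have := bd_mul h0 ha (hgen y (h y (by simp))) (ih (fun x hx => h x (List.mem_cons_of_mem _ hx)))
      exact bd_mono (by ring_nf; omega) this
  rintro n x ⟨l, hl, hx, rfl⟩
  exact bd_mono (Nat.mul_le_mul_left _ hl) (hlist l hx)

/-- The separation argument. -/
theorem sep (ν : R → ℕ) (h0 : ν 0 = 0) (ha : ∀ u v, ν (u + v) ≤ ν u + ν v)
    (hn : ∀ u, ν (-u) = ν u) (r : ℕ) (x y : W R (Fin k → ℤ)) (hx : Bd ν r x) (hy : Bd ν r y)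
    (hxy : ¬ IsConj x y) {R' : Type} [AddCommGroup R'] [Finite R'] (ψ : R →+ R')
    (hψ : ∀ u : R, ν u ≤ 2 * r → ψ u = 0 → u = 0) :
    depth x y ≤ ((Nat.card R' ^ (12 * r + 1) ^ k * (12 * r + 1) ^ k : ℕ) : ℕ∞) := by
  classical
  obtain ⟨f, a⟩ := x
  obtain ⟨g, b⟩ := y
  -- the general bound for a lattice
  have hbound : ∀ Λ : AddSubgroup (Fin k → ℤ), Finite ((Fin k → ℤ) ⧸ Λ) →
      Nat.card ((Fin k → ℤ) ⧸ Λ) ≤ (12 * r + 1) ^ k →
      ¬ IsConj (mapW (QuotientAddGroup.mk' Λ) ψ ⟨f, a⟩) (mapW (QuotientAddGroup.mk' Λ) ψ ⟨g, b⟩) →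
      depth (⟨f, a⟩ : W R (Fin k → ℤ)) ⟨g, b⟩ ≤
        ((Nat.card R' ^ (12 * r + 1) ^ k * (12 * r + 1) ^ k : ℕ) : ℕ∞) := by
    intro Λ hfin hcard hnc
    obtain ⟨hf, hc⟩ := finite_W (R' := R') (Z' := (Fin k → ℤ) ⧸ Λ)
    refine (depth_le _ _ _ hnc).trans ?_
    rw [hc]
    have hpos : 0 < Nat.card R' := Nat.card_pos
    exact_mod_cast Nat.mul_le_mul (Nat.pow_le_pow_right hpos hcard) hcard
  by_cases hab : a = b
  · subst hab
    obtain ⟨Λ, haΛ, hΛ, hfin, hcard⟩ := exists_lattice r a hx.2.1
    apply hbound Λ hfin hcard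
    intro hconj
    apply hxy
    have hmka : QuotientAddGroup.mk' Λ a = 0 := by
      rw [QuotientAddGroup.mk'_apply, QuotientAddGroup.eq_zero_iff]; exact haΛ
    have h1 : ∃ cb, push (QuotientAddGroup.mk' Λ) ψ g =
        shift cb (push (QuotientAddGroup.mk' Λ) ψ f) := by
      obtain ⟨-, cb, h, hh⟩ := (conj_iff _ _ _ _).mp hconj
      refine ⟨cb, ?_⟩
      rw [hmka, shift_zero, sub_self, add_zero] at hh
      exact hh
    obtain ⟨cb, hcb⟩ := h1
    -- choose a small representative of the translation
    have h2 : ∃ c : Fin k → ℤ, Box (2 * r) c ∧ push (QuotientAddGroup.mk' Λ) ψ g =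
        shift (QuotientAddGroup.mk' Λ c) (push (QuotientAddGroup.mk' Λ) ψ f) := by
      have hsupp : ∀ (f : (Fin k → ℤ) →₀ R) (w : (Fin k → ℤ) ⧸ Λ),
          push (QuotientAddGroup.mk' Λ) ψ f w ≠ 0 → ∃ v ∈ f.support, QuotientAddGroup.mk' Λ v = w := by
        intro f w hw
        have h3 : Finsupp.mapDomain (QuotientAddGroup.mk' Λ) f w ≠ 0 := by
          intro h4
          apply hw
          unfold push
          rw [Finsupp.mapRange_apply, h4, map_zero]
        have h4 := Finsupp.mapDomain_support (Finsupp.mem_support_iff.mpr h3)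
        rw [Finset.mem_image] at h4
        exact h4
      by_cases hf0 : push (QuotientAddGroup.mk' Λ) ψ f = 0
      · refine ⟨0, fun l => by simp, ?_⟩
        rw [hcb, hf0]; simp
      · obtain ⟨w, hw⟩ := Finsupp.ne_iff.mp hf0
        rw [Finsupp.zero_apply] at hw
        obtain ⟨v, hv, hvw⟩ := hsupp f w hw
        have hw2 : push (QuotientAddGroup.mk' Λ) ψ g (cb + w) ≠ 0 := by
          rw [hcb, shift_apply, add_sub_cancel_left]; exact hw
        obtain ⟨u, hu, huw⟩ := hsupp g _ hw2
        refine ⟨u - v, ?_, ?_⟩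
        · rw [two_mul]; exact box_sub (hy.1 u hu) (hx.1 v hv)
        · rw [map_sub, huw, hvw, add_sub_cancel_right]; exact hcb
    obtain ⟨c, hc, hgc⟩ := h2
    -- pass to the quotient by `a`
    set mk := QuotientAddGroup.mk' (AddSubgroup.zmultiples a) with hmk
    have hle : AddSubgroup.zmultiples a ≤ Λ := by
      rw [AddSubgroup.zmultiples_le]; exact haΛ
    let θ : (Fin k → ℤ) ⧸ AddSubgroup.zmultiples a →+ (Fin k → ℤ) ⧸ Λ :=
      QuotientAddGroup.map _ _ (AddMonoidHom.id _) (by simpa using hle)
    have hθ : ∀ v, θ (mk v) = QuotientAddGroup.mk' Λ v := fun v => rfl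
    set D := Finsupp.mapDomain mk (g - shift c f) with hD
    have hDsupp : (D.support : Set _) ⊆ mk '' {v | Box (3 * r) v} := by
      intro w hw
      have h4 := Finsupp.mapDomain_support hw
      rw [Finset.mem_image] at h4
      obtain ⟨v, hv, rfl⟩ := h4
      refine ⟨v, ?_, rfl⟩
      rcases Finset.mem_union.mp (Finsupp.support_sub hv) with h | h
      · exact box_mono (by omega) (hy.1 v h)
      · have h5 := hx.1 _ (support_shift h)
        have h6 := box_add h5 hc
        rw [sub_add_cancel] at h6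
        exact box_mono (by omega) h6
    have hinj : Set.InjOn θ (mk '' {v | Box (3 * r) v}) := by
      rintro _ ⟨u, hu, rfl⟩ _ ⟨v, hv, rfl⟩ huv
      rw [hθ, hθ] at huv
      have h3 : -u + v ∈ Λ := by
        rw [← QuotientAddGroup.eq]; exact huv
      have h4 : Box (6 * r) (-u + v) := by
        have := box_add (box_neg hu) hv
        exact box_mono (by omega) this
      have h5 := hΛ _ h3 h4
      exact QuotientAddGroup.eq.mpr h5
    have hθD : Finsupp.mapRange ψ ψ.map_zero (Finsupp.mapDomain θ D) = 0 := by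
      have h3 : Finsupp.mapDomain θ D = Finsupp.mapDomain (QuotientAddGroup.mk' Λ) (g - shift c f) := by
        rw [hD, ← Finsupp.mapDomain_comp]; rfl
      rw [h3]
      change push (QuotientAddGroup.mk' Λ) ψ (g - shift c f) = 0
      have h4 : g = (g - shift c f) + shift c f := by abel
      have h5 := push_add (QuotientAddGroup.mk' Λ) ψ (g - shift c f) (shift c f)
      rw [← h4, push_shift, ← hgc] at h5
      exact left_eq_add.mp (by rw [add_comm]; exact h5)
    have hD0 : D = 0 := by
      ext w
      by_contra hw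
      rw [Finsupp.zero_apply] at hw
      have hwS := hDsupp (Finsupp.mem_support_iff.mpr hw)
      have h3 := Finsupp.mapDomain_apply' (mk '' {v | Box (3 * r) v}) D hDsupp hinj hwS
      have h4 := DFunLike.congr_fun hθD (θ w)
      rw [Finsupp.mapRange_apply, h3, Finsupp.zero_apply] at h4
      apply hw
      apply hψ _ _ h4
      have h5 := val_le h0 ha mk (g - shift c f) w
      have h6 : size ν (g - shift c f) ≤ size ν g + size ν f := by
        rw [sub_eq_add_neg]
        refine (size_add h0 ha _ _).trans ?_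
        rw [size_neg hn, size_shift]
      have h7 : size ν f ≤ r := hx.2.2
      have h8 : size ν g ≤ r := hy.2.2
      rw [← hD] at h5
      omega
    obtain ⟨h, hh⟩ := kernel_lemma a _ hD0
    rw [conj_iff]
    refine ⟨rfl, c, h, ?_⟩
    rw [← hh]; abel
  · obtain ⟨Λ, -, hΛ, hfin, hcard⟩ := exists_lattice (k := k) r 0 (fun l => by simp)
    apply hbound Λ hfin hcard
    intro hconj
    obtain ⟨h1, -⟩ := (conj_iff _ _ _ _).mp hconj
    have h3 : -a + b ∈ Λ := by
      rw [← QuotientAddGroup.eq]; exact h1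
    have h4 := hΛ _ h3 (box_mono (by omega) (box_add (box_neg hx.2.1) hy.2.1))
    simp at h4
    apply hab
    have : b = a := by
      have := congrArg (fun z => a + z) h4
      simpa using this
    exact this.symm

end Sep

end Pool.Agent.X262.Lamp
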