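import Mathlib
import Pool.Agent.Y879.AP.Law

set_option autoImplicit false

/-!
# The Poisson probabilities depend on the mean in a Lipschitz way
-/

namespace Pool.Agent.X262.Pois

open Finset

/-- the weights of the Poisson distribution -/
noncomputable def po (x : ℝ) (j : ℕ) : ℝ := Real.exp (-x) * x ^ j / j.factorial

lemma po_nonneg (x : ℝ) (hx : 0 ≤ x) (j : ℕ) : 0 ≤ po x j := by unfold po; positivity

lemma po_sum_le (x : ℝ) (hx : 0 ≤ x) (A : Finset ℕ) : ∑ j ∈ A, po x j ≤ 1 :=
  Pool.Agent.Y879.AP.pois_le_one x hx A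

lemma po_deriv (x : ℝ) (j : ℕ) :
    HasDerivAt (fun t => po t j) ((if j = 0 then 0 else po x (j - 1)) - po x j) x := by
  have h1 : HasDerivAt (fun t : ℝ => Real.exp (-t)) (Real.exp (-x) * (-1)) x :=
    (Real.hasDerivAt_exp (-x)).comp x (hasDerivAt_neg x)
  have h2 : HasDerivAt (fun t : ℝ => t ^ j) (j * x ^ (j - 1)) x := hasDerivAt_pow j x
  have h3 := (h1.mul h2).div_const (j.factorial : ℝ)
  have e : (fun t => po t j) = fun t => ((fun t : ℝ => Real.exp (-t)) * fun t : ℝ => t ^ j) t /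
      (j.factorial : ℝ) := by
    ext t
    rfl
  rw [e]
  refine h3.congr_deriv ?_
  unfold po
  rcases Nat.eq_zero_or_pos j with hj | hj
  · subst hj
    simp
  · rw [if_neg (by omega)]
    obtain ⟨i, rfl⟩ : ∃ i, j = i + 1 := ⟨j - 1, by omega⟩
    have hf : ((i + 1).factorial : ℝ) = (i + 1) * i.factorial := by
      rw [Nat.factorial_succ]
      push_cast
      ring
    have h0 : (i.factorial : ℝ) ≠ 0 := by positivity
    have h00 : (i : ℝ) + 1 ≠ 0 := by positivity
    rw [hf, Nat.add_sub_cancel]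
    push_cast
    field_simp
    ring

lemma po_deriv_bound (A : Finset ℕ) (x : ℝ) (hx : 0 ≤ x) :
    ‖∑ j ∈ A, ((if j = 0 then 0 else po x (j - 1)) - po x j)‖ ≤ 1 := by
  rw [Finset.sum_sub_distrib]
  have h1 : ∑ j ∈ A, (if j = 0 then 0 else po x (j - 1)) = ∑ j ∈ (A.erase 0).image Nat.pred, po x j := by
    rw [Finset.sum_image (by
      intro a ha b hb hab
      rw [Finset.mem_coe, Finset.mem_erase] at ha hb
      simp only [Nat.pred_eq_sub_one] at hab
      omega)]
    rw [← Finset.sum_erase A (a := 0) (by simp)]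
    refine Finset.sum_congr rfl fun j hj => ?_
    rw [if_neg (Finset.ne_of_mem_erase hj)]
    rfl
  rw [h1, Real.norm_eq_abs, abs_le]
  have a1 := po_sum_le x hx ((A.erase 0).image Nat.pred)
  have a2 := po_sum_le x hx A
  have a3 : 0 ≤ ∑ j ∈ (A.erase 0).image Nat.pred, po x j := Finset.sum_nonneg fun j _ => po_nonneg x hx j
  have a4 : 0 ≤ ∑ j ∈ A, po x j := Finset.sum_nonneg fun j _ => po_nonneg x hx j
  constructor <;> linarith

/-- the probability of `A` is a Lipschitz function of the mean -/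
lemma po_lip (A : Finset ℕ) (x y : ℝ) (hx : 0 ≤ x) (hy : 0 ≤ y) :
    |∑ j ∈ A, po x j - ∑ j ∈ A, po y j| ≤ |x - y| := by
  have h := Convex.norm_image_sub_le_of_norm_hasDerivWithin_le (f := fun t => ∑ j ∈ A, po t j)
    (f' := fun t => ∑ j ∈ A, ((if j = 0 then 0 else po t (j - 1)) - po t j)) (C := 1) (s := Set.Ici 0)
    (fun t _ => (HasDerivAt.fun_sum fun j _ => po_deriv t j).hasDerivWithinAt)
    (fun t ht => po_deriv_bound A t ht) (convex_Ici 0) hy hx
  simpa using h

end Pool.Agent.X262.Pois
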