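import Pool.Agent.Y879.GL.HerPoly

set_option autoImplicit false

/-!
# The number of sieved integers in all intervals, uniformly in the conditions
-/

namespace Pool.Agent.X262.Cnt

open Polynomial Finset Filter
open Pool.Agent.W123.RP Pool.Agent.H373R2.T7 Pool.Agent.W123.RU Pool.Agent.W123.RU.Poly
open Pool.Agent.TH464.PW Pool.Agent.TH464.PO Pool.Agent.Y879.GL

open Classical in
/-- the fundamental lemma in all intervals -/
theorem count_unif (c : ℕ) (hc : 1 ≤ c) (θ ε : ℝ) (hθ : 0 < θ) (hε : 0 < ε) :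
    ∃ r0 : ℕ, 2 ≤ r0 ∧ ∀ r : ℕ, r0 ≤ r → ∀ᶠ X : ℕ in atTop, ∀ Q : ℕ → ℕ → Prop, PerB Q c →
      (∀ p : ℕ, p.Prime → nuB Q p < p) → ∀ Z Y : ℕ, (X : ℝ) ^ θ ≤ Y →
      |(((Ioc Z (Z + Y)).filter (fun n => Sf Q ⌊(X : ℝ) ^ (1 / (r : ℝ))⌋₊ n)).card : ℝ) -
        Y * Vq Q ⌊(X : ℝ) ^ (1 / (r : ℝ))⌋₊| ≤ ε * (Y * Vq Q ⌊(X : ℝ) ^ (1 / (r : ℝ))⌋₊) := by
  obtain ⟨K0, y0, hK0, hfund⟩ := sys_fund c hc (ε / 2) (by positivity)
  obtain ⟨v, hv, hVlow⟩ := V_lower_unif c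
  obtain ⟨r1, hr1⟩ : ∃ r1 : ℕ, (K0 : ℝ) / θ ≤ r1 := exists_nat_ge _
  refine ⟨max r1 2, le_max_right _ _, ?_⟩
  intro r hr
  have hr2 : 2 ≤ r := (le_max_right _ _).trans hr
  have hrr : (2 : ℝ) ≤ r := by exact_mod_cast hr2
  have hrpos : (0 : ℝ) < r := by linarith
  have hrK : (K0 : ℝ) ≤ θ * r := by
    have h1 : (K0 : ℝ) / θ ≤ r := hr1.trans (by exact_mod_cast (le_max_left _ _).trans hr)
    rw [div_le_iff₀ hθ] at h1
    linarith
  have hpow2 : Tendsto (fun X : ℕ => (X : ℝ) ^ (1 / (r : ℝ))) atTop atTop :=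
    (tendsto_rpow_atTop (by positivity)).comp tendsto_natCast_atTop_atTop
  filter_upwards [level_ok r hr2, hpow2.eventually_ge_atTop (y0 : ℝ),
    logpow_rpow c (2 / (ε * v)) (θ / 2) (by positivity) (by positivity), eventually_ge_atTop 3] with
    X g h1 h2 h3
  obtain ⟨g1, g2, g3, g4, g5⟩ := g
  intro Q hQ hadm Z Y hXY
  have hX3 : (3 : ℝ) ≤ X := by exact_mod_cast h3
  have hX0 : (0 : ℝ) < X := by linarith
  have hX1 : (1 : ℝ) ≤ X := by linarith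
  obtain ⟨y, hy⟩ : ∃ y, y = ⌊(X : ℝ) ^ (1 / (r : ℝ))⌋₊ := ⟨_, rfl⟩
  have hyy0 : y0 ≤ y := by
    rw [hy]
    exact Nat.le_floor h1
  have hyK : y ^ K0 ≤ Y := by
    have h3 : ((y ^ K0 : ℕ) : ℝ) ≤ Y := by
      push_cast
      calc (y : ℝ) ^ K0 ≤ ((X : ℝ) ^ (1 / (r : ℝ))) ^ K0 := by
            apply pow_le_pow_left₀ (Nat.cast_nonneg _)
            rw [hy]
            exact Nat.floor_le (by positivity)
        _ = (X : ℝ) ^ (1 / (r : ℝ) * K0) := by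
            rw [Real.rpow_mul hX0.le, Real.rpow_natCast]
        _ ≤ (X : ℝ) ^ θ := by
            apply Real.rpow_le_rpow_of_exponent_le hX1
            rw [one_div, inv_mul_eq_div, div_le_iff₀ hrpos]
            exact hrK
        _ ≤ Y := hXY
    exact_mod_cast h3
  rw [← hy] at g1 g2 g3 g4 ⊢
  have hly : 0 < Real.log y := by linarith
  have hlX : 0 < Real.log X := by linarith
  have hVlo : v / Real.log X ^ c ≤ Vq Q y := by
    refine le_trans ?_ (hVlow Q hQ hadm y (by omega))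
    apply div_le_div_of_nonneg_left hv.le (by positivity)
    exact pow_le_pow_left₀ hly.le g3 c
  have hV0 : 0 < Vq Q y := lt_of_lt_of_le (by positivity) hVlo
  have hf := hfund Y y hyy0 hyK (Qt Q Z) (perB_Qt Q c hQ Z) Y
  have hVt : ∏ p ∈ pz y, (1 - (nuB (Qt Q Z) p : ℝ) / p) = Vq Q y := by
    rw [← Vq_Qt Q c hQ Z y]
    rfl
  rw [hVt] at hf
  have hcard : ((Icc 1 Y).filter (fun n : ℕ => ∀ p ∈ pz y, ¬ Qt Q Z p n)).card =
      ((Ioc Z (Z + Y)).filter (fun n => Sf Q y n)).card := by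
    apply Finset.card_bij (fun n _ => n + Z)
    · intro n hn
      rw [mem_filter, mem_Icc] at hn
      rw [mem_filter, mem_Ioc]
      exact ⟨by omega, hn.2⟩
    · intro a _ b _ hab
      omega
    · intro n hn
      rw [mem_filter, mem_Ioc] at hn
      refine ⟨n - Z, ?_, by omega⟩
      rw [mem_filter, mem_Icc]
      refine ⟨by omega, fun p hp => ?_⟩
      unfold Qt
      rw [show n - Z + Z = n by omega]
      exact hn.2 p hp
  rw [hcard] at hf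
  refine hf.trans ?_
  have hY0 : (0 : ℝ) < Y := lt_of_lt_of_le (by positivity) hXY
  have hsq : (X : ℝ) ^ (θ / 2) ≤ √(Y : ℝ) := by
    apply Real.le_sqrt_of_sq_le
    rw [← Real.rpow_natCast, ← Real.rpow_mul hX0.le]
    refine le_trans (le_of_eq ?_) hXY
    congr 1
    push_cast
    ring
  have hs0 : 0 < √(Y : ℝ) := Real.sqrt_pos.2 hY0
  have hss : √(Y : ℝ) * √(Y : ℝ) = Y := Real.mul_self_sqrt hY0.le
  have h4 : 1 ≤ ε / 2 * (√(Y : ℝ) * Vq Q y) := by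
    have h5 : 2 / (ε * v) * Real.log X ^ c ≤ √(Y : ℝ) := h2.trans hsq
    have h6 : v / Real.log X ^ c * √(Y : ℝ) ≤ Vq Q y * √(Y : ℝ) :=
      mul_le_mul_of_nonneg_right hVlo hs0.le
    have h7 : 2 / ε ≤ v / Real.log X ^ c * √(Y : ℝ) := by
      rw [div_mul_eq_mul_div, le_div_iff₀ (by positivity)]
      calc 2 / ε * Real.log X ^ c = v * (2 / (ε * v) * Real.log X ^ c) := by field_simp
        _ ≤ v * √(Y : ℝ) := mul_le_mul_of_nonneg_left h5 hv.le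
    calc (1 : ℝ) = ε / 2 * (2 / ε) := by field_simp
      _ ≤ ε / 2 * (√(Y : ℝ) * Vq Q y) := by
          apply mul_le_mul_of_nonneg_left _ (by positivity)
          linarith
  have h5 : √(Y : ℝ) ≤ ε / 2 * (Y * Vq Q y) := by
    calc √(Y : ℝ) = √(Y : ℝ) * 1 := (mul_one _).symm
      _ ≤ √(Y : ℝ) * (ε / 2 * (√(Y : ℝ) * Vq Q y)) := mul_le_mul_of_nonneg_left h4 hs0.le
      _ = ε / 2 * ((√(Y : ℝ) * √(Y : ℝ)) * Vq Q y) := by ring
      _ = _ := by rw [hss]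
  linarith

end Pool.Agent.X262.Cnt
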