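import Mathlib
import Pool.Agent.Helper189.FreeRep
import Pool.Agent.Helper867.Residual

set_option autoImplicit false

/-!
Associative words in free groups: if `w(w(x,y),z) = w(x,w(y,z))` in the free group on `x,y,z` and
both exponent sums of `w` are one, then `w = ab` or `w = ba`.
-/

namespace Pool.Agent.X262.AssocWord

open FreeGroup hiding map_mul map_inv map_one IsReduced

section Count

variable {α : Type} [DecidableEq α]

/-- number of letters with generator `i` in the reduced word of `g` -/
def cnt (i : α) (g : FreeGroup α) : ℕ := g.toWord.countP (fun p => p.1 = i)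

theorem cnt_mul_le (i : α) (g h : FreeGroup α) : cnt i (g * h) ≤ cnt i g + cnt i h := by
  unfold cnt
  rw [← List.countP_append]
  exact (toWord_mul_sublist g h).countP_le

theorem countP_invRev (i : α) (L : List (α × Bool)) :
    (invRev L).countP (fun p => p.1 = i) = L.countP (fun p => p.1 = i) := by
  unfold invRev
  rw [List.countP_reverse, List.countP_map]
  rfl

theorem cnt_inv (i : α) (g : FreeGroup α) : cnt i g⁻¹ = cnt i g := by
  unfold cnt
  rw [toWord_inv, countP_invRev]

@[simp] theorem cnt_one (i : α) : cnt i (1 : FreeGroup α) = 0 := by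
  simp [cnt]

theorem cnt_of (i j : α) : cnt i (of j) = if j = i then 1 else 0 := by
  unfold cnt
  rw [toWord_of]
  by_cases h : j = i <;> simp [h]

theorem cnt_zpow_natAbs (i : α) (g : FreeGroup α) (m : ℤ) : cnt i (g ^ m) = cnt i (g ^ m.natAbs) := by
  obtain ⟨n, rfl | rfl⟩ := m.eq_nat_or_neg
  · simp
  · simp [cnt_inv]

theorem cnt_of_zpow (i j : α) (m : ℤ) : cnt i (of j ^ m) = if j = i then m.natAbs else 0 := by
  rw [cnt_zpow_natAbs]
  unfold cnt
  rw [toWord_of_pow, List.countP_replicate]
  by_cases h : j = i <;> simp [h]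

theorem cnt_lift_le {β : Type} [DecidableEq β] (f : β → FreeGroup α) (i : α) (b : β)
    (hb : ∀ c, c ≠ b → cnt i (f c) = 0) (h1 : cnt i (f b) ≤ 1) (w : FreeGroup β) :
    cnt i (lift f w) ≤ cnt b w := by
  have key : ∀ L : List (β × Bool), cnt i (lift f (mk L)) ≤ L.countP (fun p => p.1 = b) := by
    intro L
    induction L with
    | nil => simp [← one_eq_mk]
    | cons p L ih =>
      obtain ⟨c, e⟩ := p
      have h2 : mk ((c, e) :: L) = mk [(c, e)] * mk L := by rw [mul_mk]; rfl
      rw [h2, map_mul]
      refine (cnt_mul_le _ _ _).trans ?_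
      have h3 : cnt i (lift f (mk [(c, e)])) ≤ if c = b then 1 else 0 := by
        have h4 : cnt i (lift f (mk [(c, e)])) = cnt i (f c) := by
          cases e
          · simp [cnt_inv]
          · simp
        rw [h4]
        by_cases hc : c = b
        · subst hc; simpa using h1
        · simp [hc, hb c hc]
      rw [List.countP_cons]
      simp only [decide_eq_true_eq]
      omega
  have := key w.toWord
  rwa [mk_toWord] at this

/-- exponent sum -/
def esum (i : α) : FreeGroup α →* Multiplicative ℤ :=
  lift (fun j => Multiplicative.ofAdd (if j = i then 1 else 0))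

@[simp] theorem esum_of (i j : α) : esum i (of j) = Multiplicative.ofAdd (if j = i then 1 else 0) := by
  simp [esum]

theorem esum_mk_le (i : α) (L : List (α × Bool)) :
    |Multiplicative.toAdd (esum i (mk L))| ≤ L.countP (fun p => p.1 = i) := by
  induction L with
  | nil => simp [← one_eq_mk]
  | cons p L ih =>
    obtain ⟨c, e⟩ := p
    have h2 : mk ((c, e) :: L) = mk [(c, e)] * mk L := by rw [mul_mk]; rfl
    rw [h2, map_mul, toAdd_mul]
    refine (abs_add_le _ _).trans ?_
    rw [List.countP_cons]
    simp only [decide_eq_true_eq]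
    have h3 : |Multiplicative.toAdd (esum i (mk [(c, e)]))| = if c = i then 1 else 0 := by
      unfold esum
      cases e
      · by_cases hc : c = i <;> simp [hc]
      · by_cases hc : c = i <;> simp [hc]
    rw [h3]
    push_cast
    by_cases hc : c = i
    · simp [hc]; omega
    · simp [hc]; omega

theorem esum_le_cnt (i : α) (g : FreeGroup α) :
    |Multiplicative.toAdd (esum i g)| ≤ cnt i g := by
  have := esum_mk_le i g.toWord
  rwa [mk_toWord] at this

open FreeGroup.reduceCyclically in
theorem cnt_pow (z : α) (g : FreeGroup α) (hg : Multiplicative.toAdd (esum z g) = 1) (n : ℕ)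
    (hn : n ≠ 0) (h : cnt z (g ^ n) ≤ n) : cnt z g ≤ 1 := by
  set C := conjugator g.toWord with hC
  set R := reduceCyclically g.toWord with hR
  have hgw : C ++ R ++ invRev C = g.toWord := conj_conjugator_reduceCyclically g.toWord
  have h1 : (g ^ n).toWord = C ++ (List.replicate n R).flatten ++ invRev C := by
    rw [toWord_pow, reduce_flatten_replicate isReduced_toWord, if_neg hn]
  have h2 : cnt z (g ^ n) = C.countP (fun p => p.1 = z) + n * R.countP (fun p => p.1 = z) +
      C.countP (fun p => p.1 = z) := by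
    unfold cnt
    rw [h1, List.countP_append, List.countP_append, countP_invRev, List.countP_flatten]
    simp
  have h3 : cnt z g = C.countP (fun p => p.1 = z) + R.countP (fun p => p.1 = z) +
      C.countP (fun p => p.1 = z) := by
    unfold cnt
    rw [← hgw, List.countP_append, List.countP_append, countP_invRev]
  have h4 : esum z g = esum z (mk R) := by
    have : g = mk C * mk R * (mk C)⁻¹ := by
      rw [inv_mk, mul_mk, mul_mk, hgw, mk_toWord]
    rw [this, map_mul, map_mul, map_inv, mul_comm (esum z (mk C)), mul_inv_cancel_right]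
  have h5 := esum_mk_le z R
  rw [← h4, hg] at h5
  have h6 : 1 ≤ R.countP (fun p => p.1 = z) := by
    have : (1 : ℤ) ≤ R.countP (fun p => p.1 = z) := by simpa using h5
    exact_mod_cast this
  rw [h2] at h
  rw [h3]
  generalize C.countP (fun p => p.1 = z) = c at *
  generalize R.countP (fun p => p.1 = z) = r at *
  have h7 : n * 1 ≤ n * r := Nat.mul_le_mul_left n h6
  have hc : c = 0 := by omega
  have h8 : n * r ≤ n * 1 := by omega
  have h9 : r ≤ 1 := Nat.le_of_mul_le_mul_left h8 (Nat.pos_of_ne_zero hn)
  omega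

end Count

section Syl

variable {α : Type} [DecidableEq α]

theorem supp_pow (S : α → Prop) (g : FreeGroup α) (hg : ∀ p ∈ g.toWord, S p.1) (n : ℕ) :
    ∀ p ∈ (g ^ n).toWord, S p.1 := by
  induction n with
  | zero => simp
  | succ n ih =>
    intro p hp
    rw [pow_succ] at hp
    have := (toWord_mul_sublist _ _).subset hp
    rcases List.mem_append.mp this with h | h
    · exact ih p h
    · exact hg p h

theorem supp_inv (S : α → Prop) (g : FreeGroup α) (hg : ∀ p ∈ g.toWord, S p.1) :
    ∀ p ∈ (g⁻¹).toWord, S p.1 := by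
  intro p hp
  rw [toWord_inv] at hp
  unfold invRev at hp
  rw [List.mem_reverse, List.mem_map] at hp
  obtain ⟨q, hq, rfl⟩ := hp
  exact hg q hq

theorem supp_zpow (S : α → Prop) (g : FreeGroup α) (hg : ∀ p ∈ g.toWord, S p.1) (n : ℤ) :
    ∀ p ∈ (g ^ n).toWord, S p.1 := by
  obtain ⟨m, rfl | rfl⟩ := n.eq_nat_or_neg
  · rw [zpow_natCast]; exact supp_pow S g hg m
  · rw [zpow_neg, zpow_natCast]; exact supp_inv S _ (supp_pow S g hg m)

theorem zpow_ne_one (g : FreeGroup α) (hg : g ≠ 1) (n : ℤ) (hn : n ≠ 0) : g ^ n ≠ 1 := by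
  have hnat : ∀ m : ℕ, m ≠ 0 → g ^ m ≠ 1 := by
    intro m hm h
    apply hg
    apply IsMulTorsionFree.pow_left_injective hm
    simpa using h
  obtain ⟨m, rfl | rfl⟩ := n.eq_nat_or_neg
  · rw [zpow_natCast]; exact hnat m (by rintro rfl; simp at hn)
  · rw [zpow_neg, zpow_natCast, ne_eq, inv_eq_one]; exact hnat m (by rintro rfl; simp at hn)

theorem toWord_syl {ι : Type} (f : ι → FreeGroup α) (S : ι → α → Prop)
    (hdisj : ∀ i j a, i ≠ j → S i a → ¬ S j a) (hS : ∀ i, ∀ p ∈ (f i).toWord, S i p.1)
    (hne : ∀ i, f i ≠ 1) (L : List (ι × ℤ)) (h0 : ∀ p ∈ L, p.2 ≠ 0)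
    (hc : L.IsChain (fun p q => p.1 ≠ q.1)) :
    (L.map (fun p => f p.1 ^ p.2)).prod.toWord =
      (L.map (fun p => (f p.1 ^ p.2).toWord)).flatten ∧
    ∀ x ∈ (L.map (fun p => f p.1 ^ p.2)).prod.toWord.head?, ∃ q ∈ L.head?, S q.1 x.1 := by
  induction L with
  | nil => simp
  | cons q L ih =>
    obtain ⟨i, m⟩ := q
    obtain ⟨ih1, ih2⟩ := ih (fun p hp => h0 p (List.mem_cons_of_mem _ hp)) hc.tail
    set h := (L.map (fun p => f p.1 ^ p.2)).prod with hh
    have hred : FreeGroup.IsReduced ((f i ^ m).toWord ++ h.toWord) := by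
      unfold FreeGroup.IsReduced
      rw [List.isChain_append]
      refine ⟨isReduced_toWord, isReduced_toWord, ?_⟩
      intro x hx y hy hxy
      exfalso
      obtain ⟨q, hq, hqy⟩ := ih2 y hy
      have hxS : S i x.1 := supp_zpow (S i) (f i) (hS i) m x (List.mem_of_mem_getLast? hx)
      have hiq : i ≠ q.1 := by
        rcases L with _ | ⟨q', L'⟩
        · simp at hq
        · simp at hq
          subst hq
          rw [List.isChain_cons_cons] at hc
          exact hc.1
      exact hdisj i q.1 x.1 hiq hxS (hxy ▸ hqy)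
    have hw : (f i ^ m * h).toWord = (f i ^ m).toWord ++ h.toWord := by
      rw [toWord_mul, hred.reduce_eq]
    have hm : (f i ^ m) ≠ 1 := zpow_ne_one _ (hne i) m (h0 (i, m) (by simp))
    refine ⟨?_, ?_⟩
    · simp only [List.map_cons, List.prod_cons, List.flatten_cons]
      rw [← hh, hw, ih1]
    · simp only [List.map_cons, List.prod_cons]
      rw [← hh, hw]
      intro x hx
      refine ⟨(i, m), by simp, ?_⟩
      have hnil : (f i ^ m).toWord ≠ [] := by
        rw [ne_eq, toWord_eq_nil_iff]; exact hm
      obtain ⟨a, t, hat⟩ := List.exists_cons_of_ne_nil hnil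
      rw [hat] at hx
      simp at hx
      subst hx
      exact supp_zpow (S i) (f i) (hS i) m _ (by rw [hat]; simp)

theorem cnt_syl {ι : Type} (f : ι → FreeGroup α) (S : ι → α → Prop)
    (hdisj : ∀ i j a, i ≠ j → S i a → ¬ S j a) (hS : ∀ i, ∀ p ∈ (f i).toWord, S i p.1)
    (hne : ∀ i, f i ≠ 1) (L : List (ι × ℤ)) (h0 : ∀ p ∈ L, p.2 ≠ 0)
    (hc : L.IsChain (fun p q => p.1 ≠ q.1)) (z : α) :
    cnt z (L.map (fun p => f p.1 ^ p.2)).prod = (L.map (fun p => cnt z (f p.1 ^ p.2))).sum := by
  unfold cnt
  rw [(toWord_syl f S hdisj hS hne L h0 hc).1, List.countP_flatten, List.map_map]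
  rfl

theorem lift_syl {ι : Type} (f : ι → FreeGroup α) (L : List (ι × ℤ)) :
    lift f (L.map (fun p => (FreeGroup.of p.1) ^ p.2)).prod = (L.map (fun p => f p.1 ^ p.2)).prod := by
  rw [map_list_prod, List.map_map]
  congr 1
  apply List.map_congr_left
  intro p _
  simp

theorem cnt_of_syl {ι : Type} [DecidableEq ι] (φ : ι → α) (hφ : Function.Injective φ)
    (L : List (ι × ℤ)) (h0 : ∀ p ∈ L, p.2 ≠ 0)
    (hc : L.IsChain (fun p q => p.1 ≠ q.1)) (b : ι) :
    cnt (φ b) (L.map (fun p => (of (φ p.1)) ^ p.2)).prod =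
      (L.map (fun p => if p.1 = b then p.2.natAbs else 0)).sum := by
  rw [cnt_syl (fun i => of (φ i)) (fun i a => a = φ i) ?_ ?_ ?_ L h0 hc]
  · congr 1
    apply List.map_congr_left
    intro p _
    rw [cnt_of_zpow]
    simp [hφ.eq_iff]
  · rintro i j a hij rfl h
    exact hij (hφ h)
  · intro i p hp
    rw [toWord_of] at hp
    simp at hp
    rw [hp]
  · intro i; exact of_ne_one _

theorem cnt_map {ι : Type} [DecidableEq ι] (φ : ι → α) (hφ : Function.Injective φ) (b : ι)
    (w : FreeGroup ι) : cnt (φ b) (lift (fun i => of (φ i)) w) = cnt b w := by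
  obtain ⟨L, h0, hc, rfl⟩ := Pool.Agent.Helper867.Residual.exists_syllables w
  rw [lift_syl, cnt_of_syl φ hφ L h0 hc]
  exact (cnt_of_syl id Function.injective_id L h0 hc b).symm

theorem main_count {ι : Type} [DecidableEq ι] (f : ι → FreeGroup α) (S : ι → α → Prop)
    (hdisj : ∀ i j a, i ≠ j → S i a → ¬ S j a) (hS : ∀ i, ∀ p ∈ (f i).toWord, S i p.1)
    (hne : ∀ i, f i ≠ 1) (b : ι) (z : α) (hz : Multiplicative.toAdd (esum z (f b)) = 1)
    (w : FreeGroup ι) (hw : cnt z (lift f w) ≤ cnt b w) (hb : cnt b w ≠ 0) :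
    cnt z (f b) ≤ 1 := by
  obtain ⟨L, h0, hc, rfl⟩ := Pool.Agent.Helper867.Residual.exists_syllables w
  have e1 : cnt b (L.map (fun p => (FreeGroup.of p.1) ^ p.2)).prod =
      (L.map (fun p => if p.1 = b then p.2.natAbs else 0)).sum :=
    cnt_of_syl id Function.injective_id L h0 hc b
  rw [e1] at hb hw
  rw [lift_syl, cnt_syl f S hdisj hS hne L h0 hc z] at hw
  have hpt : ∀ p ∈ L, (if p.1 = b then p.2.natAbs else 0) ≤ cnt z (f p.1 ^ p.2) := by
    intro p _
    by_cases h : p.1 = b
    · rw [if_pos h, h, cnt_zpow_natAbs]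
      have := esum_le_cnt z (f b ^ p.2.natAbs)
      rw [map_pow, toAdd_pow, hz] at this
      have h2 : (p.2.natAbs : ℤ) ≤ cnt z (f b ^ p.2.natAbs) := by
        simpa using this
      exact_mod_cast h2
    · rw [if_neg h]; exact Nat.zero_le _
  by_contra hcon
  have hstrict : ∃ p ∈ L, (if p.1 = b then p.2.natAbs else 0) < cnt z (f p.1 ^ p.2) := by
    have : ∃ p ∈ L, p.1 = b := by
      by_contra hno
      push Not at hno
      apply hb
      apply List.sum_eq_zero
      intro x hx
      rw [List.mem_map] at hx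
      obtain ⟨p, hp, rfl⟩ := hx
      rw [if_neg (hno p hp)]
    obtain ⟨p, hp, hpb⟩ := this
    refine ⟨p, hp, ?_⟩
    rw [if_pos hpb, hpb, cnt_zpow_natAbs]
    by_contra hle
    apply hcon
    apply cnt_pow z (f b) hz p.2.natAbs (by
      have := h0 p hp
      omega)
    omega
  have := List.sum_lt_sum _ _ hpt hstrict
  omega

end Syl

/-- Associative words in the free group with exponent sums one. -/
theorem assoc_word (w : FreeGroup (Fin 2))
    (h0 : Multiplicative.toAdd (esum 0 w) = 1) (h1 : Multiplicative.toAdd (esum 1 w) = 1)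
    (has : lift ![lift ![of 0, of 1] w, of 2] w =
      (lift ![of 0, lift ![of 1, of 2] w] w : FreeGroup (Fin 3))) :
    w = of 0 * of 1 ∨ w = of 1 * of 0 := by
  have hc0 : 1 ≤ cnt 0 w := by
    have := esum_le_cnt 0 w
    rw [h0] at this
    have h2 : (1 : ℤ) ≤ cnt 0 w := by simpa using this
    exact_mod_cast h2
  have hc1 : 1 ≤ cnt 1 w := by
    have := esum_le_cnt 1 w
    rw [h1] at this
    have h2 : (1 : ℤ) ≤ cnt 1 w := by simpa using this
    exact_mod_cast h2
  set U : FreeGroup (Fin 3) := lift ![of 1, of 2] w with hU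
  set V : FreeGroup (Fin 3) := lift ![of 0, of 1] w with hV
  have hU' : U = lift (fun i : Fin 2 => of (Fin.succ i)) w := by
    rw [hU]; congr 1; congr 1; funext i; fin_cases i <;> rfl
  have hV' : V = lift (fun i : Fin 2 => of (Fin.castSucc i)) w := by
    rw [hV]; congr 1; congr 1; funext i; fin_cases i <;> rfl
  have cU2 : cnt 2 U = cnt 1 w := by
    rw [hU']; exact cnt_map Fin.succ (Fin.succ_injective _) 1 w
  have cV0 : cnt 0 V = cnt 0 w := by
    rw [hV']; exact cnt_map Fin.castSucc (Fin.castSucc_injective _) 0 w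
  have cU0 : cnt 0 U = 0 := by
    have key : ∀ w : FreeGroup (Fin 2), cnt 0 (lift ![of 1, of 2] w : FreeGroup (Fin 3)) = 0 := by
      intro w
      induction w using FreeGroup.induction_on with
      | C1 => simp
      | of x => fin_cases x <;> simp [cnt_of]
      | inv_of x ih => rw [map_inv, cnt_inv]; exact ih
      | mul x y hx hy =>
        rw [map_mul]
        have := cnt_mul_le 0 (lift ![of 1, of 2] x : FreeGroup (Fin 3)) (lift ![of 1, of 2] y)
        omega
    exact key w
  have cV2 : cnt 2 V = 0 := by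
    have key : ∀ w : FreeGroup (Fin 2), cnt 2 (lift ![of 0, of 1] w : FreeGroup (Fin 3)) = 0 := by
      intro w
      induction w using FreeGroup.induction_on with
      | C1 => simp
      | of x => fin_cases x <;> simp [cnt_of]
      | inv_of x ih => rw [map_inv, cnt_inv]; exact ih
      | mul x y hx hy =>
        rw [map_mul]
        have := cnt_mul_le 2 (lift ![of 0, of 1] x : FreeGroup (Fin 3)) (lift ![of 0, of 1] y)
        omega
    exact key w
  have eU : esum 2 U = esum 1 w := by
    have : (esum (2 : Fin 3)).comp (lift ![of 1, of 2]) = esum (1 : Fin 2) := by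
      ext i; fin_cases i <;> simp
    rw [← this]; rfl
  have eV : esum 0 V = esum 0 w := by
    have : (esum (0 : Fin 3)).comp (lift ![of 0, of 1]) = esum (0 : Fin 2) := by
      ext i; fin_cases i <;> simp
    rw [← this]; rfl
  -- number of `b` letters
  have hB : cnt 1 w ≤ 1 := by
    rw [← cU2]
    have hU1 : U ≠ 1 := by
      intro h
      rw [h] at cU2
      simp at cU2
      omega
    refine main_count ![of 0, U] (fun i a => if i = 0 then a = 0 else a ≠ 0) ?_ ?_ ?_ (1 : Fin 2) 2
      ?_ w ?_ (by omega)
    · intro i j a hij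
      fin_cases i <;> fin_cases j <;> simp_all
    · intro i
      fin_cases i
      · simp
      · intro p hp
        simp only [Fin.mk_one, Fin.isValue, one_ne_zero, if_false]
        intro h
        have : 0 < cnt 0 U := by
          unfold cnt
          rw [List.countP_pos_iff]
          exact ⟨p, hp, by simpa using h⟩
        omega
    · intro i
      fin_cases i
      · exact of_ne_one _
      · exact hU1
    · change Multiplicative.toAdd (esum 2 U) = 1
      rw [eU, h1]
    · rw [← has]
      apply cnt_lift_le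
      · intro c hc
        fin_cases c
        · exact cV2
        · exact absurd rfl hc
      · change cnt 2 (of 2 : FreeGroup (Fin 3)) ≤ 1
        rw [cnt_of]; simp
  have hA : cnt 0 w ≤ 1 := by
    rw [← cV0]
    have hV1 : V ≠ 1 := by
      intro h
      rw [h] at cV0
      simp at cV0
      omega
    refine main_count ![V, of 2] (fun i a => if i = 0 then a ≠ 2 else a = 2) ?_ ?_ ?_ (0 : Fin 2) 0
      ?_ w ?_ (by omega)
    · intro i j a hij
      fin_cases i <;> fin_cases j <;> simp_all
    · intro i
      fin_cases i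
      · intro p hp
        simp only [Fin.zero_eta, Fin.isValue, if_true]
        intro h
        have : 0 < cnt 2 V := by
          unfold cnt
          rw [List.countP_pos_iff]
          exact ⟨p, hp, by simpa using h⟩
        omega
      · simp
    · intro i
      fin_cases i
      · exact hV1
      · exact of_ne_one _
    · change Multiplicative.toAdd (esum 0 V) = 1
      rw [eV, h0]
    · rw [has]
      apply cnt_lift_le
      · intro c hc
        fin_cases c
        · exact absurd rfl hc
        · exact cU0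
      · change cnt 0 (of 0 : FreeGroup (Fin 3)) ≤ 1
        rw [cnt_of]; simp
  -- the word has length two
  have hlen : w.toWord.length = cnt 0 w + cnt 1 w := by
    unfold cnt
    have : ∀ L : List (Fin 2 × Bool), L.length = L.countP (fun p => p.1 = 0) +
        L.countP (fun p => p.1 = 1) := by
      intro L
      induction L with
      | nil => simp
      | cons p L ih =>
        obtain ⟨i, e⟩ := p
        rw [List.countP_cons, List.countP_cons, List.length_cons, ih]
        fin_cases i <;> simp <;> omega
    exact this _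
  have hlen2 : w.toWord.length = 2 := by omega
  rw [List.length_eq_two] at hlen2
  obtain ⟨⟨i, e⟩, ⟨j, e'⟩, hij⟩ := hlen2
  have hwm : w = mk [(i, e), (j, e')] := by rw [← hij, mk_toWord]
  have hA1 : cnt 0 w = 1 := by omega
  have hB1 : cnt 1 w = 1 := by omega
  unfold cnt at hA1 hB1
  rw [hij] at hA1 hB1
  rw [hwm] at h0 h1
  have h2 : (mk [(i, e), (j, e')] : FreeGroup (Fin 2)) = mk [(i, e)] * mk [(j, e')] := by
    rw [mul_mk]; rfl
  rw [h2, map_mul, toAdd_mul] at h0 h1
  rw [hwm, h2]
  unfold esum at h0 h1
  fin_cases i <;> fin_cases j <;> cases e <;> cases e' <;> simp at * <;> first | exact Or.inl rfl | exact Or.inr rfl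

end Pool.Agent.X262.AssocWord
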