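import Mathlib
import Pool.Agent.X262.Ball
import Pool.Agent.X262.AssocWord

set_option autoImplicit false

/-!
The twisted conjugacy ratio depends on the generating set: combinatorics in the free group of rank
three.
-/

namespace Pool.Agent.X262.Tcr

open Filter Topology Pool.Agent.X262.Ball Pool.Agent.X262.AssocWord

/-- the free group of rank three -/
abbrev F : Type := FreeGroup (ZMod 3)

/-- the endomorphism `x_i ↦ x_0^i x_1 x_0^(-i)` -/
noncomputable def psi : F →* F :=
  FreeGroup.lift (fun i : ZMod 3 => FreeGroup.of 0 ^ i.val * FreeGroup.of 1 *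
    (FreeGroup.of 0 ^ i.val)⁻¹)

/-- the cyclic shift of the generators -/
noncomputable def shiftAut : Multiplicative (ZMod 3) →* MulAut F where
  toFun k := FreeGroup.freeGroupCongr (Equiv.addLeft (Multiplicative.toAdd k))
  map_one' := by
    ext x
    induction x using FreeGroup.induction_on with
    | C1 => simp
    | of x => simp
    | inv_of x ih => simp
    | mul x y hx hy => rw [map_mul, hx, hy, map_mul]
  map_mul' k l := by
    ext x
    induction x using FreeGroup.induction_on with
    | C1 => simp
    | of x => simp [add_assoc]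
    | inv_of x ih => simp [add_assoc]
    | mul x y hx hy => rw [map_mul, hx, hy, map_mul]

theorem shiftAut_of (k : Multiplicative (ZMod 3)) (i : ZMod 3) :
    shiftAut k (FreeGroup.of i) = FreeGroup.of (Multiplicative.toAdd k + i) := by
  simp [shiftAut]

theorem norm_map_le {α β : Type} [DecidableEq α] [DecidableEq β] (f : α → β) (g : FreeGroup α) :
    (FreeGroup.map f g).norm ≤ g.norm := by
  have h : FreeGroup.map f g = FreeGroup.mk (g.toWord.map fun x => (f x.1, x.2)) := by
    conv_lhs => rw [← FreeGroup.mk_toWord (x := g)]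
    rfl
  rw [h]
  refine FreeGroup.norm_mk_le.trans ?_
  rw [List.length_map]
  exact le_rfl

theorem norm_shift_le (k : Multiplicative (ZMod 3)) (g : F) : (shiftAut k g).norm ≤ g.norm :=
  norm_map_le _ g

/-- the representation in the semidirect product -/
noncomputable def rho : F →* F ⋊[shiftAut] Multiplicative (ZMod 3) :=
  FreeGroup.lift (fun i : ZMod 3 => if i = 0 then SemidirectProduct.inr (Multiplicative.ofAdd 1)
    else if i = 1 then SemidirectProduct.inl (FreeGroup.of 0) else 1)

theorem rho_psi (z : F) : rho (psi z) = SemidirectProduct.inl z := by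
  have h : rho.comp psi = SemidirectProduct.inl := by
    ext i : 1
    have h0 : rho (FreeGroup.of 0) = SemidirectProduct.inr (Multiplicative.ofAdd 1) := by
      simp [rho]
    have h1 : rho (FreeGroup.of 1) = SemidirectProduct.inl (FreeGroup.of 0) := by
      simp [rho]
    have h2 : psi (FreeGroup.of i) = FreeGroup.of 0 ^ i.val * FreeGroup.of 1 *
      (FreeGroup.of 0 ^ i.val)⁻¹ := by simp [psi]
    rw [MonoidHom.comp_apply, h2, map_mul, map_mul, map_inv, map_pow, h0, h1, ← map_pow]
    have h3 := SemidirectProduct.inl_aut (φ := shiftAut) (Multiplicative.ofAdd (1 : ZMod 3) ^ i.val)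
      (FreeGroup.of 0)
    rw [← map_inv SemidirectProduct.inr, ← h3, shiftAut_of]
    congr 2
    rw [toAdd_pow, toAdd_ofAdd]
    simp
  rw [← h]; rfl

theorem norm_rho_le (w : F) : (rho w).left.norm ≤ w.norm := by
  have key : ∀ L : List (ZMod 3 × Bool), (rho (FreeGroup.mk L)).left.norm ≤ L.length := by
    intro L
    induction L with
    | nil => rw [← FreeGroup.one_eq_mk]; simp
    | cons x L ih =>
      have h1 : FreeGroup.mk (x :: L) = FreeGroup.mk [x] * FreeGroup.mk L := by
        rw [FreeGroup.mul_mk]; rfl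
      rw [h1, map_mul, SemidirectProduct.mul_left, List.length_cons]
      refine (FreeGroup.norm_mul_le _ _).trans ?_
      have h2 : (rho (FreeGroup.mk [x])).left.norm ≤ 1 := by
        obtain ⟨i, e⟩ := x
        have h3 : ∀ i : ZMod 3, (rho (FreeGroup.of i)).left.norm ≤ 1 := by
          intro i
          unfold rho
          rw [FreeGroup.lift_apply_of]
          split_ifs <;> simp
        have h4 : ∀ i : ZMod 3, (rho (FreeGroup.of i)⁻¹).left.norm ≤ 1 := by
          intro i
          rw [map_inv, SemidirectProduct.inv_left]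
          refine (norm_shift_le _ _).trans ?_
          rw [FreeGroup.norm_inv_eq]
          exact h3 i
        cases e
        · exact h4 i
        · exact h3 i
      have h5 := norm_shift_le (rho (FreeGroup.mk [x])).right (rho (FreeGroup.mk L)).left
      omega
  have := key w.toWord
  rwa [FreeGroup.mk_toWord] at this

theorem norm_le_psi (z : F) : z.norm ≤ (psi z).norm := by
  have := norm_rho_le (psi z)
  rwa [rho_psi] at this

theorem psi_cnt (z : F) : cnt 2 (psi z) = 0 := by
  have h0 : cnt (2 : ZMod 3) (FreeGroup.of 0) = 0 := by rw [cnt_of]; decide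
  have h1 : cnt (2 : ZMod 3) (FreeGroup.of 1) = 0 := by rw [cnt_of]; decide
  have hp : ∀ n : ℕ, cnt (2 : ZMod 3) (FreeGroup.of 0 ^ n) = 0 := by
    intro n
    induction n with
    | zero => simp
    | succ n ih =>
      rw [pow_succ]
      have := cnt_mul_le (2 : ZMod 3) (FreeGroup.of 0 ^ n) (FreeGroup.of 0)
      omega
  induction z using FreeGroup.induction_on with
  | C1 => simp
  | of x =>
    have h2 : psi (FreeGroup.of x) = FreeGroup.of 0 ^ x.val * FreeGroup.of 1 *
      (FreeGroup.of 0 ^ x.val)⁻¹ := by simp [psi]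
    rw [h2]
    have e1 := cnt_mul_le (2 : ZMod 3) (FreeGroup.of 0 ^ x.val * FreeGroup.of 1)
      (FreeGroup.of 0 ^ x.val)⁻¹
    have e2 := cnt_mul_le (2 : ZMod 3) (FreeGroup.of 0 ^ x.val) (FreeGroup.of 1)
    rw [cnt_inv] at e1
    have e3 := hp x.val
    omega
  | inv_of x ih => rw [map_inv, cnt_inv]; exact ih
  | mul x y hx hy =>
    rw [map_mul]
    have := cnt_mul_le 2 (psi x) (psi y)
    omega

theorem cnt_zero_letter {w : F} (h : cnt 2 w = 0) : ∀ p ∈ w.toWord, p.1 ≠ 2 := by
  intro p hp h2
  have : 0 < cnt 2 w := by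
    unfold cnt
    rw [List.countP_pos_iff]
    exact ⟨p, hp, by simpa using h2⟩
  omega

theorem last_letter (v : F) (Z : List (ZMod 3 × Bool)) (h : Z.length < v.norm) :
    (FreeGroup.mk Z * v).toWord.getLast? = v.toWord.getLast? ∧
      v.norm ≤ (FreeGroup.mk Z * v).norm + Z.length := by
  induction Z with
  | nil => rw [← FreeGroup.one_eq_mk]; simp
  | cons x Z ih =>
    rw [List.length_cons] at h
    obtain ⟨ih1, ih2⟩ := ih (by omega)
    have h1 : FreeGroup.mk (x :: Z) = FreeGroup.mk [x] * FreeGroup.mk Z := by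
      rw [FreeGroup.mul_mk]; rfl
    rw [h1, mul_assoc]
    set u := FreeGroup.mk Z * v with hu
    have hun : 2 ≤ u.toWord.length := by
      have : u.norm = u.toWord.length := rfl
      omega
    have h2 : (FreeGroup.mk [x] * u).toWord = FreeGroup.reduce (x :: u.toWord) := by
      conv_lhs => rw [← FreeGroup.mk_toWord (x := u), FreeGroup.mul_mk, FreeGroup.toWord_mk]
      rfl
    obtain ⟨p, t, hpt⟩ : ∃ p t, u.toWord = p :: t := by
      cases hc : u.toWord with
      | nil => rw [hc] at hun; simp at hun
      | cons p t => exact ⟨p, t, rfl⟩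
    have h3 : FreeGroup.reduce (x :: u.toWord) =
        if x.1 = p.1 ∧ x.2 = !p.2 then t else x :: p :: t := by
      rw [FreeGroup.reduce.cons, FreeGroup.reduce_toWord, hpt]
    rw [hpt, List.length_cons] at hun
    have htne : t ≠ [] := by
      intro ht
      rw [ht] at hun
      simp at hun
    have hlast : u.toWord.getLast? = t.getLast? := by
      rw [hpt]
      exact List.getLast?_cons_of_ne_nil htne
    have hnu : u.norm = t.length + 1 := by
      have : u.norm = u.toWord.length := rfl
      rw [this, hpt, List.length_cons]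
    have hnorm : (FreeGroup.mk [x] * u).norm = (FreeGroup.mk [x] * u).toWord.length := rfl
    rw [hnorm, h2, h3]
    split_ifs with hcond
    · refine ⟨by rw [← hlast, ih1], ?_⟩
      rw [List.length_cons]
      omega
    · refine ⟨?_, ?_⟩
      · rw [List.getLast?_cons_of_ne_nil (by simp), List.getLast?_cons_of_ne_nil htne, ← hlast, ih1]
      · simp only [List.length_cons]
        omega

/-- the words that end in the third generator or its inverse -/
def E : Set F := {w | ∃ e, w.toWord.getLast? = some (2, e)}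

theorem E_nonconj {w w' z : F} (hw : w ∈ E) (hw' : w' ∈ E) (h : w' = z * w * (psi z)⁻¹) :
    w' = w := by
  by_contra hne
  have hz : z ≠ 1 := by
    rintro rfl
    apply hne
    simpa using h
  obtain ⟨e, he⟩ := hw
  obtain ⟨e', he'⟩ := hw'
  set y := (psi z)⁻¹ with hy
  have hyn : z.norm ≤ y.norm := by rw [hy, FreeGroup.norm_inv_eq]; exact norm_le_psi z
  have hz1 : 0 < z.norm := by
    rw [Nat.pos_iff_ne_zero, ne_eq, FreeGroup.norm_eq_zero]; exact hz
  have hyc : cnt 2 y = 0 := by rw [hy, cnt_inv]; exact psi_cnt z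
  have hylet := cnt_zero_letter hyc
  have hred : FreeGroup.IsReduced (w.toWord ++ y.toWord) := by
    unfold FreeGroup.IsReduced
    rw [List.isChain_append]
    refine ⟨FreeGroup.isReduced_toWord, FreeGroup.isReduced_toWord, ?_⟩
    intro a ha b hb hab
    exfalso
    rw [he] at ha
    have ha' : a = (2, e) := by simpa using ha.symm
    apply hylet b (List.mem_of_mem_head? hb)
    rw [← hab, ha']
  have hwy : (w * y).toWord = w.toWord ++ y.toWord := by
    rw [FreeGroup.toWord_mul, hred.reduce_eq]
  have hwl : 0 < w.toWord.length := by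
    rw [List.length_pos_iff]
    intro h0
    rw [h0] at he
    simp at he
  have hlen : z.toWord.length < (w * y).norm := by
    have h1 : (w * y).norm = (w * y).toWord.length := rfl
    have h2 : y.norm = y.toWord.length := rfl
    have h3 : z.norm = z.toWord.length := rfl
    rw [h1, hwy, List.length_append]
    omega
  have hlast := (last_letter (w * y) z.toWord hlen).1
  rw [FreeGroup.mk_toWord, ← mul_assoc, ← h, he', hwy] at hlast
  have hyne : y.toWord ≠ [] := by
    intro h0
    have : y.norm = 0 := by
      change y.toWord.length = 0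
      rw [h0]; rfl
    omega
  rw [List.getLast?_append_of_ne_nil _ hyne] at hlast
  exact hylet (2, e') (List.mem_of_mem_getLast? (by rw [← hlast]; rfl)) rfl

/-- the ball of the free group -/
def B (n : ℕ) : Set F := {w | w.norm ≤ n}

theorem snoc {w : F} {x : ZMod 3 × Bool} (h : w.toWord.getLast? ≠ some (x.1, !x.2)) :
    (w * FreeGroup.mk [x]).toWord = w.toWord ++ [x] := by
  have hred : FreeGroup.IsReduced (w.toWord ++ [x]) := by
    unfold FreeGroup.IsReduced
    rw [List.isChain_append]
    refine ⟨FreeGroup.isReduced_toWord, by simp, ?_⟩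
    intro a ha b hb hab
    have hb' : b = x := by simpa using hb.symm
    subst hb'
    by_contra hne
    apply h
    rw [Option.mem_def] at ha
    rw [ha]
    congr 1
    apply Prod.ext
    · exact hab
    · simp only
      cases h1 : a.2 <;> cases h2 : b.2 <;> simp_all
  conv_lhs => rw [← FreeGroup.mk_toWord (x := w), FreeGroup.mul_mk, FreeGroup.toWord_mk,
    hred.reduce_eq]

theorem B_succ_sub (n : ℕ) : B (n + 1) ⊆ (fun p : Option (ZMod 3 × Bool) × F =>
    match p.1 with
    | none => p.2
    | some x => p.2 * FreeGroup.mk [x]) '' (Set.univ ×ˢ B n) := by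
  intro w hw
  by_cases hn : w.norm ≤ n
  · exact ⟨(none, w), ⟨trivial, hn⟩, rfl⟩
  · have hwn : w.toWord ≠ [] := by
      intro h0
      apply hn
      change w.toWord.length ≤ n
      rw [h0]; simp
    obtain ⟨L, x, hLx⟩ := List.eq_nil_or_concat w.toWord |>.resolve_left hwn
    rw [List.concat_eq_append] at hLx
    refine ⟨(some x, FreeGroup.mk L), ⟨trivial, ?_⟩, ?_⟩
    · change (FreeGroup.mk L).norm ≤ n
      refine FreeGroup.norm_mk_le.trans ?_
      have h1 : w.toWord.length ≤ n + 1 := hw
      rw [hLx] at h1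
      simpa using h1
    · simp only
      rw [FreeGroup.mul_mk, ← hLx, FreeGroup.mk_toWord]

theorem B_finite (n : ℕ) : (B n).Finite := by
  induction n with
  | zero =>
    refine (Set.finite_singleton (1 : F)).subset ?_
    intro w hw
    have : w.norm = 0 := Nat.le_zero.mp hw
    exact FreeGroup.norm_eq_zero.mp this
  | succ n ih => exact ((Set.finite_univ.prod ih).image _).subset (B_succ_sub n)

theorem B_upper (n : ℕ) : (B (n + 1)).ncard ≤ 7 * (B n).ncard := by
  calc (B (n + 1)).ncard ≤ _ := Set.ncard_le_ncard (B_succ_sub n)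
        ((Set.finite_univ.prod (B_finite n)).image _)
    _ ≤ ((Set.univ : Set (Option (ZMod 3 × Bool))) ×ˢ B n).ncard :=
        Set.ncard_image_le (Set.finite_univ.prod (B_finite n))
    _ = 7 * (B n).ncard := by
        rw [Set.ncard_prod, Set.ncard_univ]
        simp [Nat.card_eq_fintype_card]

theorem B_lower {ι : Type} [Finite ι] (x : ι → ZMod 3 × Bool) (hx : Function.Injective x) (n : ℕ) :
    Nat.card ι * (B n).ncard ≤
      (B (n + 1) ∩ {w | ∃ i, w.toWord.getLast? = some (x i)}).ncard + (B n).ncard := by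
  have h1 : Nat.card ι * (B n).ncard = ((Set.univ : Set ι) ×ˢ B n).ncard := by
    rw [Set.ncard_prod, Set.ncard_univ]
  have hfin : ((Set.univ : Set ι) ×ˢ B n).Finite := Set.finite_univ.prod (B_finite n)
  set P : Set (ι × F) := {p | p.2 ∈ B n ∧ p.2.toWord.getLast? ≠ some ((x p.1).1, !(x p.1).2)} with hP
  set Q : Set (ι × F) := {p | p.2 ∈ B n ∧ p.2.toWord.getLast? = some ((x p.1).1, !(x p.1).2)} with hQ
  have hPQ : ((Set.univ : Set ι) ×ˢ B n) ⊆ P ∪ Q := by
    rintro ⟨i, w⟩ ⟨-, hw⟩
    by_cases h : w.toWord.getLast? = some ((x i).1, !(x i).2)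
    · exact Or.inr ⟨hw, h⟩
    · exact Or.inl ⟨hw, h⟩
  have hPf : P.Finite := hfin.subset (fun p hp => ⟨trivial, hp.1⟩)
  have hQf : Q.Finite := hfin.subset (fun p hp => ⟨trivial, hp.1⟩)
  have h2 : P.ncard ≤ (B (n + 1) ∩ {w | ∃ i, w.toWord.getLast? = some (x i)}).ncard := by
    refine Set.ncard_le_ncard_of_injOn (fun p => p.2 * FreeGroup.mk [x p.1]) ?_ ?_
      ((B_finite _).subset Set.inter_subset_left)
    · rintro ⟨i, w⟩ ⟨hw, hl⟩
      refine ⟨?_, i, ?_⟩
      · change (w * FreeGroup.mk [x i]).toWord.length ≤ n + 1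
        rw [snoc hl, List.length_append]
        have : w.toWord.length ≤ n := hw
        simpa using this
      · simp only
        rw [snoc hl]; simp
    · rintro ⟨i, w⟩ ⟨hw, hl⟩ ⟨j, w'⟩ ⟨hw', hl'⟩ h
      simp only at h hl hl'
      have h3 := congrArg FreeGroup.toWord h
      rw [snoc hl, snoc hl'] at h3
      have h4 := List.append_inj' h3 rfl
      have h5 : x i = x j := by simpa using h4.2
      have h6 : w = w' := FreeGroup.toWord_injective h4.1
      rw [hx h5, h6]
  have h3 : Q.ncard ≤ (B n).ncard := by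
    refine Set.ncard_le_ncard_of_injOn (fun p => p.2) (fun p hp => hp.1) ?_ (B_finite n)
    rintro ⟨i, w⟩ ⟨hw, hl⟩ ⟨j, w'⟩ ⟨hw', hl'⟩ h
    simp only at h hl hl'
    subst h
    rw [hl] at hl'
    simp only [Option.some.injEq, Prod.mk.injEq] at hl'
    have : x i = x j := by
      apply Prod.ext hl'.1
      have := hl'.2
      cases h1 : (x i).2 <;> cases h2 : (x j).2 <;> simp_all
    rw [hx this]
  calc Nat.card ι * (B n).ncard = ((Set.univ : Set ι) ×ˢ B n).ncard := h1
    _ ≤ (P ∪ Q).ncard := Set.ncard_le_ncard hPQ (hPf.union hQf)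
    _ ≤ P.ncard + Q.ncard := Set.ncard_union_le _ _
    _ ≤ _ := by omega

theorem B_double (n : ℕ) : 5 * (B n).ncard ≤ (B (n + 1)).ncard := by
  have h := B_lower (fun p : ZMod 3 × Bool => p) Function.injective_id n
  have hc : Nat.card (ZMod 3 × Bool) = 6 := by simp [Nat.card_eq_fintype_card]
  rw [hc] at h
  have h2 : (B (n + 1) ∩ {w | ∃ i, w.toWord.getLast? = some i}).ncard ≤ (B (n + 1)).ncard :=
    Set.ncard_le_ncard Set.inter_subset_left (B_finite _)
  omega

theorem B_E (n : ℕ) : (B n).ncard ≤ (B (n + 1) ∩ E).ncard := by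
  have h := B_lower (fun e : Bool => ((2 : ZMod 3), e)) (fun a b h => (Prod.ext_iff.mp h).2) n
  have hc : Nat.card Bool = 2 := by simp
  rw [hc] at h
  have h2 : (B (n + 1) ∩ {w | ∃ i : Bool, w.toWord.getLast? = some (2, i)}) = B (n + 1) ∩ E := rfl
  rw [h2] at h
  omega

end Pool.Agent.X262.Tcr
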