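import Mathlib

/-!
Free groups of rank two have infinite commutator width, via the translation number quasimorphism of
an action on the real line commuting with the translation by one.
-/

set_option autoImplicit false

namespace Pool.Agent.X262.CircleWidth

open CircleDeg1Lift

/-- the displacement functions `(1 - cos 2πx) / 8` and `(1 + cos 2πx) / 8` -/
noncomputable def bump (s : ℝ) (x : ℝ) : ℝ := x + (1 + s * Real.cos (2 * Real.pi * x)) / 8

lemma bump_strictMono (s : ℝ) (hs : |s| = 1) : StrictMono (bump s) := by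
  intro x y hxy
  unfold bump
  have h := Real.lipschitzWith_cos.dist_le_mul (2 * Real.pi * x) (2 * Real.pi * y)
  rw [Real.dist_eq, Real.dist_eq, NNReal.coe_one, one_mul, ← mul_sub, abs_mul,
    abs_of_pos (by positivity : (0 : ℝ) < 2 * Real.pi), abs_of_neg (by linarith : x - y < 0)] at h
  have h1 : |s * Real.cos (2 * Real.pi * x) - s * Real.cos (2 * Real.pi * y)| ≤
      2 * Real.pi * -(x - y) := by
    rw [← mul_sub, abs_mul, hs, one_mul]; exact h
  have h2 := (abs_le.1 h1).2
  have h3 : Real.pi < 4 := Real.pi_lt_four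
  nlinarith [mul_pos (sub_pos.2 hxy) (sub_pos.2 h3)]

lemma bump_add_one (s x : ℝ) : bump s (x + 1) = bump s x + 1 := by
  unfold bump
  rw [mul_add, mul_one, Real.cos_add_two_pi]
  ring

/-- the lift of degree one -/
noncomputable def lift (s : ℝ) (hs : |s| = 1) : CircleDeg1Lift where
  toFun := bump s
  monotone' := (bump_strictMono s hs).monotone
  map_add_one' := bump_add_one s

lemma lift_apply (s : ℝ) (hs : |s| = 1) (x : ℝ) : lift s hs x = bump s x := rfl

lemma lift_isUnit (s : ℝ) (hs : |s| = 1) : IsUnit (lift s hs) := by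
  rw [isUnit_iff_bijective]
  refine ⟨(bump_strictMono s hs).injective, ?_⟩
  rw [← continuous_iff_surjective]
  show Continuous (bump s)
  unfold bump
  fun_prop

noncomputable def unit (s : ℝ) (hs : |s| = 1) : CircleDeg1Liftˣ := (lift_isUnit s hs).unit

lemma unit_coe (s : ℝ) (hs : |s| = 1) : ((unit s hs : CircleDeg1Liftˣ) : CircleDeg1Lift) = lift s hs :=
  IsUnit.unit_spec _

noncomputable def f : CircleDeg1Liftˣ := unit (-1) (by simp)
noncomputable def g : CircleDeg1Liftˣ := unit 1 (by simp)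

lemma tau_f : translationNumber (f : CircleDeg1Lift) = 0 := by
  have := translationNumber_of_eq_add_int (f := (f : CircleDeg1Lift)) (x := 0) (m := 0) (by
    rw [f, unit_coe, lift_apply, bump]; simp)
  simpa using this

lemma tau_g : translationNumber (g : CircleDeg1Lift) = 0 := by
  have := translationNumber_of_eq_add_int (f := (g : CircleDeg1Lift)) (x := 1 / 2) (m := 0) (by
    rw [g, unit_coe, lift_apply, bump]
    have : 2 * Real.pi * (1 / 2) = Real.pi := by ring
    rw [this, Real.cos_pi]; simp)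
  simpa using this

lemma bump_ge (s : ℝ) (hs : |s| = 1) (x : ℝ) : x ≤ bump s x := by
  unfold bump
  have h1 : |s * Real.cos (2 * Real.pi * x)| ≤ 1 := by
    rw [abs_mul, hs, one_mul]; exact Real.abs_cos_le_one _
  have := (abs_le.1 h1).1
  linarith

lemma tau_fg : 0 < translationNumber ((f * g : CircleDeg1Liftˣ) : CircleDeg1Lift) := by
  apply lt_translationNumber_of_forall_add_lt
  · rw [continuous_iff_surjective]
    exact (isUnit_iff_bijective.1 (Units.isUnit (f * g))).2
  · intro x
    rw [Units.val_mul, mul_apply, f, g, unit_coe, unit_coe, lift_apply, lift_apply, add_zero]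
    have h1 := bump_ge 1 (by simp) x
    have h2 := bump_ge (-1) (by simp) (bump 1 x)
    rcases h1.lt_or_eq with h | h
    · exact h.trans_le h2
    · rw [← h]
      have hc : Real.cos (2 * Real.pi * x) = -1 := by
        unfold bump at h; linarith
      unfold bump
      rw [hc]; linarith

/-! ### the quasimorphism -/

lemma quasi (u v : CircleDeg1Liftˣ) :
    |((u * v : CircleDeg1Liftˣ) : CircleDeg1Lift) 0 - (u : CircleDeg1Lift) 0 -
      (v : CircleDeg1Lift) 0| ≤ 1 := by
  have h := dist_map_map_zero_lt (u : CircleDeg1Lift) (v : CircleDeg1Lift)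
  rw [Real.dist_eq, abs_sub_comm] at h
  rw [Units.val_mul, mul_apply]
  have e : ∀ a b c : ℝ, a - b - c = a - (b + c) := by intros; ring
  rw [e]; exact h.le

lemma near_tau (u : CircleDeg1Liftˣ) :
    |(u : CircleDeg1Lift) 0 - translationNumber (u : CircleDeg1Lift)| ≤ 1 := by
  have h := dist_map_zero_translationNumber_le (u : CircleDeg1Lift)
  rwa [Real.dist_eq] at h

lemma comm_bound (u v : CircleDeg1Liftˣ) :
    |((u * v * u⁻¹ * v⁻¹ : CircleDeg1Liftˣ) : CircleDeg1Lift) 0| ≤ 3 := by
  have h1 := quasi (u * v * u⁻¹) v⁻¹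
  have h2 := near_tau (u * v * u⁻¹)
  have h3 := near_tau v⁻¹
  have h4 : translationNumber ((u * v * u⁻¹ : CircleDeg1Liftˣ) : CircleDeg1Lift) =
      translationNumber (v : CircleDeg1Lift) := by
    rw [Units.val_mul, Units.val_mul]; exact translationNumber_conj_eq u v
  rw [h4] at h2
  rw [translationNumber_units_inv] at h3
  rw [abs_le] at *
  constructor <;> linarith [h1.1, h1.2, h2.1, h2.2, h3.1, h3.2]

/-- the action of the free group of rank two -/
noncomputable def rho : FreeGroup (Fin 2) →* CircleDeg1Liftˣ := FreeGroup.lift ![f, g]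

lemma prod_bound (l : List (FreeGroup (Fin 2)))
    (hl : ∀ c ∈ l, c ∈ commutatorSet (FreeGroup (Fin 2))) :
    |((rho l.prod : CircleDeg1Liftˣ) : CircleDeg1Lift) 0| ≤ 4 * l.length := by
  induction l with
  | nil => simp
  | cons c l ih =>
    obtain ⟨u, v, rfl⟩ := hl _ List.mem_cons_self
    have h1 := ih (fun c hc => hl c (List.mem_cons_of_mem _ hc))
    have h2 := comm_bound (rho u) (rho v)
    have h3 := quasi (rho u * rho v * (rho u)⁻¹ * (rho v)⁻¹) (rho l.prod)
    rw [List.prod_cons, map_mul, map_commutatorElement, commutatorElement_def, List.length_cons,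
      Nat.cast_add, Nat.cast_one]
    rw [abs_le] at *
    constructor <;> linarith [h1.1, h1.2, h2.1, h2.2, h3.1, h3.2]

/-- the elements `(ab)^k a^{-k} b^{-k}` -/
def w (k : ℕ) : FreeGroup (Fin 2) :=
  (FreeGroup.of 0 * FreeGroup.of 1) ^ k * (FreeGroup.of 0 ^ k)⁻¹ * (FreeGroup.of 1 ^ k)⁻¹

lemma w_mem (k : ℕ) : w k ∈ commutator (FreeGroup (Fin 2)) := by
  rw [← Abelianization.ker_of, MonoidHom.mem_ker, w]
  simp only [map_mul, map_pow, map_inv, mul_pow]
  rw [mul_assoc, ← mul_inv, mul_inv_cancel]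

lemma w_large (k : ℕ) : (k : ℝ) * translationNumber ((f * g : CircleDeg1Liftˣ) : CircleDeg1Lift) - 5 ≤
    ((rho (w k) : CircleDeg1Liftˣ) : CircleDeg1Lift) 0 := by
  have e : rho (w k) = (f * g) ^ k * (f ^ k)⁻¹ * (g ^ k)⁻¹ := by
    simp [w, rho]
  rw [e]
  have h1 := quasi ((f * g) ^ k * (f ^ k)⁻¹) (g ^ k)⁻¹
  have h2 := quasi ((f * g) ^ k) (f ^ k)⁻¹
  have h3 := near_tau ((f * g) ^ k)
  have h4 := near_tau (f ^ k)⁻¹
  have h5 := near_tau (g ^ k)⁻¹
  rw [translationNumber_units_inv, Units.val_pow_eq_pow_val, translationNumber_pow, tau_f] at h4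
  rw [translationNumber_units_inv, Units.val_pow_eq_pow_val, translationNumber_pow, tau_g] at h5
  rw [Units.val_pow_eq_pow_val ((f * g)) k, translationNumber_pow] at h3
  rw [Units.val_pow_eq_pow_val ((f * g)) k] at h2
  rw [abs_le] at *
  linarith [h1.1, h1.2, h2.1, h2.2, h3.1, h3.2, h4.1, h4.2, h5.1, h5.2]

/-- the free group of rank two has infinite commutator width -/
theorem infinite_width : ¬ ∃ n : ℕ, ∀ x ∈ commutator (FreeGroup (Fin 2)),
    ∃ l : List (FreeGroup (Fin 2)), l.length ≤ n ∧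
      (∀ c ∈ l, c ∈ commutatorSet (FreeGroup (Fin 2))) ∧ l.prod = x := by
  rintro ⟨n, hn⟩
  obtain ⟨k, hk⟩ := exists_nat_gt
    ((4 * n + 5 : ℝ) / translationNumber ((f * g : CircleDeg1Liftˣ) : CircleDeg1Lift))
  rw [div_lt_iff₀ tau_fg] at hk
  obtain ⟨l, hl, hc, hp⟩ := hn _ (w_mem k)
  have h1 := prod_bound l hc
  rw [hp] at h1
  have h2 := w_large k
  have h3 : (l.length : ℝ) ≤ n := by exact_mod_cast hl
  linarith [(abs_le.1 h1).2]

end Pool.Agent.X262.CircleWidth
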