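import Mathlib

/-!
Every group generated by a finite set has a finite generating set with respect to which every
element is a product of a bounded number of palindromes.  (The argument is that of the starting file
`Results/MP_738270_al/SomeGenSet.lean`: the values of reversed relators form a normal subgroup all
of whose elements are palindromes, and over `A ∪ A * A` this subgroup contains the commutators.)
-/

set_option autoImplicit false

universe u

namespace Pool.Agent.X262.PalWidth

open scoped Pointwise

section proof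

variable {G : Type u} [Group G] (X : Set G)

/-- The element of `G` represented by a word in the letters `X ∪ X⁻¹`: the letter `(s, true)`
stands for `s` and the letter `(s, false)` for its inverse. -/
def wordValue (X : Set G) (w : List (X × Bool)) : G :=
  (w.map fun a => cond a.2 (a.1 : G) (a.1 : G)⁻¹).prod

/-- `g` is represented by a palindrome over `X`: a word in `X ∪ X⁻¹` that equals its reverse. -/
def IsPalindrome (X : Set G) (g : G) : Prop :=
  ∃ w : List (X × Bool), w.reverse = w ∧ wordValue X w = g

/-- the formal inverse letters, in the same order -/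
def flip (w : List (X × Bool)) : List (X × Bool) := w.map fun a => (a.1, !a.2)

lemma wordValue_nil : wordValue X [] = 1 := rfl

lemma wordValue_append (v w : List (X × Bool)) :
    wordValue X (v ++ w) = wordValue X v * wordValue X w := by
  simp [wordValue]

lemma wordValue_flip (w : List (X × Bool)) :
    wordValue X (flip X w) = (wordValue X w.reverse)⁻¹ := by
  induction w with
  | nil => simp [flip, wordValue]
  | cons a w ih =>
    rw [List.reverse_cons, wordValue_append, mul_inv_rev, ← ih]
    obtain ⟨x, b⟩ := a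
    cases b <;> simp [flip, wordValue]

omit [Group G] in
lemma flip_reverse (w : List (X × Bool)) : flip X w.reverse = (flip X w).reverse := by
  simp [flip]

/-- The values of reversed relators form a subgroup. -/
def relSub : Subgroup G where
  carrier := {g | ∃ w, wordValue X w = 1 ∧ wordValue X w.reverse = g}
  one_mem' := ⟨[], rfl, rfl⟩
  mul_mem' := by
    rintro _ _ ⟨v, hv, rfl⟩ ⟨w, hw, rfl⟩
    refine ⟨w ++ v, by rw [wordValue_append, hv, hw, one_mul], ?_⟩
    rw [List.reverse_append, wordValue_append]
  inv_mem' := by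
    rintro _ ⟨w, hw, rfl⟩
    refine ⟨flip X w.reverse, ?_, ?_⟩
    · rw [wordValue_flip, List.reverse_reverse, hw, inv_one]
    · rw [flip_reverse, List.reverse_reverse, wordValue_flip]

lemma mem_relSub {g : G} :
    g ∈ relSub X ↔ ∃ w, wordValue X w = 1 ∧ wordValue X w.reverse = g := Iff.rfl

lemma isPalindrome_of_mem {g : G} (hg : g ∈ relSub X) : IsPalindrome X g := by
  obtain ⟨w, hw, rfl⟩ := hg
  refine ⟨w ++ w.reverse, by simp, ?_⟩
  rw [wordValue_append, hw, one_mul]

lemma exists_word (hX : Subgroup.closure X = ⊤) (g : G) : ∃ w, wordValue X w = g := by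
  have hg : g ∈ Subgroup.closure X := by rw [hX]; trivial
  induction hg using Subgroup.closure_induction with
  | mem x hx => exact ⟨[(⟨x, hx⟩, true)], by simp [wordValue]⟩
  | one => exact ⟨[], rfl⟩
  | mul x y _ _ ihx ihy =>
    obtain ⟨v, rfl⟩ := ihx
    obtain ⟨w, rfl⟩ := ihy
    exact ⟨v ++ w, wordValue_append X v w⟩
  | inv x _ ih =>
    obtain ⟨v, rfl⟩ := ih
    exact ⟨flip X v.reverse, by rw [wordValue_flip, List.reverse_reverse]⟩

lemma relSub_normal (hX : Subgroup.closure X = ⊤) : (relSub X).Normal := by
  constructor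
  rintro _ ⟨w, hw, rfl⟩ g
  obtain ⟨u, rfl⟩ := exists_word X hX g
  refine ⟨flip X u ++ w ++ u.reverse, ?_, ?_⟩
  · rw [wordValue_append, wordValue_append, hw, wordValue_flip]
    group
  · rw [List.reverse_append, List.reverse_append, List.reverse_reverse, wordValue_append,
      wordValue_append, ← flip_reverse, wordValue_flip, List.reverse_reverse, mul_assoc]

lemma isPalindrome_zpow {s : G} (hs : s ∈ X) (k : ℤ) : IsPalindrome X (s ^ k) := by
  obtain ⟨n, rfl | rfl⟩ := k.eq_nat_or_neg
  · exact ⟨List.replicate n (⟨s, hs⟩, true), by simp, by simp [wordValue]⟩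
  · exact ⟨List.replicate n (⟨s, hs⟩, false), by simp, by simp [wordValue]⟩

/-- the enlarged generating set -/
lemma commutator_le (A : Set G) (hA : Subgroup.closure A = ⊤) :
    commutator G ≤ relSub (A ∪ A * A) := by
  have hX : Subgroup.closure (A ∪ A * A) = ⊤ := by
    rw [eq_top_iff, ← hA]
    exact Subgroup.closure_mono Set.subset_union_left
  have hN := relSub_normal (A ∪ A * A) hX
  set N := relSub (A ∪ A * A) with hNdef
  -- generators commute modulo `N`
  have key : ∀ a ∈ A, ∀ b ∈ A, (QuotientGroup.mk a : G ⧸ N) * QuotientGroup.mk b =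
      QuotientGroup.mk b * QuotientGroup.mk a := by
    intro a ha b hb
    rw [← QuotientGroup.mk_mul, ← QuotientGroup.mk_mul, QuotientGroup.eq, hNdef, mem_relSub]
    have haX : a ∈ A ∪ A * A := Or.inl ha
    have hbX : b ∈ A ∪ A * A := Or.inl hb
    have hcX : a * b ∈ A ∪ A * A := Or.inr (Set.mul_mem_mul ha hb)
    refine ⟨[(⟨a, haX⟩, true), (⟨b, hbX⟩, true), (⟨a * b, hcX⟩, false)], ?_, ?_⟩
    · simp [wordValue]
    · simp [wordValue, mul_assoc]
  have hS : Subgroup.closure ((QuotientGroup.mk' N) '' A) = ⊤ := by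
    rw [← MonoidHom.map_closure, hA, ← MonoidHom.range_eq_map, MonoidHom.range_eq_top]
    exact QuotientGroup.mk'_surjective N
  have h1 : ((QuotientGroup.mk' N) '' A) ⊆ Subgroup.centralizer ((QuotientGroup.mk' N) '' A) := by
    rintro _ ⟨a, ha, rfl⟩
    rw [SetLike.mem_coe, Subgroup.mem_centralizer_iff]
    rintro _ ⟨b, hb, rfl⟩
    exact key b hb a ha
  have h2 : (⊤ : Subgroup (G ⧸ N)) ≤ Subgroup.centralizer ((QuotientGroup.mk' N) '' A) := by
    rw [← hS]; exact (Subgroup.closure_le _).2 h1
  have h3 : ((QuotientGroup.mk' N) '' A) ⊆ Subgroup.center (G ⧸ N) := by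
    intro a ha
    rw [SetLike.mem_coe, Subgroup.mem_center_iff]
    intro g
    exact ((Subgroup.mem_centralizer_iff.1 (h2 (Subgroup.mem_top g))) a ha).symm
  have h4 : (⊤ : Subgroup (G ⧸ N)) ≤ Subgroup.center (G ⧸ N) := by
    rw [← hS]; exact (Subgroup.closure_le _).2 h3
  rw [commutator_def, Subgroup.commutator_le]
  intro x _ y _
  have h5 := Subgroup.mem_center_iff.1 (h4 (Subgroup.mem_top (QuotientGroup.mk x : G ⧸ N)))
    (QuotientGroup.mk y)
  rw [← QuotientGroup.eq_one_iff]
  rw [commutatorElement_def, QuotientGroup.mk_mul, QuotientGroup.mk_mul, QuotientGroup.mk_mul,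
    QuotientGroup.mk_inv, QuotientGroup.mk_inv, ← h5]
  group

/-- every element is a product of powers of the generators modulo the commutator subgroup -/
lemma exists_powers (A : Finset G) (hA : Subgroup.closure (A : Set G) = ⊤) (g : G) :
    ∃ f : G → ℤ, ((A.toList.map fun a => a ^ f a).prod)⁻¹ * g ∈ commutator G := by
  have key : ∀ h : Abelianization G, ∃ f : G → ℤ, h = ∏ a ∈ A, (Abelianization.of a) ^ f a := by
    intro h
    have hS : Subgroup.closure ((Abelianization.of : G →* Abelianization G) '' A) = ⊤ := by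
      rw [← MonoidHom.map_closure, hA, ← MonoidHom.range_eq_map, MonoidHom.range_eq_top]
      exact QuotientGroup.mk'_surjective _
    have hh : h ∈ Subgroup.closure ((Abelianization.of : G →* Abelianization G) '' A) := by
      rw [hS]; trivial
    classical
    induction hh using Subgroup.closure_induction with
    | mem x hx =>
      obtain ⟨a, ha, rfl⟩ := hx
      refine ⟨fun b => if b = a then 1 else 0, ?_⟩
      rw [Finset.prod_eq_single a]
      · simp
      · intro b _ hb; simp [hb]
      · intro h; exact absurd ha h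
    | one => exact ⟨fun _ => 0, by simp⟩
    | mul x y _ _ ihx ihy =>
      obtain ⟨f, rfl⟩ := ihx
      obtain ⟨f', rfl⟩ := ihy
      exact ⟨fun a => f a + f' a, by rw [← Finset.prod_mul_distrib]; simp [zpow_add]⟩
    | inv x _ ih =>
      obtain ⟨f, rfl⟩ := ih
      exact ⟨fun a => -f a, by simp⟩
  obtain ⟨f, hf⟩ := key (Abelianization.of g)
  refine ⟨f, ?_⟩
  rw [← Abelianization.ker_of, MonoidHom.mem_ker, map_mul, map_inv, hf, map_list_prod,
    List.map_map]
  have : (A.toList.map ((Abelianization.of : G →* Abelianization G) ∘ fun a => a ^ f a)).prod =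
      ∏ a ∈ A, (Abelianization.of a) ^ f a := by
    rw [← Finset.prod_map_toList]
    congr 1
  rw [this, inv_mul_cancel]

end proof

/-- bounded palindromic width over `A ∪ A * A`, with words as lists of elements of the group -/
theorem bounded {G : Type u} [Group G] (B : Finset G) (hB : Subgroup.closure (B : Set G) = ⊤) :
    ∃ S : Finset G, Subgroup.closure (S : Set G) = ⊤ ∧
      ∃ n : ℕ, ∀ g : G, ∃ L : List (List G), L.length ≤ n ∧
        (∀ w ∈ L, w.reverse = w ∧ ∀ x ∈ w, x ∈ S ∨ x⁻¹ ∈ S) ∧ (L.map List.prod).prod = g := by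
  classical
  have hX : Subgroup.closure ((B : Set G) ∪ (B : Set G) * (B : Set G)) = ⊤ := by
    rw [eq_top_iff, ← hB]
    exact Subgroup.closure_mono Set.subset_union_left
  have hfin : ((B : Set G) ∪ (B : Set G) * (B : Set G)).Finite :=
    B.finite_toSet.union (B.finite_toSet.mul B.finite_toSet)
  obtain ⟨S, hS⟩ := hfin.exists_finset_coe
  refine ⟨S, by rw [hS]; exact hX, B.card + 1, fun g => ?_⟩
  obtain ⟨f, hf⟩ := exists_powers B hB g
  have hp := isPalindrome_of_mem _ (commutator_le (B : Set G) hB hf)
  -- palindromes as lists of elements of the group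
  have conv : ∀ p : G, IsPalindrome ((B : Set G) ∪ (B : Set G) * (B : Set G)) p →
      ∃ w : List G, (w.reverse = w ∧ ∀ x ∈ w, x ∈ S ∨ x⁻¹ ∈ S) ∧ w.prod = p := by
    rintro p ⟨w, hw, rfl⟩
    refine ⟨w.map fun a => cond a.2 (a.1 : G) (a.1 : G)⁻¹, ⟨?_, ?_⟩, rfl⟩
    · rw [← List.map_reverse, hw]
    · intro x hx
      rw [List.mem_map] at hx
      obtain ⟨⟨⟨a, ha⟩, b⟩, _, rfl⟩ := hx
      have ha' : a ∈ S := by rw [← Finset.mem_coe, hS]; exact ha
      cases b
      · right; simpa using ha'
      · left; simpa using ha'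
  have hpow : ∀ a : G, ∃ w : List G, a ∈ B →
      ((w.reverse = w ∧ ∀ x ∈ w, x ∈ S ∨ x⁻¹ ∈ S) ∧ w.prod = a ^ f a) := by
    intro a
    by_cases ha : a ∈ B
    · obtain ⟨w, hw⟩ := conv _ (isPalindrome_zpow _ (Set.mem_union_left _ (Finset.mem_coe.2 ha)) (f a))
      exact ⟨w, fun _ => hw⟩
    · exact ⟨[], fun h => absurd h ha⟩
  choose W hW using hpow
  obtain ⟨w0, hw0, hw0'⟩ := conv _ hp
  refine ⟨B.toList.map W ++ [w0], by simp, ?_, ?_⟩
  · intro w hw
    rw [List.mem_append, List.mem_map, List.mem_singleton] at hw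
    rcases hw with ⟨a, ha, rfl⟩ | rfl
    · exact (hW a (Finset.mem_toList.1 ha)).1
    · exact hw0
  · rw [List.map_append, List.prod_append, List.map_map]
    have e : B.toList.map (List.prod ∘ W) = B.toList.map fun a => a ^ f a := by
      apply List.map_congr_left
      intro a ha
      exact (hW a (Finset.mem_toList.1 ha)).2
    rw [e, List.map_singleton, List.prod_singleton, hw0']
    group

end Pool.Agent.X262.PalWidth
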